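import Pool.Agent.Work.MP_8f25a0_lc.Full.UpperC

/-!
# Full reading: the upper bound for large `k`
-/

namespace Pool.Agent.Work.MP_8f25a0_lc.Full

open Finset

variable {n k l m : ℕ}

theorem approximates_random (hk : k ≤ n) (l : ℕ) {ε τ : ℝ}
    (hm : (m : ℝ) ≤ pp l / 2 * 2 ^ n) (h1 : 4 / (pp l * 2 ^ n) ≤ 1 / 6)
    (h2 : ∀ f : Cube n → Bool, ∀ J ∈ powersetCard k (univ : Finset (Fin n)),
      avg (fun w : Om n l => if ε * 2 ^ n < |EJ J f w| then (1 : ℝ) else 0) ≤ τ)
    (h3 : (Nat.choose n k : ℝ) * τ ≤ 1 / 6) :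
    ∃ A : PMF (Tree n), Approximates n k ε (2 ^ n - m) A := by
  classical
  set T : Om n l → Tree n := fun w => if m ≤ (TT w).card then
    Tree.nonadaptive ((TT w)ᶜ).toList (fun bs =>
      estC n k w (fun x => (((TT w)ᶜ.toList.zip bs).lookup x).getD false))
    else Tree.out 0 with hT
  have hestC : ∀ (w : Om n l) (v v' : Cube n → Bool), (∀ x, x ∉ TT w → v x = v' x) →
      estC n k w v = estC n k w v' := by
    intro w v v' h
    unfold estC
    congr 1
    funext J
    rw [hatJ_congr w h]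
  have heval : ∀ (f : Cube n → Bool) (w : Om n l), m ≤ (TT w).card →
      (T w).eval f = estC n k w f := by
    intro f w hw
    simp only [hT]
    rw [if_pos hw, Tree.eval_nonadaptive]
    apply hestC
    intro x hx
    rw [lookup_zip_map _ (Finset.mem_toList.mpr (mem_compl.mpr hx))]
    rfl
  refine ⟨(PMF.uniformOfFintype (Om n l)).map T, ?_, ?_⟩
  · intro T' hT'
    rw [PMF.support_map] at hT'
    obtain ⟨w, -, rfl⟩ := hT'
    simp only [hT]
    split_ifs with hw
    · rw [Tree.depth_nonadaptive, Finset.length_toList, card_compl]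
      have : Fintype.card (Cube n) = 2 ^ n := by simp
      omega
    · simp [Tree.depth]
  · intro f
    rw [PMF.toOuterMeasure_map_apply]
    apply uniform_ge
    have key : ∀ w : Om n l,
        (if w ∈ (T ⁻¹' {T | |T.eval f - distK k f| ≤ ε}) then (0 : ℝ) else 1) ≤
        (if ∑ x ∈ (univ : Finset (Cube n)), tau (w x) <
          pp l / 2 * ((univ : Finset (Cube n)).card : ℝ) then (1 : ℝ) else 0) +
        ∑ J ∈ powersetCard k (univ : Finset (Fin n)),
          if ε * 2 ^ n < |EJ J f w| then (1 : ℝ) else 0 := by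
      intro w
      have n1 : (0 : ℝ) ≤ (if ∑ x ∈ (univ : Finset (Cube n)), tau (w x) <
          pp l / 2 * ((univ : Finset (Cube n)).card : ℝ) then (1 : ℝ) else 0) := by
        split_ifs <;> norm_num
      have n2 : ∀ J ∈ powersetCard k (univ : Finset (Fin n)),
          (0 : ℝ) ≤ if ε * 2 ^ n < |EJ J f w| then (1 : ℝ) else 0 := by
        intro J _; split_ifs <;> norm_num
      by_cases h : w ∈ (T ⁻¹' {T | |T.eval f - distK k f| ≤ ε})
      · rw [if_pos h]
        exact add_nonneg n1 (sum_nonneg n2)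
      · rw [if_neg h]
        by_cases hw : m ≤ (TT w).card
        · simp only [Set.mem_preimage, Set.mem_ofPred_eq, not_le, heval f w hw] at h
          have h4 : ∃ J ∈ powersetCard k (univ : Finset (Fin n)), ε * 2 ^ n < |EJ J f w| := by
            by_contra hcon
            push Not at hcon
            exact absurd (estC_close hk w f hcon) (not_le.mpr h)
          obtain ⟨J, hJ, hJ2⟩ := h4
          have h5 := single_le_sum n2 hJ
          rw [if_pos hJ2] at h5
          linarith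
        · have h4 : ∑ x ∈ (univ : Finset (Cube n)), tau (w x) <
              pp l / 2 * ((univ : Finset (Cube n)).card : ℝ) := by
            rw [← card_TT]
            have h5 : ((univ : Finset (Cube n)).card : ℝ) = 2 ^ n := by
              rw [card_univ]; simp
            rw [h5]
            have h6 : ((TT w).card : ℝ) < m := by exact_mod_cast not_le.mp hw
            linarith
          rw [if_pos h4]
          have := sum_nonneg n2
          linarith
    refine (avg_mono key).trans ?_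
    rw [avg_add, avg_sum]
    have e1 : avg (fun w : Om n l => if ∑ x ∈ (univ : Finset (Cube n)), tau (w x) <
        pp l / 2 * ((univ : Finset (Cube n)).card : ℝ) then (1 : ℝ) else 0) ≤ 1 / 6 := by
      have h5 : ((univ : Finset (Cube n)).card : ℝ) = 2 ^ n := by
        rw [card_univ]; simp
      have h4 := card_few (n := n) (l := l) (U := fun _ => univ) (fun _ _ _ _ => rfl)
        (m := 2 ^ n) (by positivity) (fun _ => h5.ge)
      unfold avg
      rw [← sum_filter, sum_const, nsmul_eq_mul, mul_one]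
      have hc : (0 : ℝ) < Fintype.card (Om n l) := by exact_mod_cast Fintype.card_pos
      rw [div_le_iff₀ hc]
      exact h4.trans (mul_le_mul_of_nonneg_right h1 hc.le)
    have e2 : ∑ J ∈ powersetCard k (univ : Finset (Fin n)),
        avg (fun w : Om n l => if ε * 2 ^ n < |EJ J f w| then (1 : ℝ) else 0) ≤ 1 / 6 := by
      refine (sum_le_sum fun J hJ => h2 f J hJ).trans ?_
      rw [sum_const, nsmul_eq_mul, card_powersetCard, card_univ, Fintype.card_fin]
      exact h3
    linarith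

theorem choose_bound (hk : k ≤ n) (hn : 0 < n) :
    (Nat.choose n k : ℝ) * (2 * Real.exp (-(3 + (n - k : ℕ) * Real.log n))) ≤ 1 / 6 := by
  have h1 : (Nat.choose n k : ℝ) ≤ (n : ℝ) ^ (n - k) := by
    rw [← Nat.choose_symm hk]
    exact_mod_cast Nat.choose_le_pow (n := n) (k := n - k)
  have hn' : (0 : ℝ) < n := by exact_mod_cast hn
  have h2 : (n : ℝ) ^ (n - k) = Real.exp ((n - k : ℕ) * Real.log n) := by
    rw [Real.exp_nat_mul, Real.exp_log hn']
  have h3 : Real.exp (-3) ≤ 1 / 12 := by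
    rw [Real.exp_neg]
    have h6 : (12 : ℝ) ≤ Real.exp 3 := by
      have h7 : (2.7 : ℝ) ≤ Real.exp 1 := by
        have := Real.exp_one_gt_d9; linarith
      calc (12 : ℝ) ≤ 2.7 ^ 3 := by norm_num
        _ ≤ Real.exp 1 ^ 3 := pow_le_pow_left₀ (by norm_num) h7 3
        _ = Real.exp 3 := by rw [← Real.exp_nat_mul]; norm_num
    rw [one_div]
    exact inv_anti₀ (by norm_num) h6
  calc (Nat.choose n k : ℝ) * (2 * Real.exp (-(3 + (n - k : ℕ) * Real.log n)))
      ≤ Real.exp ((n - k : ℕ) * Real.log n) *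
        (2 * Real.exp (-(3 + (n - k : ℕ) * Real.log n))) := by
        rw [← h2]
        exact mul_le_mul_of_nonneg_right h1 (by positivity)
    _ = 2 * Real.exp (-3) := by
        rw [mul_left_comm, ← Real.exp_add]
        congr 2
        ring
    _ ≤ 1 / 6 := by linarith

theorem floor_ge_half {y : ℝ} (hy : 1 ≤ y) : y / 2 ≤ ⌊y⌋₊ := by
  have h1 := Nat.lt_floor_add_one y
  have h2 : 1 ≤ ⌊y⌋₊ := Nat.le_floor (by exact_mod_cast hy)
  have h3 : (1 : ℝ) ≤ ⌊y⌋₊ := by exact_mod_cast h2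
  linarith

/-- the upper bound with `4 ^ (n - k)` -/
theorem upper_codim (hk : k < n) {ε : ℝ} (hδ : 1 / 2 ≤ ε * 2 ^ n)
    (hx : (ε * 2 ^ n) ^ 2 ≤ 2 ^ n) :
    (queryComplexity n k ε : ℝ) ≤ 2 ^ n -
      (ε * 2 ^ n) ^ 2 / (16 * (4 ^ (n - k) * (3 + (n - k : ℕ) * Real.log n))) := by
  have hn : 0 < n := by omega
  set N : ℝ := 2 ^ n with hN
  have hN0 : 0 < N := by positivity
  set δ : ℝ := ε * N with hδd
  have hε0 : 0 < ε := by
    by_contra h
    push Not at h
    have : ε * N ≤ 0 := mul_nonpos_of_nonpos_of_nonneg h hN0.le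
    linarith
  have hδ0 : 0 < δ := by linarith
  set M : ℝ := 2 ^ (n - k) with hM
  have hM2 : 2 ≤ M := by
    calc (2 : ℝ) = 2 ^ 1 := by norm_num
      _ ≤ 2 ^ (n - k) := pow_le_pow_right₀ (by norm_num) (by omega)
  have hM4 : (4 : ℝ) ^ (n - k) = M ^ 2 := by
    rw [hM, ← pow_mul, mul_comm, pow_mul]; norm_num
  set Λ : ℝ := 3 + (n - k : ℕ) * Real.log n with hΛ
  have hlog : 0 ≤ Real.log n := Real.log_natCast_nonneg n
  have hΛ3 : 3 ≤ Λ := by
    rw [hΛ]
    have : 0 ≤ ((n - k : ℕ) : ℝ) * Real.log n := by positivity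
    linarith
  rw [hM4]
  by_cases hc : δ < 8 * Λ * M
  · have h1 := queryComplexity_skip n k hε0.le
    have h2 : (2 : ℝ) ^ (n + 1) * ε = 2 * δ := by rw [hδd, pow_succ, ← hN]; ring
    rw [h2] at h1
    have h3 := floor_ge_half (y := 2 * δ) (by linarith)
    by_cases h4 : ⌊2 * δ⌋₊ ≤ 2 ^ n
    swap
    · have h5 : queryComplexity n k ε = 0 := by omega
      rw [h5]
      have h6 : δ ^ 2 / (16 * (M ^ 2 * Λ)) ≤ δ ^ 2 := by
        apply div_le_self (by positivity)
        have h2 : 1 ≤ M ^ 2 := by nlinarith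
        have h3 : 1 * 1 ≤ M ^ 2 * Λ := mul_le_mul h2 (by linarith) (by norm_num) (by positivity)
        linarith
      push_cast
      linarith
    have h5 : (queryComplexity n k ε : ℝ) ≤ ((2 ^ n - ⌊2 * δ⌋₊ : ℕ) : ℝ) := by exact_mod_cast h1
    rw [Nat.cast_sub h4] at h5
    push_cast at h5
    rw [← hN] at h5
    have h6 : δ ^ 2 / (16 * (M ^ 2 * Λ)) ≤ δ := by
      rw [div_le_iff₀ (by positivity)]
      have h7 : δ * δ ≤ δ * (8 * Λ * M) := mul_le_mul_of_nonneg_left hc.le hδ0.le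
      have h8 : 8 * Λ * M ≤ 16 * (M ^ 2 * Λ) := by nlinarith
      nlinarith
    linarith
  · push Not at hc
    obtain ⟨l, hl⟩ : ∃ l : ℕ, l + 2 = ⌈4 * (M ^ 2 * N * Λ) / δ ^ 2⌉₊ := by
      have h1 : (48 : ℝ) ≤ 4 * (M ^ 2 * N * Λ) / δ ^ 2 := by
        rw [le_div_iff₀ (by positivity)]
        have h2 : 4 ≤ M ^ 2 := by nlinarith
        have h3 : 4 * 3 ≤ M ^ 2 * Λ := mul_le_mul h2 hΛ3 (by norm_num) (by positivity)
        nlinarith
      have h2 : (48 : ℝ) ≤ ⌈4 * (M ^ 2 * N * Λ) / δ ^ 2⌉₊ := h1.trans (Nat.le_ceil _)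
      have h3 : 48 ≤ ⌈4 * (M ^ 2 * N * Λ) / δ ^ 2⌉₊ := by exact_mod_cast h2
      exact ⟨⌈4 * (M ^ 2 * N * Λ) / δ ^ 2⌉₊ - 2, by omega⟩
    have hlc : ((l : ℝ) + 2) = ⌈4 * (M ^ 2 * N * Λ) / δ ^ 2⌉₊ := by
      rw [← hl]; push_cast; ring
    have hD1 : 4 * (M ^ 2 * N * Λ) / δ ^ 2 ≤ (l : ℝ) + 2 := by
      rw [hlc]; exact Nat.le_ceil _
    have hbig : 1 ≤ M ^ 2 * N * Λ / δ ^ 2 := by
      rw [le_div_iff₀ (by positivity)]
      have h2 : 1 ≤ M ^ 2 := by nlinarith
      have h3 : 1 * 1 ≤ M ^ 2 * Λ := mul_le_mul h2 (by linarith) (by norm_num) (by positivity)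
      nlinarith
    have hD2 : (l : ℝ) + 2 ≤ 5 * (M ^ 2 * N * Λ) / δ ^ 2 := by
      rw [hlc]
      have h1 := Nat.ceil_lt_add_one (show 0 ≤ 4 * (M ^ 2 * N * Λ) / δ ^ 2 by positivity)
      have h2 : 5 * (M ^ 2 * N * Λ) / δ ^ 2 = 4 * (M ^ 2 * N * Λ) / δ ^ 2 +
        M ^ 2 * N * Λ / δ ^ 2 := by ring
      linarith
    have hl0 := l2_pos (l := l)
    have hp0 := pp_pos (l := l)
    -- bounds for `p`
    have hpu : pp l * (2 * (M ^ 2 * N * Λ)) ≤ δ ^ 2 := by
      unfold pp
      rw [div_mul_eq_mul_div, div_le_iff₀ hl0]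
      rw [div_le_iff₀ (by positivity)] at hD1
      linarith
    have hpl : 2 * δ ^ 2 ≤ pp l * (5 * (M ^ 2 * N * Λ)) := by
      unfold pp
      rw [div_mul_eq_mul_div, le_div_iff₀ hl0]
      rw [le_div_iff₀ (by positivity)] at hD2
      linarith
    have hpN : δ ^ 2 / (M ^ 2 * Λ) ≤ 5 / 2 * (pp l * N) := by
      rw [div_le_iff₀ (by positivity)]
      nlinarith
    have hδM : 64 * Λ ≤ δ ^ 2 / (M ^ 2 * Λ) := by
      rw [le_div_iff₀ (by positivity)]
      have h1 := mul_self_le_mul_self (show 0 ≤ 8 * Λ * M by positivity) hc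
      nlinarith
    have hpN2 : 76 ≤ pp l * N := by linarith
    have hMp : M * pp l ≤ 1 / 2 := by
      have h1 : pp l * (2 * (M ^ 2 * N * Λ)) ≤ N := hpu.trans hx
      have h2 : pp l * (2 * (M ^ 2 * Λ)) ≤ 1 := by
        have h3 : (pp l * (2 * (M ^ 2 * Λ))) * N ≤ 1 * N := by nlinarith
        exact le_of_mul_le_mul_right h3 hN0
      have h4 : M * 3 ≤ M ^ 2 * Λ := by nlinarith
      nlinarith
    have hp1 : pp l ≤ 1 := by nlinarith
    set m : ℕ := ⌊pp l / 2 * N⌋₊ with hm
    have hmle : (m : ℝ) ≤ pp l / 2 * N := Nat.floor_le (by positivity)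
    have hmge : pp l / 2 * N / 2 ≤ m := floor_ge_half (by linarith)
    have hA := approximates_random (n := n) (k := k) (m := m) hk.le l (ε := ε)
      (τ := 2 * Real.exp (-Λ)) hmle (by
        rw [div_le_div_iff₀ (by positivity) (by norm_num)]
        linarith) (by
        intro f J hJ
        have hJc := (mem_powersetCard.mp hJ).2
        have ht : 2 * Λ / δ * 2 ^ (n - J.card) ≤ 1 := by
          rw [hJc, ← hM, div_mul_eq_mul_div, div_le_iff₀ hδ0]
          nlinarith
        have hg : 1 / 2 ≤ gam n l J := by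
          unfold gam
          have h6 := one_add_mul_le_pow (a := -pp l) (by linarith) (2 ^ (n - J.card))
          rw [hJc] at h6 ⊢
          push_cast at h6
          rw [← hM] at h6
          have h7 : (1 : ℝ) + -pp l = 1 - pp l := by ring
          rw [h7] at h6
          linarith
        have h8 := tail_EJ (l := l) (J := J) f (t := 2 * Λ / δ) (δ := ε * 2 ^ n)
          (by positivity) ht hg hp1
        rw [hJc, ← hM, ← hN, ← hδd] at h8
        rw [← hN, ← hδd]
        refine h8.trans ?_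
        apply mul_le_mul_of_nonneg_left _ (by norm_num)
        apply Real.exp_le_exp.mpr
        have e1 : 2 * Λ / δ * δ = 2 * Λ := by field_simp
        have e2 : (2 * Λ / δ) ^ 2 * M ^ 2 * N * pp l / 2 =
            Λ * (pp l * (2 * (M ^ 2 * N * Λ))) / δ ^ 2 := by
          field_simp
        have e3 : Λ * (pp l * (2 * (M ^ 2 * N * Λ))) / δ ^ 2 ≤ Λ := by
          rw [div_le_iff₀ (by positivity)]
          exact mul_le_mul_of_nonneg_left hpu (by linarith)
        rw [e1, e2]
        linarith) (choose_bound hk.le hn)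
    obtain ⟨A, hA⟩ := hA
    have h3 := queryComplexity_le hA
    have hm2 : m ≤ 2 ^ n := by
      have : (m : ℝ) ≤ 2 ^ n := by rw [← hN]; nlinarith
      exact_mod_cast this
    have h4 : (queryComplexity n k ε : ℝ) ≤ ((2 ^ n - m : ℕ) : ℝ) := by exact_mod_cast h3
    rw [Nat.cast_sub hm2] at h4
    push_cast at h4
    rw [← hN] at h4
    have h5 : δ ^ 2 / (16 * (M ^ 2 * Λ)) ≤ m := by
      have : δ ^ 2 / (16 * (M ^ 2 * Λ)) = δ ^ 2 / (M ^ 2 * Λ) / 16 := by field_simp
      rw [this]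
      linarith
    linarith

/-- the upper bound with `4 ^ (n - k)` for all `ε ≥ 2 ^ (-n-1)` -/
theorem upper_codim_min (hk : k < n) {ε : ℝ} (hδ : 1 / 2 ≤ ε * 2 ^ n) :
    (queryComplexity n k ε : ℝ) ≤ 2 ^ n - min ((ε * 2 ^ n) ^ 2) (2 ^ n) /
      (16 * (4 ^ (n - k) * (3 + (n - k : ℕ) * Real.log n))) := by
  have hN0 : (0 : ℝ) < 2 ^ n := by positivity
  have hlog : 0 ≤ Real.log n := Real.log_natCast_nonneg n
  by_cases hx : (ε * 2 ^ n) ^ 2 ≤ 2 ^ n
  · rw [min_eq_left hx]
    exact upper_codim hk hδ hx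
  · push Not at hx
    rw [min_eq_right hx.le]
    set e : ℝ := √(2 ^ n) / 2 ^ n with he
    have he3 : e * 2 ^ n = √(2 ^ n) := by rw [he]; field_simp
    have hs1 : 1 ≤ √((2 : ℝ) ^ n) := by
      rw [Real.one_le_sqrt]; exact one_le_pow₀ (by norm_num)
    have he2 : e ≤ ε := by
      rw [he, div_le_iff₀ hN0]
      apply Real.sqrt_le_iff.mpr
      exact ⟨by linarith, hx.le⟩
    have h1 := upper_codim hk (ε := e) (by rw [he3]; linarith)
      (by rw [he3, Real.sq_sqrt hN0.le])
    rw [he3, Real.sq_sqrt hN0.le] at h1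
    have he0 : 0 ≤ e := by rw [he]; positivity
    obtain ⟨A, hA⟩ := exists_approximates n k he0
    have h2 := queryComplexity_le (Approximates_mono hA he2)
    have h3 : (queryComplexity n k ε : ℝ) ≤ queryComplexity n k e := by exact_mod_cast h2
    exact h3.trans h1

end Pool.Agent.Work.MP_8f25a0_lc.Full
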