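import Pool.Agent.Work.MP_8f25a0_lc.Lower

/-!
# Full reading: the set of queries, averaging over inputs, parity and the exact statement
-/

namespace Pool.Agent.Work.MP_8f25a0_lc.Full

open Finset

variable {n k : ℕ}

/-- the set of inputs asked by the algorithm on the function `f` -/
def queried (f : Cube n → Bool) : Tree n → Finset (Cube n)
  | Tree.out _ => ∅
  | Tree.ask x t => insert x (queried f (t (f x)))

theorem card_queried_le (f : Cube n → Bool) (T : Tree n) : (queried f T).card ≤ T.depth := by
  induction T with
  | out r => simp [queried, Tree.depth]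
  | ask x t ih =>
    simp only [queried, Tree.depth]
    have h1 := card_insert_le x (queried f (t (f x)))
    have h2 := ih (f x)
    have h3 : (t (f x)).depth ≤ max (t false).depth (t true).depth := by
      cases f x
      · exact le_max_left _ _
      · exact le_max_right _ _
    omega

theorem queried_congr {f f' : Cube n → Bool} (T : Tree n) (h : ∀ x ∈ queried f T, f x = f' x) :
    queried f' T = queried f T ∧ T.eval f' = T.eval f := by
  induction T with
  | out r => simp [queried, Tree.eval]
  | ask x t ih =>
    simp only [queried, Tree.eval] at h ⊢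
    have hx : f x = f' x := h x (mem_insert_self _ _)
    have h2 := ih (f x) (fun y hy => h y (mem_insert_of_mem hy))
    rw [← hx]
    exact ⟨by rw [h2.1], h2.2⟩

/-- averaging over a finite family of inputs -/
theorem yao {Ω : Type*} [Fintype Ω] {ε : ℝ} {q : ℕ} (F : Ω → Cube n → Bool) (c : ℝ)
    (hc : c < 2 / 3 * Fintype.card Ω)
    (h : ∀ T : Tree n, T.depth ≤ q →
      (∑ w, if |T.eval (F w) - distK k (F w)| ≤ ε then (1 : ℝ) else 0) ≤ c)
    {A : PMF (Tree n)} (hA : Approximates n k ε q A) : False := by
  classical
  have h1 : ∀ w, (2 / 3 : ℝ) ≤ ∑' T, (A T).toReal *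
      (if |T.eval (F w) - distK k (F w)| ≤ ε then (1 : ℝ) else 0) := by
    intro w
    have h2 := two_thirds (hA.2 (F w))
    rw [prob_eq_tsum] at h2
    refine h2.trans (le_of_eq ?_)
    apply tsum_congr
    intro T
    congr 1
  have hs : ∀ w, Summable fun T => (A T).toReal *
      (if |T.eval (F w) - distK k (F w)| ≤ ε then (1 : ℝ) else 0) := by
    intro w
    apply summable_acc
    · intro T; split_ifs <;> norm_num
    · intro T; split_ifs <;> norm_num
  have h3 : (2 / 3 : ℝ) * Fintype.card Ω ≤ ∑ w, ∑' T, (A T).toReal *
      (if |T.eval (F w) - distK k (F w)| ≤ ε then (1 : ℝ) else 0) := by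
    have := sum_le_sum (fun w (_ : w ∈ (univ : Finset Ω)) => h1 w)
    rw [sum_const, card_univ, nsmul_eq_mul] at this
    linarith
  rw [← Summable.tsum_finsetSum (fun w _ => hs w)] at h3
  have h4 : ∑' T, ∑ w, (A T).toReal *
      (if |T.eval (F w) - distK k (F w)| ≤ ε then (1 : ℝ) else 0) ≤ ∑' T, (A T).toReal * c := by
    apply Summable.tsum_le_tsum _ _ ((summable_toReal A).mul_right _)
    · intro T
      rw [← mul_sum]
      by_cases hT : T ∈ A.support
      · exact mul_le_mul_of_nonneg_left (h T (hA.1 T hT)) ENNReal.toReal_nonneg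
      · rw [PMF.mem_support_iff, not_not] at hT
        rw [hT]; simp
    · exact summable_sum fun w _ => hs w
  rw [tsum_mul_right, tsum_toReal, one_mul] at h4
  linarith

/-- `2 ^ n` times the distance to the `k`-juntas, as a natural number -/
theorem exists_nat_distK (k : ℕ) (f : Cube n → Bool) : ∃ g, IsJunta k g ∧
    distK k f * 2 ^ n = ((univ.filter fun x => f x ≠ g x).card : ℝ) := by
  obtain ⟨g, hg, h⟩ := exists_distK k f
  refine ⟨g, hg, ?_⟩
  rw [h]
  unfold dist
  field_simp

theorem even_card_junta (hk : k < n) {g : Cube n → Bool} (hg : IsJunta k g) :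
    Even (univ.filter fun x => g x = true).card := by
  obtain ⟨J, hJ, hg⟩ := hg
  obtain ⟨i, hi⟩ : ∃ i : Fin n, i ∉ J := by
    by_contra hcon
    push Not at hcon
    have : (univ : Finset (Fin n)) ⊆ J := fun i _ => hcon i
    have := card_le_card this
    rw [card_univ, Fintype.card_fin] at this
    omega
  have hgf : ∀ x, g (flip i x) = g x := by
    intro x
    apply hg
    intro j hj
    unfold flip
    rw [Function.update_of_ne]
    rintro rfl
    exact hi hj
  have h1 : (univ.filter fun x => g x = true ∧ x i = true).card =
      (univ.filter fun x => g x = true ∧ ¬ x i = true).card := by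
    apply card_bij' (fun x _ => flip i x) (fun x _ => flip i x)
    · intro x hx
      simp only [mem_filter, mem_univ, true_and] at hx ⊢
      rw [hgf]
      refine ⟨hx.1, ?_⟩
      unfold flip
      simp [hx.2]
    · intro x hx
      simp only [mem_filter, mem_univ, true_and] at hx ⊢
      rw [hgf]
      refine ⟨hx.1, ?_⟩
      unfold flip
      simpa using hx.2
    · intro x _; exact flip_flip i x
    · intro x _; exact flip_flip i x
  have h2 : (univ.filter fun x => g x = true).card =
      (univ.filter fun x => g x = true ∧ x i = true).card +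
      (univ.filter fun x => g x = true ∧ ¬ x i = true).card := by
    rw [← filter_filter, ← filter_filter, card_filter_add_card_filter_not]
  rw [h2, h1]
  exact ⟨_, rfl⟩

/-- the number of disagreements with a junta has the parity of the number of ones -/
theorem card_ne_parity (hk : k < n) (f : Cube n → Bool) {g : Cube n → Bool}
    (hg : IsJunta k g) : (univ.filter fun x => f x ≠ g x).card % 2 =
      (univ.filter fun x => f x = true).card % 2 := by
  have h1 := even_card_junta hk hg
  have h2 : (univ.filter fun x => f x ≠ g x).card + 2 * (univ.filter fun x => f x = true ∧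
      g x = true).card = (univ.filter fun x => f x = true).card +
      (univ.filter fun x => g x = true).card := by
    simp only [card_filter, mul_sum, ← sum_add_distrib]
    apply sum_congr rfl
    intro x _
    cases f x <;> cases g x <;> simp
  obtain ⟨r, hr⟩ := h1
  omega

/-- flipping the value at `x` -/
def fl (f : Cube n → Bool) (x : Cube n) : Cube n → Bool := Function.update f x (!f x)

theorem fl_card (f : Cube n → Bool) (x : Cube n) :
    ((univ.filter fun y => fl f x y = true).card + (univ.filter fun y => f y = true).card) % 2 =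
      1 := by
  unfold fl
  rcases Bool.eq_false_or_eq_true (f x) with h | h
  · have h1 : (univ.filter fun j => f j = true) =
        insert x (univ.filter fun j => Function.update f x (!f x) j = true) := by
      ext j
      by_cases hj : j = x
      · subst hj; simp [h]
      · simp [hj]
    have h2 : x ∉ (univ.filter fun j => Function.update f x (!f x) j = true) := by simp [h]
    rw [h1, card_insert_of_notMem h2]
    omega
  · have h1 : (univ.filter fun j => Function.update f x (!f x) j = true) =
        insert x (univ.filter fun j => f j = true) := by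
      ext j
      by_cases hj : j = x
      · subst hj; simp [h]
      · simp [hj]
    have h2 : x ∉ (univ.filter fun j => f j = true) := by simp [h]
    rw [h1, card_insert_of_notMem h2]
    omega

theorem distK_fl (hk : k < n) (f : Cube n → Bool) (x : Cube n) :
    1 ≤ |distK k (fl f x) * 2 ^ n - distK k f * 2 ^ n| := by
  obtain ⟨g, hg, h⟩ := exists_nat_distK k f
  obtain ⟨g', hg', h'⟩ := exists_nat_distK k (fl f x)
  rw [h, h']
  have h1 := card_ne_parity hk f hg
  have h2 := card_ne_parity hk (fl f x) hg'
  have h3 := fl_card f x
  have h4 : ((univ.filter fun y => fl f x y ≠ g' y).card : ℤ) -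
      ((univ.filter fun y => f y ≠ g y).card : ℤ) ≠ 0 := by omega
  have h5 := Int.one_le_abs h4
  have h6 : ((1 : ℤ) : ℝ) ≤ ((|((univ.filter fun y => fl f x y ≠ g' y).card : ℤ) -
      ((univ.filter fun y => f y ≠ g y).card : ℤ)| : ℤ) : ℝ) := by exact_mod_cast h5
  push_cast at h6
  exact h6

/-- for `ε < 2 ^ (-n-1)` everything has to be read -/
theorem full_lower (hk : k < n) {ε : ℝ} (hε : ε < 1 / 2 ^ (n + 1)) {q : ℕ}
    {A : PMF (Tree n)} (hA : Approximates n k ε q A) : 2 ^ n ≤ q := by
  classical
  by_contra hq
  push Not at hq
  refine yao (Ω := Cube n → Bool) (fun f => f) (1 / 2 * Fintype.card (Cube n → Bool)) ?_ ?_ hA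
  · have : (0 : ℝ) < Fintype.card (Cube n → Bool) := by
      exact_mod_cast Fintype.card_pos
    linarith
  intro T hT
  -- the first point that is not asked
  have hne : ∀ f : Cube n → Bool, ∃ x, x ∉ queried f T := by
    intro f
    by_contra hcon
    push Not at hcon
    have h1 : (univ : Finset (Cube n)) ⊆ queried f T := fun x _ => hcon x
    have h2 := card_le_card h1
    have h3 := card_queried_le f T
    rw [card_univ] at h2
    have h4 : Fintype.card (Cube n) = 2 ^ n := by simp
    omega
  have hch : ∀ Q : Finset (Cube n), ∃ x : Cube n, (∃ y, y ∉ Q) → x ∉ Q := by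
    intro Q
    by_cases hQ : ∃ y, y ∉ Q
    · obtain ⟨y, hy⟩ := hQ; exact ⟨y, fun _ => hy⟩
    · exact ⟨fun _ => false, fun h => absurd h hQ⟩
  choose p hp using hch
  set σ : (Cube n → Bool) → (Cube n → Bool) := fun f => fl f (p (queried f T)) with hσ
  have hq1 : ∀ f, queried (σ f) T = queried f T ∧ T.eval (σ f) = T.eval f := by
    intro f
    apply queried_congr
    intro x hx
    have h1 : x ≠ p (queried f T) := by
      rintro rfl
      exact hp _ (hne f) hx
    simp only [hσ, fl]
    rw [Function.update_of_ne h1]
  have hσσ : ∀ f, σ (σ f) = f := by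
    intro f
    have h1 : σ (σ f) = fl (σ f) (p (queried (σ f) T)) := rfl
    rw [h1, (hq1 f).1]
    simp only [hσ, fl]
    simp
  have hbij : Function.Bijective σ := Function.Involutive.bijective hσσ
  have hsum : ∑ f, (if |T.eval f - distK k f| ≤ ε then (1 : ℝ) else 0) =
      ∑ f, (if |T.eval (σ f) - distK k (σ f)| ≤ ε then (1 : ℝ) else 0) :=
    (hbij.sum_comp (fun f => if |T.eval f - distK k f| ≤ ε then (1 : ℝ) else 0)).symm
  have hle : ∑ f, ((if |T.eval f - distK k f| ≤ ε then (1 : ℝ) else 0) +
      (if |T.eval (σ f) - distK k (σ f)| ≤ ε then (1 : ℝ) else 0)) ≤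
      ∑ _f : Cube n → Bool, (1 : ℝ) := by
    apply sum_le_sum
    intro f _
    by_contra hcon
    have h1 : |T.eval f - distK k f| ≤ ε := by
      by_contra h2
      apply hcon
      rw [if_neg h2]
      split_ifs <;> norm_num
    have h2 : |T.eval (σ f) - distK k (σ f)| ≤ ε := by
      by_contra h2
      apply hcon
      rw [if_neg h2]
      split_ifs <;> norm_num
    rw [(hq1 f).2] at h2
    have h3 := distK_fl hk f (p (queried f T))
    have h4 : fl f (p (queried f T)) = σ f := rfl
    rw [h4, ← sub_mul, abs_mul, abs_of_pos (show (0 : ℝ) < 2 ^ n by positivity)] at h3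
    have h5 : |distK k (σ f) - distK k f| ≤ 2 * ε := by
      rw [abs_le] at h1 h2 ⊢
      constructor <;> linarith
    have h6 : 2 * ε * 2 ^ n < 1 := by
      rw [lt_div_iff₀ (by positivity), pow_succ] at hε
      linarith
    have h7 := mul_le_mul_of_nonneg_right h5 (show (0 : ℝ) ≤ 2 ^ n by positivity)
    linarith
  rw [sum_add_distrib, ← hsum, sum_const, card_univ, nsmul_eq_mul, mul_one] at hle
  linarith

end Pool.Agent.Work.MP_8f25a0_lc.Full
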