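import Mathlib

/-!
# Full reading: anticoncentration of the number of elements of a random subset
-/

namespace Pool.Agent.Work.MP_8f25a0_lc.Full

open Finset

theorem centralBinom_sq (r : ℕ) : (Nat.centralBinom r) ^ 2 * (2 * r + 1) ≤ 16 ^ r := by
  induction r with
  | zero => simp
  | succ r ih =>
    have h := Nat.succ_mul_centralBinom_succ r
    have h1 : (r + 1) ^ 2 * ((Nat.centralBinom (r + 1)) ^ 2 * (2 * (r + 1) + 1)) ≤
        (r + 1) ^ 2 * 16 ^ (r + 1) := by
      calc (r + 1) ^ 2 * ((Nat.centralBinom (r + 1)) ^ 2 * (2 * (r + 1) + 1))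
          = ((r + 1) * Nat.centralBinom (r + 1)) ^ 2 * (2 * (r + 1) + 1) := by ring
        _ = (2 * (2 * r + 1) * Nat.centralBinom r) ^ 2 * (2 * (r + 1) + 1) := by rw [h]
        _ = 4 * (2 * r + 1) * (2 * r + 3) * ((Nat.centralBinom r) ^ 2 * (2 * r + 1)) := by ring
        _ ≤ 4 * (2 * r + 1) * (2 * r + 3) * 16 ^ r := Nat.mul_le_mul_left _ ih
        _ ≤ (16 * (r + 1) ^ 2) * 16 ^ r := by
            apply Nat.mul_le_mul_right
            nlinarith
        _ = (r + 1) ^ 2 * 16 ^ (r + 1) := by ring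
    exact Nat.le_of_mul_le_mul_left h1 (by positivity)

theorem choose_sq (s j : ℕ) : (Nat.choose s j) ^ 2 * (s + 1) ≤ 4 ^ s := by
  have h1 : Nat.choose s j ≤ Nat.choose s (s / 2) := Nat.choose_le_middle j s
  have h2 : (Nat.choose s j) ^ 2 * (s + 1) ≤ (Nat.choose s (s / 2)) ^ 2 * (s + 1) :=
    Nat.mul_le_mul_right _ (Nat.pow_le_pow_left h1 2)
  refine h2.trans ?_
  rcases Nat.even_or_odd' s with ⟨r, hr | hr⟩
  · have h3 := centralBinom_sq r
    rw [Nat.centralBinom] at h3
    have h4 : s / 2 = r := by omega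
    rw [h4, hr]
    refine h3.trans (le_of_eq ?_)
    rw [pow_mul]; norm_num
  · have h3 := centralBinom_sq (r + 1)
    rw [Nat.centralBinom] at h3
    have h4 : s / 2 = r := by omega
    have h5 : Nat.choose (2 * (r + 1)) (r + 1) = 2 * Nat.choose (2 * r + 1) r := by
      have h6 : 2 * (r + 1) = (2 * r + 1) + 1 := by ring
      rw [h6, Nat.choose_succ_succ, Nat.choose_symm_half]
      ring
    rw [h5] at h3
    rw [h4, hr]
    have h7 : (4 : ℕ) ^ (2 * r + 1) * 4 = 16 ^ (r + 1) := by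
      rw [show (16 : ℕ) = 4 ^ 2 by norm_num, ← pow_mul, ← pow_succ]
      congr 1
    have h8 : (2 * Nat.choose (2 * r + 1) r) ^ 2 * (2 * (r + 1) + 1) ≤
      4 ^ (2 * r + 1) * 4 := by rw [h7]; exact h3
    nlinarith [Nat.zero_le ((Nat.choose (2 * r + 1) r) ^ 2)]

theorem choose_le_sqrt (s j : ℕ) : (Nat.choose s j : ℝ) ≤ 2 ^ s / √((s : ℝ) + 1) := by
  have h := choose_sq s j
  have h1 : ((Nat.choose s j : ℝ)) ^ 2 * ((s : ℝ) + 1) ≤ 4 ^ s := by exact_mod_cast h
  have h2 : (0 : ℝ) < (s : ℝ) + 1 := by positivity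
  rw [le_div_iff₀ (Real.sqrt_pos.mpr h2)]
  apply le_of_sq_le_sq _ (by positivity)
  rw [mul_pow, Real.sq_sqrt h2.le]
  refine h1.trans (le_of_eq ?_)
  rw [← pow_mul, mul_comm s 2, pow_mul]; norm_num

theorem card_window (J : Finset ℕ) (c : ℝ) {δ : ℝ} (hδ : 0 ≤ δ)
    (h : ∀ j ∈ J, |c - (j : ℝ)| ≤ δ) : (J.card : ℝ) ≤ 2 * δ + 1 := by
  by_cases hJ : J.Nonempty
  · have h1 := h _ (J.min'_mem hJ)
    have h2 := h _ (J.max'_mem hJ)
    have h3 : J ⊆ Icc (J.min' hJ) (J.max' hJ) := fun j hj =>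
      mem_Icc.mpr ⟨J.min'_le j hj, J.le_max' j hj⟩
    have h4 := card_le_card h3
    rw [Nat.card_Icc] at h4
    have h5 : J.card + J.min' hJ ≤ J.max' hJ + 1 := by
      have := J.min'_le _ (J.max'_mem hJ)
      omega
    have h6 : (J.card : ℝ) + J.min' hJ ≤ J.max' hJ + 1 := by exact_mod_cast h5
    rw [abs_le] at h1 h2
    linarith
  · rw [not_nonempty_iff_eq_empty] at hJ
    rw [hJ]
    simp only [card_empty, Nat.cast_zero]
    linarith

/-- the number of subsets with size in a window -/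
theorem card_subsets {α : Type*} [DecidableEq α] (S : Finset α) (c : ℝ) {δ : ℝ} (hδ : 0 ≤ δ) :
    ((S.powerset.filter fun e => |c - (e.card : ℝ)| ≤ δ).card : ℝ) ≤
      (2 * δ + 1) * (2 ^ S.card / √((S.card : ℝ) + 1)) := by
  classical
  set P := S.powerset.filter fun e => |c - (e.card : ℝ)| ≤ δ with hP
  set J : Finset ℕ := (range (S.card + 1)).filter fun j : ℕ => |c - (j : ℝ)| ≤ δ with hJ
  have hmap : ∀ e ∈ P, e.card ∈ J := by
    intro e he
    simp only [hP, mem_filter, mem_powerset] at he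
    simp only [hJ, mem_filter, mem_range]
    exact ⟨by have := card_le_card he.1; omega, he.2⟩
  have h1 : P.card = ∑ j ∈ J, (P.filter fun e => e.card = j).card :=
    card_eq_sum_card_fiberwise hmap
  have h2 : ∀ j ∈ J, ((P.filter fun e => e.card = j).card : ℝ) ≤
      2 ^ S.card / √((S.card : ℝ) + 1) := by
    intro j _
    have h3 : (P.filter fun e => e.card = j) ⊆ powersetCard j S := by
      intro e he
      simp only [hP, mem_filter, mem_powerset] at he
      exact mem_powersetCard.mpr ⟨he.1.1, he.2⟩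
    have h4 := card_le_card h3
    rw [card_powersetCard] at h4
    have h5 : ((P.filter fun e => e.card = j).card : ℝ) ≤ Nat.choose S.card j := by
      exact_mod_cast h4
    exact h5.trans (choose_le_sqrt _ _)
  rw [h1]
  push_cast
  calc ∑ j ∈ J, ((P.filter fun e => e.card = j).card : ℝ)
      ≤ ∑ _j ∈ J, 2 ^ S.card / √((S.card : ℝ) + 1) := sum_le_sum h2
    _ = J.card * (2 ^ S.card / √((S.card : ℝ) + 1)) := by rw [sum_const, nsmul_eq_mul]
    _ ≤ _ := by
        apply mul_le_mul_of_nonneg_right _ (by positivity)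
        apply card_window J c hδ
        intro j hj
        simp only [hJ, mem_filter] at hj
        exact hj.2

/-- the same with a fixed symmetric difference -/
theorem sum_subsets {α : Type*} [DecidableEq α] (S a : Finset α) (ha : a ⊆ S) (c : ℝ) {δ : ℝ}
    (hδ : 0 ≤ δ) :
    ∑ e ∈ S.powerset, (if |c - ((symmDiff a e).card : ℝ)| ≤ δ then (1 : ℝ) else 0) ≤
      (2 * δ + 1) * (2 ^ S.card / √((S.card : ℝ) + 1)) := by
  have hsd : ∀ e ∈ S.powerset, symmDiff a e ∈ S.powerset := by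
    intro e he
    rw [mem_powerset] at he ⊢
    intro x hx
    rw [mem_symmDiff] at hx
    rcases hx with hx | hx
    · exact ha hx.1
    · exact he hx.1
  have h1 : ∑ e ∈ S.powerset, (if |c - ((symmDiff a e).card : ℝ)| ≤ δ then (1 : ℝ) else 0) =
      ∑ e ∈ S.powerset, (if |c - (e.card : ℝ)| ≤ δ then (1 : ℝ) else 0) := by
    apply sum_nbij' (fun e => symmDiff a e) (fun e => symmDiff a e) hsd hsd
    · intro e _; simp
    · intro e _; simp
    · intro e _; rfl
  rw [h1, ← sum_filter, sum_const, nsmul_eq_mul, mul_one]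
  exact card_subsets S c hδ

end Pool.Agent.Work.MP_8f25a0_lc.Full
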