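import Pool.Agent.Work.MP_8f25a0_lc.Full.UpperB
import Pool.Agent.Work.MP_8f25a0_lc.Upper2

/-!
# Full reading: leaving one random input unread in each of `m` blocks
-/

namespace Pool.Agent.Work.MP_8f25a0_lc.Full

open Finset

variable {n k m B Q : ℕ}

theorem avg_prod_indep {α : Type*} [Fintype α] [DecidableEq α] (Y : Fin Q → α → ℝ) :
    avg (fun s : Fin Q → α => ∏ j, Y j (s j)) = ∏ j, avg (Y j) := by
  unfold avg
  rw [prod_div_distrib]
  congr 1
  · have h := prod_univ_sum (fun _ : Fin Q => (univ : Finset α)) (fun j a => Y j a)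
    rw [Fintype.piFinset_univ] at h
    rw [← h]
  · simp

/-- Hoeffding's inequality for independent, not identically distributed terms: upper tail -/
theorem tail' {α : Type*} [Fintype α] [DecidableEq α] [Nonempty α] {X : Fin Q → α → ℝ}
    (h0 : ∀ j a, 0 ≤ X j a) (h1 : ∀ j a, X j a ≤ 1) {δ : ℝ} (hδ : 0 ≤ δ) :
    avg (fun s : Fin Q → α => if Q * δ ≤ ∑ j, (X j (s j) - avg (X j)) then (1 : ℝ) else 0) ≤
      Real.exp (-(Q * δ ^ 2 / 2)) := by
  have h2 : avg (fun s : Fin Q → α => Real.exp (δ * ∑ j, (X j (s j) - avg (X j)))) ≤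
      Real.exp (Q * δ ^ 2 / 2) := by
    have h3 : ∀ s : Fin Q → α, Real.exp (δ * ∑ j, (X j (s j) - avg (X j))) =
        ∏ j, Real.exp (δ * (X j (s j) - avg (X j))) := by
      intro s
      rw [mul_sum, Real.exp_sum]
    simp_rw [h3]
    rw [avg_prod_indep (fun j a => Real.exp (δ * (X j a - avg (X j))))]
    calc ∏ j, avg (fun a => Real.exp (δ * (X j a - avg (X j))))
        ≤ ∏ _j : Fin Q, Real.exp (δ ^ 2 / 2) := by
          apply prod_le_prod
          · intro j _; exact avg_nonneg fun a => (Real.exp_pos _).le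
          · intro j _; exact exp_moment (h0 j) (h1 j) δ
      _ = Real.exp (Q * δ ^ 2 / 2) := by
          rw [prod_const, card_univ, Fintype.card_fin, ← Real.exp_nat_mul]; congr 1; ring
  calc avg (fun s : Fin Q → α =>
        if Q * δ ≤ ∑ j, (X j (s j) - avg (X j)) then (1 : ℝ) else 0)
      ≤ avg (fun s : Fin Q → α => Real.exp (-(Q * δ ^ 2)) *
          Real.exp (δ * ∑ j, (X j (s j) - avg (X j)))) := by
        apply avg_mono
        intro s
        split_ifs with h
        · rw [← Real.exp_add]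
          apply Real.one_le_exp
          nlinarith
        · positivity
    _ ≤ Real.exp (-(Q * δ ^ 2)) * Real.exp (Q * δ ^ 2 / 2) := by
        rw [avg_mul_left]
        exact mul_le_mul_of_nonneg_left h2 (Real.exp_pos _).le
    _ = _ := by rw [← Real.exp_add]; congr 1; ring

/-- both tails -/
theorem hoeffding' {α : Type*} [Fintype α] [DecidableEq α] [Nonempty α] {X : Fin Q → α → ℝ}
    (h0 : ∀ j a, 0 ≤ X j a) (h1 : ∀ j a, X j a ≤ 1) {δ : ℝ} (hδ : 0 ≤ δ) :
    avg (fun s : Fin Q → α => if Q * δ ≤ |∑ j, (X j (s j) - avg (X j))| then (1 : ℝ) else 0) ≤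
      2 * Real.exp (-(Q * δ ^ 2 / 2)) := by
  have t1 := tail' (Q := Q) h0 h1 hδ
  have t2 := tail' (Q := Q) (X := fun j a => 1 - X j a) (fun j a => by have := h1 j a; linarith)
    (fun j a => by have := h0 j a; linarith) hδ
  have e2 : ∀ s : Fin Q → α, ∑ j, ((1 - X j (s j)) - avg (fun a => 1 - X j a)) =
      -(∑ j, (X j (s j) - avg (X j))) := by
    intro s
    rw [← sum_neg_distrib]
    apply sum_congr rfl
    intro j _
    rw [avg_sub, avg_const]
    ring
  simp_rw [e2] at t2
  have key : ∀ s : Fin Q → α,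
      (if Q * δ ≤ |∑ j, (X j (s j) - avg (X j))| then (1 : ℝ) else 0) ≤
      (if Q * δ ≤ ∑ j, (X j (s j) - avg (X j)) then (1 : ℝ) else 0) +
      (if Q * δ ≤ -(∑ j, (X j (s j) - avg (X j))) then (1 : ℝ) else 0) := by
    intro s
    by_cases h : Q * δ ≤ |∑ j, (X j (s j) - avg (X j))|
    · rw [if_pos h]
      rcases le_abs.mp h with h2 | h2
      · rw [if_pos h2]; split_ifs <;> norm_num
      · rw [if_pos h2]; split_ifs <;> norm_num
    · rw [if_neg h]; split_ifs <;> norm_num
  refine (avg_mono key).trans ?_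
  rw [avg_add]
  linarith

/-- the inputs that are read: all but one in every block -/
def Kr (e : Cube n ≃ Fin m × Fin B) (r : Fin m → Fin B) : Finset (Cube n) :=
  univ.filter fun x => (e x).2 ≠ r (e x).1

theorem card_Kr (e : Cube n ≃ Fin m × Fin B) (r : Fin m → Fin B) :
    (Kr e r).card = 2 ^ n - m := by
  have h1 : (Kr e r).card + (univ.filter fun x => ¬ (e x).2 ≠ r (e x).1).card = 2 ^ n := by
    unfold Kr
    rw [card_filter_add_card_filter_not, card_univ]
    simp
  have h2 : (univ.filter fun x => ¬ (e x).2 ≠ r (e x).1).card = m := by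
    have : (univ.filter fun x => ¬ (e x).2 ≠ r (e x).1).card = (univ : Finset (Fin m)).card := by
      apply card_bij' (fun x _ => (e x).1) (fun i _ => e.symm (i, r i))
      · intro x _; simp
      · intro i _; simp
      · intro x hx
        simp only [mem_filter, mem_univ, true_and, not_not] at hx
        rw [← hx]
        simp
      · intro i _; simp
    rw [this, card_univ, Fintype.card_fin]
  omega

/-- the scaled distance to the juntas on the inputs that are read -/
noncomputable def estS (k : ℕ) (c : ℝ) (K : Finset (Cube n)) (v : Cube n → Bool) : ℝ :=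
  ⨅ G : {G : Cube n → Bool // IsJunta k G}, c * ((K.filter fun x => v x ≠ G.1 x).card : ℝ)

theorem estS_congr (c : ℝ) (K : Finset (Cube n)) {v v' : Cube n → Bool}
    (h : ∀ x ∈ K, v x = v' x) : estS k c K v = estS k c K v' := by
  unfold estS
  congr 1
  funext G
  have : (K.filter fun x => v x ≠ G.1 x) = (K.filter fun x => v' x ≠ G.1 x) := by
    apply filter_congr
    intro x hx
    rw [h x hx]
  rw [this]

theorem estS_close {f : Cube n → Bool} {c : ℝ} (hc : 0 ≤ c) {K : Finset (Cube n)} {δ : ℝ}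
    (h : ∀ G, IsJunta k G → |c * ((K.filter fun x => f x ≠ G x).card : ℝ) - dist f G| ≤ δ) :
    |estS k c K f - distK k f| ≤ δ := by
  have hb : BddBelow (Set.range fun G : {G : Cube n → Bool // IsJunta k G} =>
      c * ((K.filter fun x => f x ≠ G.1 x).card : ℝ)) := by
    refine ⟨0, ?_⟩
    rintro _ ⟨G, rfl⟩
    simp only
    positivity
  rw [abs_le]
  constructor
  · have : distK k f - δ ≤ estS k c K f := by
      apply le_ciInf
      rintro ⟨G, hG⟩
      have h1 := (abs_le.mp (h G hG)).1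
      have h2 := distK_le (f := f) hG
      simp only
      linarith
    linarith
  · obtain ⟨G, hG, hG'⟩ := exists_distK k f
    have h1 := (abs_le.mp (h G hG)).2
    have h2 : estS k c K f ≤ c * ((K.filter fun x => f x ≠ G x).card : ℝ) := ciInf_le hb ⟨G, hG⟩
    linarith

/-- the disagreements of `f` and `G`, block by block -/
noncomputable def XX (e : Cube n ≃ Fin m × Fin B) (f G : Cube n → Bool) (i : Fin m)
    (y : Fin B) : ℝ := if f (e.symm (i, y)) ≠ G (e.symm (i, y)) then 1 else 0

theorem est_identity (e : Cube n ≃ Fin m × Fin B) (hB : 2 ≤ B) (f G : Cube n → Bool)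
    (r : Fin m → Fin B) :
    ((B : ℝ) / (B - 1) / 2 ^ n) * (((Kr e r).filter fun x => f x ≠ G x).card : ℝ) - dist f G =
      -((B : ℝ) / (B - 1) / 2 ^ n * ∑ i, (XX e f G i (r i) - avg (XX e f G i))) := by
  have hB' : (2 : ℝ) ≤ B := by exact_mod_cast hB
  have hB0 : (B : ℝ) ≠ 0 := by linarith
  have hB1 : (B : ℝ) - 1 ≠ 0 := by linarith
  have hN : (2 : ℝ) ^ n ≠ 0 := by positivity
  have e0 : ∀ F : Cube n → ℝ, ∑ x, F x = ∑ i, ∑ y, F (e.symm (i, y)) := by
    intro F
    rw [← Fintype.sum_prod_type (fun p : Fin m × Fin B => F (e.symm p))]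
    exact (e.symm.sum_comp F).symm
  have eavg : ∀ i, ∑ y, XX e f G i y = B * avg (XX e f G i) := by
    intro i
    unfold avg
    rw [Fintype.card_fin]
    field_simp
  have e1 : dist f G * 2 ^ n = ∑ i, (B : ℝ) * avg (XX e f G i) := by
    unfold dist
    rw [div_mul_cancel₀ _ hN]
    have : ((univ.filter fun x => f x ≠ G x).card : ℝ) = ∑ x, if f x ≠ G x then (1 : ℝ) else 0 := by
      rw [← sum_filter, sum_const, nsmul_eq_mul, mul_one]
    rw [this, e0]
    apply sum_congr rfl
    intro i _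
    exact eavg i
  have e2 : (((Kr e r).filter fun x => f x ≠ G x).card : ℝ) =
      ∑ i, ((B : ℝ) * avg (XX e f G i) - XX e f G i (r i)) := by
    have : (((Kr e r).filter fun x => f x ≠ G x).card : ℝ) =
        ∑ x, (if f x ≠ G x then (1 : ℝ) else 0) * (if (e x).2 ≠ r (e x).1 then 1 else 0) := by
      unfold Kr
      rw [filter_filter]
      have h3 : ∀ x, (if f x ≠ G x then (1 : ℝ) else 0) *
          (if (e x).2 ≠ r (e x).1 then (1 : ℝ) else 0) =
          if ((e x).2 ≠ r (e x).1 ∧ f x ≠ G x) then (1 : ℝ) else 0 := by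
        intro x
        by_cases h4 : f x ≠ G x <;> by_cases h5 : (e x).2 ≠ r (e x).1 <;> simp [h4, h5]
      simp_rw [h3]
      rw [← sum_filter, sum_const, nsmul_eq_mul, mul_one]
    rw [this, e0]
    apply sum_congr rfl
    intro i _
    rw [← eavg]
    have h6 : ∀ y, (if f (e.symm (i, y)) ≠ G (e.symm (i, y)) then (1 : ℝ) else 0) *
        (if (e (e.symm (i, y))).2 ≠ r (e (e.symm (i, y))).1 then 1 else 0) =
        XX e f G i y - (if y = r i then XX e f G i y else 0) := by
      intro y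
      rw [Equiv.apply_symm_apply]
      unfold XX
      by_cases h7 : y = r i
      · simp [h7]
      · simp [h7]
    simp_rw [h6]
    rw [sum_sub_distrib, sum_ite_eq' univ (r i)]
    simp
  have e3 : dist f G = (∑ i, (B : ℝ) * avg (XX e f G i)) / 2 ^ n := by
    rw [← e1]; field_simp
  rw [e2, e3, sum_sub_distrib, sum_sub_distrib, ← mul_sum]
  field_simp
  ring

/-- leaving `m` inputs unread -/
theorem approximates_blocks (hn : 0 < n) (e : Cube n ≃ Fin m × Fin B) (hm : 0 < m) (hB : 2 ≤ B)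
    {ε : ℝ} (hε : 0 ≤ ε)
    (hX : 3 + k * Real.log n + 2 ^ k ≤ (ε * 2 ^ n) ^ 2 / (8 * m)) :
    ∃ A : PMF (Tree n), Approximates n k ε (2 ^ n - m) A := by
  classical
  have hB' : (2 : ℝ) ≤ B := by exact_mod_cast hB
  have hm' : (0 : ℝ) < m := by exact_mod_cast hm
  have : Nonempty (Fin B) := ⟨⟨0, by omega⟩⟩
  set c : ℝ := (B : ℝ) / (B - 1) / 2 ^ n with hc
  have hc1 : (B : ℝ) / (B - 1) ≤ 2 := by
    rw [div_le_iff₀ (by linarith)]; linarith
  have hc0' : 0 ≤ (B : ℝ) / (B - 1) := div_nonneg (by linarith) (by linarith)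
  have hc0 : 0 ≤ c := by positivity
  set T : (Fin m → Fin B) → Tree n := fun r => Tree.nonadaptive (Kr e r).toList (fun bs =>
    estS k c (Kr e r) (fun x => (((Kr e r).toList.zip bs).lookup x).getD false)) with hT
  have heval : ∀ f : Cube n → Bool, ∀ r, (T r).eval f = estS k c (Kr e r) f := by
    intro f r
    rw [hT, Tree.eval_nonadaptive]
    apply estS_congr
    intro x hx
    rw [lookup_zip_map _ (Finset.mem_toList.mpr hx)]
    rfl
  set δ : ℝ := ε * 2 ^ n / (2 * m) with hδ
  have hδ0 : 0 ≤ δ := by positivity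
  refine ⟨(PMF.uniformOfFintype (Fin m → Fin B)).map T, ?_, ?_⟩
  · intro T' hT'
    rw [PMF.support_map] at hT'
    obtain ⟨r, -, rfl⟩ := hT'
    rw [hT, Tree.depth_nonadaptive, Finset.length_toList, card_Kr]
  · intro f
    rw [PMF.toOuterMeasure_map_apply]
    apply uniform_ge
    set Gf : ((Fin k → Fin n) × ((Fin k → Bool) → Bool)) → Cube n → Bool :=
      fun p s => p.2 fun j => s (p.1 j) with hGf
    have key : ∀ r : Fin m → Fin B,
        (if r ∈ (T ⁻¹' {T | |T.eval f - distK k f| ≤ ε}) then (0 : ℝ) else 1) ≤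
        ∑ p : (Fin k → Fin n) × ((Fin k → Bool) → Bool),
          if m * δ ≤ |∑ i, (XX e f (Gf p) i (r i) - avg (XX e f (Gf p) i))|
            then (1 : ℝ) else 0 := by
      intro r
      have hnn : ∀ p ∈ (univ : Finset ((Fin k → Fin n) × ((Fin k → Bool) → Bool))), (0 : ℝ) ≤
          if m * δ ≤ |∑ i, (XX e f (Gf p) i (r i) - avg (XX e f (Gf p) i))|
            then (1 : ℝ) else 0 := by
        intro p _; split_ifs <;> norm_num
      by_cases h : r ∈ (T ⁻¹' {T | |T.eval f - distK k f| ≤ ε})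
      · rw [if_pos h]
        exact sum_nonneg hnn
      · rw [if_neg h]
        simp only [Set.mem_preimage, Set.mem_ofPred_eq, not_le, heval] at h
        have h1 : ∃ G, IsJunta k G ∧
            ε < |c * (((Kr e r).filter fun x => f x ≠ G x).card : ℝ) - dist f G| := by
          by_contra hcon
          push Not at hcon
          exact absurd (estS_close hc0 hcon) (not_le.mpr h)
        obtain ⟨G, hG, hG2⟩ := h1
        obtain ⟨φ, g, hg⟩ := exists_repr hn hG
        have h2 := single_le_sum hnn (mem_univ (φ, g))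
        refine le_trans ?_ h2
        have h3 : Gf (φ, g) = G := by funext s; exact (hg s).symm
        rw [h3, if_pos]
        rw [hc, est_identity e hB f G r, abs_neg, abs_mul, abs_of_nonneg hc0] at hG2
        have h4 : c * |∑ i, (XX e f G i (r i) - avg (XX e f G i))| ≤
            2 / 2 ^ n * |∑ i, (XX e f G i (r i) - avg (XX e f G i))| := by
          apply mul_le_mul_of_nonneg_right _ (abs_nonneg _)
          rw [hc]
          exact div_le_div_of_nonneg_right hc1 (by positivity)
        have h5 := hG2.trans_le h4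
        rw [div_mul_eq_mul_div, lt_div_iff₀ (by positivity)] at h5
        rw [hδ]
        have h6 : (m : ℝ) * (ε * 2 ^ n / (2 * m)) = ε * 2 ^ n / 2 := by field_simp
        rw [h6]
        linarith
    refine (avg_mono key).trans ?_
    rw [avg_sum]
    have hX2 : ∀ p : (Fin k → Fin n) × ((Fin k → Bool) → Bool), avg (fun r : Fin m → Fin B =>
        if m * δ ≤ |∑ i, (XX e f (Gf p) i (r i) - avg (XX e f (Gf p) i))|
          then (1 : ℝ) else 0) ≤ 2 * Real.exp (-(m * δ ^ 2 / 2)) := by
      intro p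
      exact hoeffding' (Q := m) (X := XX e f (Gf p))
        (fun j a => by unfold XX; split_ifs <;> norm_num)
        (fun j a => by unfold XX; split_ifs <;> norm_num) hδ0
    refine (sum_le_sum fun p _ => hX2 p).trans ?_
    rw [sum_const, card_univ, nsmul_eq_mul]
    have hcard : ((Fintype.card ((Fin k → Fin n) × ((Fin k → Bool) → Bool)) : ℕ) : ℝ) =
        (n : ℝ) ^ k * 2 ^ (2 ^ k) := by
      rw [Fintype.card_prod]
      simp only [Fintype.card_pi, prod_const, card_univ, Fintype.card_fin, Fintype.card_bool]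
      push_cast
      rfl
    rw [hcard]
    have h7 : (m : ℝ) * δ ^ 2 / 2 = (ε * 2 ^ n) ^ 2 / (8 * m) := by
      rw [hδ]; field_simp; ring
    rw [h7]
    refine (exp_numeric (k := k) hn hX).trans (by norm_num)

/-- powers of two between `t / 2` and `t` -/
theorem exists_pow_two {t : ℝ} (ht : 1 ≤ t) : ∃ j : ℕ, (2 : ℝ) ^ j ≤ t ∧ t < 2 ^ (j + 1) :=
  exists_nat_pow_near ht (by norm_num)

/-- The quadratic upper bound. -/
theorem upper_quadratic (hk : k < n) {ε : ℝ} (hε : 1 / 2 ^ (n + 1) ≤ ε)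
    (hx : ε * √(2 ^ n) ≤ 1) :
    (queryComplexity n k ε : ℝ) ≤
      2 ^ n * (1 - (ε * √(2 ^ n)) ^ 2 / (16 * (3 + k * Real.log n + 2 ^ k))) := by
  have hn : 0 < n := by omega
  have hε0 : 0 < ε := lt_of_lt_of_le (by positivity) hε
  set N : ℝ := 2 ^ n with hN
  have hN0 : 0 < N := by positivity
  have hss : √N * √N = N := Real.mul_self_sqrt hN0.le
  set a : ℝ := 3 + k * Real.log n + 2 ^ k with ha
  have hlog : 0 ≤ Real.log n := Real.log_natCast_nonneg n
  have h2k : (1 : ℝ) ≤ 2 ^ k := one_le_pow₀ (by norm_num)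
  have ha4 : 4 ≤ a := by
    rw [ha]
    have : 0 ≤ (k : ℝ) * Real.log n := by positivity
    linarith
  set D : ℝ := (ε * N) ^ 2 with hD
  have hDx : D = N * (ε * √N) ^ 2 := by
    rw [hD]
    calc (ε * N) ^ 2 = ε ^ 2 * N * N := by ring
      _ = ε ^ 2 * N * (√N * √N) := by rw [hss]
      _ = N * (ε * √N) ^ 2 := by ring
  have hD0 : 0 < D := by positivity
  have hDN : D ≤ N := by
    rw [hDx]
    have : (ε * √N) ^ 2 ≤ 1 := pow_le_one₀ (by positivity) hx
    nlinarith
  have hδ1 : 1 / 2 ≤ ε * N := by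
    rw [div_le_iff₀ (by positivity), pow_succ, ← hN] at hε
    linarith
  have hgoal : N * (1 - (ε * √N) ^ 2 / (16 * a)) = N - D / (16 * a) := by
    rw [hDx]; field_simp
  rw [hgoal]
  by_cases ht : 1 ≤ D / (8 * a)
  · obtain ⟨j, hj1, hj2⟩ := exists_pow_two ht
    have hjn : j < n := by
      by_contra hcon
      push Not at hcon
      have h1 : N ≤ 2 ^ j := by rw [hN]; exact pow_le_pow_right₀ (by norm_num) hcon
      have h2 : D / (8 * a) ≤ D / 32 := by
        apply div_le_div_of_nonneg_left hD0.le (by norm_num) (by linarith)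
      linarith
    have hcard : Fintype.card (Cube n) = Fintype.card (Fin (2 ^ j) × Fin (2 ^ (n - j))) := by
      rw [Fintype.card_prod, Fintype.card_fin, Fintype.card_fin, ← pow_add]
      simp
      omega
    have e : Cube n ≃ Fin (2 ^ j) × Fin (2 ^ (n - j)) := Fintype.equivOfCardEq hcard
    have hB : 2 ≤ 2 ^ (n - j) := by
      calc 2 = 2 ^ 1 := by norm_num
        _ ≤ 2 ^ (n - j) := Nat.pow_le_pow_right (by norm_num) (by omega)
    obtain ⟨A, hA⟩ := approximates_blocks (k := k) hn e (by positivity) hB hε0.le (by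
      rw [le_div_iff₀ (by positivity)]
      push_cast
      rw [le_div_iff₀ (by positivity)] at hj1
      rw [← hN, ← hD, ← ha]
      linarith)
    have h3 := queryComplexity_le hA
    have h4 : (queryComplexity n k ε : ℝ) ≤ ((2 ^ n - 2 ^ j : ℕ) : ℝ) := by exact_mod_cast h3
    rw [Nat.cast_sub (Nat.pow_le_pow_right (by norm_num) hjn.le)] at h4
    push_cast at h4
    rw [← hN] at h4
    have h5 : D / (16 * a) ≤ 2 ^ j := by
      have : D / (16 * a) = D / (8 * a) / 2 := by field_simp; ring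
      rw [this]
      rw [pow_succ] at hj2
      linarith
    linarith
  · push Not at ht
    have h1 := queryComplexity_skip n k hε0.le
    have h2 : 1 ≤ ⌊2 ^ (n + 1) * ε⌋₊ := by
      apply Nat.le_floor
      push_cast
      rw [pow_succ, ← hN]
      linarith
    have h3 : queryComplexity n k ε + 1 ≤ 2 ^ n := by
      have : 0 < 2 ^ n := by positivity
      omega
    have h4 : (queryComplexity n k ε : ℝ) + 1 ≤ N := by
      rw [hN]; exact_mod_cast h3
    have h5 : D / (16 * a) ≤ 1 := by
      have : D / (16 * a) = D / (8 * a) / 2 := by field_simp; ring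
      rw [this]; linarith
    linarith

theorem Approximates_mono {ε ε' : ℝ} {q : ℕ} {A : PMF (Tree n)} (h : Approximates n k ε q A)
    (hε : ε ≤ ε') : Approximates n k ε' q A := by
  refine ⟨h.1, fun f => (h.2 f).trans (A.toOuterMeasure.mono ?_)⟩
  intro T hT
  simp only [Set.mem_ofPred_eq] at hT ⊢
  exact hT.trans hε

/-- the upper bound for all `ε ≥ 2 ^ (-n-1)` -/
theorem upper_min (hk : k < n) {ε : ℝ} (hε : 1 / 2 ≤ ε * 2 ^ n) :
    (queryComplexity n k ε : ℝ) ≤
      2 ^ n - min ((ε * 2 ^ n) ^ 2) (2 ^ n) / (16 * (3 + k * Real.log n + 2 ^ k)) := by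
  have hN0 : (0 : ℝ) < 2 ^ n := by positivity
  have hs0 : 0 < √((2 : ℝ) ^ n) := Real.sqrt_pos.mpr hN0
  have hss : √((2 : ℝ) ^ n) * √(2 ^ n) = 2 ^ n := Real.mul_self_sqrt hN0.le
  have hlog : 0 ≤ Real.log n := Real.log_natCast_nonneg n
  have ha0 : (0 : ℝ) < 3 + k * Real.log n + 2 ^ k := by positivity
  have hε1 : 1 / 2 ^ (n + 1) ≤ ε := by
    rw [div_le_iff₀ (by positivity), pow_succ]
    linarith
  have conv : ∀ e : ℝ, 2 ^ n * (1 - (e * √(2 ^ n)) ^ 2 / (16 * (3 + k * Real.log n + 2 ^ k))) =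
      2 ^ n - (e * 2 ^ n) ^ 2 / (16 * (3 + k * Real.log n + 2 ^ k)) := by
    intro e
    have h1 : (e * 2 ^ n) ^ 2 = 2 ^ n * (e * √(2 ^ n)) ^ 2 := by
      calc (e * 2 ^ n) ^ 2 = e ^ 2 * 2 ^ n * 2 ^ n := by ring
        _ = e ^ 2 * 2 ^ n * (√(2 ^ n) * √(2 ^ n)) := by rw [hss]
        _ = 2 ^ n * (e * √(2 ^ n)) ^ 2 := by ring
    rw [h1]
    field_simp
  by_cases hx : ε * √(2 ^ n) ≤ 1
  · have h1 := upper_quadratic hk hε1 hx
    rw [conv] at h1
    refine h1.trans ?_
    have h2 : min ((ε * 2 ^ n) ^ 2) (2 ^ n) / (16 * (3 + k * Real.log n + 2 ^ k)) ≤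
        (ε * 2 ^ n) ^ 2 / (16 * (3 + k * Real.log n + 2 ^ k)) :=
      div_le_div_of_nonneg_right (min_le_left _ _) (by positivity)
    linarith
  · push Not at hx
    set e : ℝ := 1 / √(2 ^ n) with he
    have he1 : e * √(2 ^ n) = 1 := by rw [he]; field_simp
    have he2 : e ≤ ε := by
      rw [he, div_le_iff₀ hs0]; exact hx.le
    have hs1 : 1 ≤ √((2 : ℝ) ^ n) := by
      rw [Real.one_le_sqrt]; exact one_le_pow₀ (by norm_num)
    have he3 : e * 2 ^ n = √(2 ^ n) := by
      calc e * 2 ^ n = e * (√(2 ^ n) * √(2 ^ n)) := by rw [hss]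
        _ = (e * √(2 ^ n)) * √(2 ^ n) := by ring
        _ = _ := by rw [he1, one_mul]
    have he4 : 1 / 2 ^ (n + 1) ≤ e := by
      rw [div_le_iff₀ (by positivity), pow_succ, ← mul_assoc, he3]
      linarith
    have h1 := upper_quadratic hk he4 he1.le
    rw [conv, he3, Real.sq_sqrt hN0.le] at h1
    have he0 : 0 ≤ e := by rw [he]; positivity
    obtain ⟨A, hA⟩ := exists_approximates n k he0
    have h2 := queryComplexity_le (Approximates_mono hA he2)
    have h3 : (queryComplexity n k ε : ℝ) ≤ queryComplexity n k e := by exact_mod_cast h2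
    refine (h3.trans h1).trans ?_
    have h4 : min ((ε * 2 ^ n) ^ 2) (2 ^ n) / (16 * (3 + k * Real.log n + 2 ^ k)) ≤
        2 ^ n / (16 * (3 + k * Real.log n + 2 ^ k)) :=
      div_le_div_of_nonneg_right (min_le_right _ _) (by positivity)
    linarith

end Pool.Agent.Work.MP_8f25a0_lc.Full
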