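import Pool.Agent.Work.MP_8f25a0_lc.Full.Prob
import Pool.Agent.Work.MP_8f25a0_lc.Full.UpperS

/-!
# Full reading: the distance as a minimum over the sets of `k` coordinates
-/

namespace Pool.Agent.Work.MP_8f25a0_lc.Full

open Finset

variable {n k l : ℕ} {J : Finset (Fin n)}

/-- the inputs that agree with `x` on `J` -/
def cellJ (J : Finset (Fin n)) (x : Cube n) : Finset (Cube n) :=
  univ.filter fun y => ∀ i ∈ J, y i = x i

theorem mem_cellJ {x y : Cube n} : y ∈ cellJ J x ↔ ∀ i ∈ J, y i = x i := by
  simp [cellJ]

theorem self_mem_cellJ (x : Cube n) : x ∈ cellJ J x := by simp [cellJ]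

theorem cellJ_eq {x y : Cube n} (h : y ∈ cellJ J x) : cellJ J y = cellJ J x := by
  rw [mem_cellJ] at h
  ext z
  simp only [mem_cellJ]
  constructor
  · intro h1 i hi; rw [h1 i hi, h i hi]
  · intro h1 i hi; rw [h1 i hi, h i hi]

theorem mem_cellJ_comm {x y : Cube n} : y ∈ cellJ J x ↔ x ∈ cellJ J y := by
  simp only [mem_cellJ]
  constructor
  · intro h i hi; exact (h i hi).symm
  · intro h i hi; exact (h i hi).symm

theorem cellJ_pos (x : Cube n) : 0 < (cellJ J x).card := card_pos.mpr ⟨x, self_mem_cellJ x⟩

/-- averaging over the cells -/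
theorem sum_cellJ (φ : Cube n → ℝ) :
    ∑ x, (∑ y ∈ cellJ J x, φ y) / (cellJ J x).card = ∑ y, φ y := by
  calc ∑ x, (∑ y ∈ cellJ J x, φ y) / (cellJ J x).card
      = ∑ x, ∑ y, if y ∈ cellJ J x then φ y / (cellJ J x).card else 0 := by
        apply sum_congr rfl
        intro x _
        rw [sum_div, ← sum_filter]
        apply sum_congr _ (fun _ _ => rfl)
        ext y; simp
    _ = ∑ y, ∑ x, if y ∈ cellJ J x then φ y / (cellJ J x).card else 0 := sum_comm
    _ = ∑ y, φ y := by
        apply sum_congr rfl
        intro y _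
        rw [← sum_filter]
        have h1 : (univ.filter fun x => y ∈ cellJ J x) = cellJ J y := by
          ext x; simp [mem_cellJ_comm (x := x) (y := y)]
        rw [h1]
        have h2 : ∀ x ∈ cellJ J y, φ y / ((cellJ J x).card : ℝ) = φ y / (cellJ J y).card := by
          intro x hx; rw [cellJ_eq hx]
        rw [sum_congr rfl h2, sum_const, nsmul_eq_mul]
        have : (0 : ℝ) < (cellJ J y).card := by exact_mod_cast cellJ_pos y
        field_simp

theorem card_cellJ (x : Cube n) : (cellJ J x).card = 2 ^ (n - J.card) := by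
  classical
  have h : (cellJ J x).card = (univ : Finset ({i : Fin n // i ∉ J} → Bool)).card := by
    apply card_bij (fun y _ => fun i : {i : Fin n // i ∉ J} => y i)
    · intro y _; simp
    · intro y hy z hz h
      rw [mem_cellJ] at hy hz
      funext i
      by_cases hi : i ∈ J
      · rw [hy i hi, hz i hi]
      · exact congrFun h ⟨i, hi⟩
    · intro v _
      refine ⟨fun i => if h : i ∈ J then x i else v ⟨i, h⟩, ?_, ?_⟩
      · rw [mem_cellJ]
        intro i hi
        simp [hi]
      · funext i
        have := i.2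
        simp [this]
  rw [h, card_univ, Fintype.card_fun, Fintype.card_bool]
  congr 1
  rw [Fintype.card_subtype_compl, Fintype.card_fin, Fintype.card_coe]

/-- the number of minority values in the cell of `x` -/
noncomputable def mn (J : Finset (Fin n)) (f : Cube n → Bool) (x : Cube n) : ℝ :=
  min (((cellJ J x).filter fun y => f y = true).card : ℝ)
    (((cellJ J x).filter fun y => f y = false).card : ℝ)

theorem mn_nonneg (f : Cube n → Bool) (x : Cube n) : 0 ≤ mn J f x := by
  unfold mn; positivity

theorem card_tf (f : Cube n → Bool) (x : Cube n) :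
    (((cellJ J x).filter fun y => f y = true).card : ℝ) +
    (((cellJ J x).filter fun y => f y = false).card : ℝ) = (cellJ J x).card := by
  have h := card_filter_add_card_filter_not (s := cellJ J x) (fun y => f y = true)
  have h2 : ((cellJ J x).filter fun y => ¬ f y = true) =
      ((cellJ J x).filter fun y => f y = false) := by
    apply filter_congr
    intro y _
    cases f y <;> simp
  rw [h2] at h
  exact_mod_cast h

theorem mn_le (f : Cube n → Bool) (x : Cube n) : mn J f x ≤ (cellJ J x).card / 2 := by
  have h := card_tf (J := J) f x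
  unfold mn
  rcases min_choice (((cellJ J x).filter fun y => f y = true).card : ℝ)
    (((cellJ J x).filter fun y => f y = false).card : ℝ) with h1 | h1
  · have := min_le_right (((cellJ J x).filter fun y => f y = true).card : ℝ)
      (((cellJ J x).filter fun y => f y = false).card : ℝ)
    linarith
  · have := min_le_left (((cellJ J x).filter fun y => f y = true).card : ℝ)
      (((cellJ J x).filter fun y => f y = false).card : ℝ)
    linarith

theorem mn_congr (f : Cube n → Bool) {x y : Cube n} (h : y ∈ cellJ J x) : mn J f y = mn J f x := by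
  unfold mn; rw [cellJ_eq h]

/-- the distance to the functions of the coordinates in `J`, times `2 ^ n` -/
noncomputable def DJ (J : Finset (Fin n)) (f : Cube n → Bool) : ℝ :=
  ∑ x, mn J f x / (cellJ J x).card

theorem DJ_le_dd {f g : Cube n → Bool} (hg : ∀ x y, (∀ i ∈ J, x i = y i) → g x = g y) :
    DJ J f ≤ dd f g := by
  rw [dd_eq_sum, ← sum_cellJ (J := J) (fun y => if f y ≠ g y then (1 : ℝ) else 0)]
  unfold DJ
  apply sum_le_sum
  intro x _
  apply div_le_div_of_nonneg_right _ (by positivity)
  have h1 : ∑ y ∈ cellJ J x, (if f y ≠ g y then (1 : ℝ) else 0) =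
      (((cellJ J x).filter fun y => f y ≠ g x).card : ℝ) := by
    rw [← sum_filter, sum_const, nsmul_eq_mul, mul_one]
    congr 2
    apply filter_congr
    intro y hy
    rw [hg y x (mem_cellJ.mp hy)]
  rw [h1]
  unfold mn
  rcases Bool.eq_false_or_eq_true (g x) with h2 | h2
  · refine (min_le_right _ _).trans (le_of_eq ?_)
    congr 2
    apply filter_congr
    intro y _
    rw [h2]
    cases f y <;> simp
  · refine (min_le_left _ _).trans (le_of_eq ?_)
    congr 2
    apply filter_congr
    intro y _
    rw [h2]
    cases f y <;> simp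

theorem exists_DJ (J : Finset (Fin n)) (f : Cube n → Bool) : ∃ g : Cube n → Bool,
    (∀ x y, (∀ i ∈ J, x i = y i) → g x = g y) ∧ (dd f g : ℝ) = DJ J f := by
  classical
  set g : Cube n → Bool := fun x => decide (((cellJ J x).filter fun y => f y = false).card ≤
    ((cellJ J x).filter fun y => f y = true).card) with hg
  have hgJ : ∀ x y, (∀ i ∈ J, x i = y i) → g x = g y := by
    intro x y h
    have hy : x ∈ cellJ J y := mem_cellJ.mpr h
    simp only [hg]
    rw [cellJ_eq hy]
  refine ⟨g, hgJ, ?_⟩
  rw [dd_eq_sum, ← sum_cellJ (J := J) (fun y => if f y ≠ g y then (1 : ℝ) else 0)]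
  unfold DJ
  apply sum_congr rfl
  intro x _
  congr 1
  have h1 : ∑ y ∈ cellJ J x, (if f y ≠ g y then (1 : ℝ) else 0) =
      (((cellJ J x).filter fun y => f y ≠ g x).card : ℝ) := by
    rw [← sum_filter, sum_const, nsmul_eq_mul, mul_one]
    congr 2
    apply filter_congr
    intro y hy
    rw [hgJ y x (mem_cellJ.mp hy)]
  rw [h1]
  unfold mn
  by_cases h3 : ((cellJ J x).filter fun y => f y = false).card ≤
    ((cellJ J x).filter fun y => f y = true).card
  · have h2 : g x = true := by simp only [hg]; exact decide_eq_true h3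
    rw [min_eq_right (by exact_mod_cast h3)]
    congr 2
    apply filter_congr
    intro y _
    rw [h2]
    cases f y <;> simp
  · have h2 : g x = false := by simp only [hg]; exact decide_eq_false h3
    rw [min_eq_left (by exact_mod_cast (not_le.mp h3).le)]
    congr 2
    apply filter_congr
    intro y _
    rw [h2]
    cases f y <;> simp

theorem distK_le_DJ {J : Finset (Fin n)} (hJ : J.card ≤ k) (f : Cube n → Bool) :
    distK k f * 2 ^ n ≤ DJ J f := by
  obtain ⟨g, hg, h⟩ := exists_DJ J f
  have h4 := distK_le (k := k) (f := f) (g := g) ⟨J, hJ, hg⟩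
  unfold dist at h4
  rw [le_div_iff₀ (by positivity)] at h4
  unfold dd at h
  rw [← h]; exact h4

theorem exists_DJ_eq (hk : k ≤ n) (f : Cube n → Bool) : ∃ J ∈ powersetCard k (univ : Finset (Fin n)),
    DJ J f = distK k f * 2 ^ n := by
  obtain ⟨g, ⟨J0, hJ0, hg⟩, h⟩ := exists_nat_distK k f
  obtain ⟨J, hJ1, -, hJ2⟩ := exists_subsuperset_card_eq (subset_univ J0) hJ0
    (by rw [card_univ, Fintype.card_fin]; exact hk)
  refine ⟨J, mem_powersetCard.mpr ⟨subset_univ _, hJ2⟩, ?_⟩
  apply le_antisymm
  · rw [h]
    exact DJ_le_dd fun x y h1 => hg x y fun i hi => h1 i (hJ1 hi)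
  · exact distK_le_DJ hJ2.le f

end Pool.Agent.Work.MP_8f25a0_lc.Full
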