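import Pool.Agent.Work.MP_8f25a0_lc.Full.Swap

/-!
# Full reading: one free input for every cell
-/

namespace Pool.Agent.Work.MP_8f25a0_lc.Full

open Finset

variable {n k l : ℕ}

theorem even_cell (hk : k < n) (x : Cube n) : Even (cell k x).card := by
  have hJ : JJ k (fun y => decide (y ∈ cell k x)) := by
    intro y z h
    have : y ∈ cell k x ↔ z ∈ cell k x := by
      rw [mem_cell, mem_cell]
      constructor
      · intro h1 i hi; rw [← h i hi]; exact h1 i hi
      · intro h1 i hi; rw [h i hi]; exact h1 i hi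
    simp only [this]
  have h1 := even_card_junta hk (hJ.isJunta hk.le)
  have h2 : (univ.filter fun y => decide (y ∈ cell k x) = true) = cell k x := by
    ext y; simp
  rwa [h2] at h1

theorem card_cell (hk : k ≤ n) (x : Cube n) : (cell k x).card = 2 ^ (n - k) := by
  have h : (cell k x).card = (univ : Finset (Fin (n - k) → Bool)).card := by
    apply card_bij (fun y _ => fun i : Fin (n - k) => y ⟨k + i, by omega⟩)
    · intro y _; simp
    · intro y hy z hz h
      rw [mem_cell] at hy hz
      funext i
      by_cases hi : (i : ℕ) < k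
      · rw [hy i hi, hz i hi]
      · have h1 := congrFun h ⟨(i : ℕ) - k, by omega⟩
        simp only at h1
        have h2 : (⟨k + ((i : ℕ) - k), by omega⟩ : Fin n) = i := by
          ext; simp; omega
        rwa [h2] at h1
    · intro v _
      refine ⟨fun i => if h : (i : ℕ) < k then x i else v ⟨(i : ℕ) - k, by omega⟩, ?_, ?_⟩
      · rw [mem_cell]
        intro i hi
        simp [hi]
      · funext i
        have h1 : (⟨k + (i : ℕ) - k, by omega⟩ : Fin (n - k)) = i := by
          ext; simp
        simp
        exact congrArg v h1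
  rw [h, card_univ]
  simp

/-- the contribution of a cell of size `M` with `s` noise points -/
noncomputable def phi (M s : ℕ) : ℝ := min (s : ℝ) ((M : ℝ) - s)

theorem sum_cell_ne (O : Finset (Cube n)) {g : Cube n → Bool} (hg : JJ k g) (x : Cube n) :
    ∑ y ∈ cell k x, (if ff k O y ≠ g y then (1 : ℝ) else 0) =
      if g x = g0 k x then ((O ∩ cell k x).card : ℝ) else (cell k x).card - (O ∩ cell k x).card := by
  by_cases hgx : g x = g0 k x
  · rw [if_pos hgx, ← sum_filter, sum_const, nsmul_eq_mul, mul_one]
    congr 2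
    ext y
    simp only [mem_filter, mem_inter]
    constructor
    · rintro ⟨h1, h2⟩
      rw [hg y x (mem_cell.mp h1), hgx, ← g0_JJ y x (mem_cell.mp h1)] at h2
      exact ⟨ff_ne_g0.mp h2, h1⟩
    · rintro ⟨h1, h2⟩
      refine ⟨h2, ?_⟩
      rw [hg y x (mem_cell.mp h2), hgx, ← g0_JJ y x (mem_cell.mp h2)]
      exact ff_ne_g0.mpr h1
  · have hgx' : g x = !(g0 k x) := by
      revert hgx
      cases g x <;> cases g0 k x <;> simp
    rw [if_neg hgx, ← sum_filter, sum_const, nsmul_eq_mul, mul_one]
    have e2 : (cell k x).filter (fun y => ff k O y ≠ g y) = cell k x \ O := by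
      ext y
      simp only [mem_filter, mem_sdiff]
      constructor
      · rintro ⟨h1, h2⟩
        rw [hg y x (mem_cell.mp h1), hgx', ← g0_JJ y x (mem_cell.mp h1)] at h2
        exact ⟨h1, ff_ne_not.mp h2⟩
      · rintro ⟨h1, h2⟩
        refine ⟨h1, ?_⟩
        rw [hg y x (mem_cell.mp h1), hgx', ← g0_JJ y x (mem_cell.mp h1)]
        exact ff_ne_not.mpr h2
    rw [e2]
    have h4 : (cell k x \ O).card + (O ∩ cell k x).card = (cell k x).card := by
      rw [inter_comm O]
      exact card_sdiff_add_card_inter _ _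
    have h5 : ((cell k x \ O).card : ℝ) + (O ∩ cell k x).card = (cell k x).card := by
      exact_mod_cast h4
    linarith

/-- the distance as a sum over the cells -/
theorem distK_formula (hk : k ≤ n) {O : Finset (Cube n)} (hO : 4 * O.card ≤ 2 ^ n) :
    distK k (ff k O) * 2 ^ n =
      ∑ x, phi (cell k x).card (O ∩ cell k x).card / (cell k x).card := by
  classical
  apply le_antisymm
  · set g : Cube n → Bool := fun x =>
      if 2 * (O ∩ cell k x).card ≤ (cell k x).card then g0 k x else !(g0 k x) with hg
    have hJ : JJ k g := by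
      intro x y h
      have hy : y ∈ cell k x := mem_cell.mpr fun i hi => (h i hi).symm
      simp only [hg]
      rw [cell_eq hy, g0_JJ x y h]
    have h4 := distK_le (f := ff k O) (hJ.isJunta hk)
    unfold dist at h4
    rw [le_div_iff₀ (by positivity)] at h4
    refine h4.trans (le_of_eq ?_)
    have h5 := dd_eq_sum (ff k O) g
    unfold dd at h5
    rw [h5, ← sum_cell (k := k)]
    apply sum_congr rfl
    intro x _
    congr 1
    rw [sum_cell_ne O hJ]
    unfold phi
    by_cases h : 2 * (O ∩ cell k x).card ≤ (cell k x).card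
    · have h6 : g x = g0 k x := by simp only [hg]; rw [if_pos h]
      rw [if_pos h6]
      have h7 : (2 : ℝ) * (O ∩ cell k x).card ≤ (cell k x).card := by exact_mod_cast h
      rw [min_eq_left (by linarith)]
    · have h6 : ¬ g x = g0 k x := by
        simp only [hg]; rw [if_neg h]
        cases g0 k x <;> simp
      rw [if_neg h6]
      have h7 : ((cell k x).card : ℝ) < 2 * (O ∩ cell k x).card := by
        exact_mod_cast not_le.mp h
      rw [min_eq_right (by linarith)]
  · obtain ⟨g, hg, h⟩ := exists_nat_distK k (ff k O)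
    obtain ⟨g1, hg1, h1⟩ := replace_JJ hk hO hg
    rw [h]
    have h2 : (dd (ff k O) g1 : ℝ) ≤ dd (ff k O) g := by exact_mod_cast h1
    refine le_trans ?_ h2
    rw [dd_eq_sum, ← sum_cell (k := k) (fun y => if ff k O y ≠ g1 y then (1 : ℝ) else 0)]
    apply sum_le_sum
    intro x _
    apply div_le_div_of_nonneg_right _ (by positivity)
    rw [sum_cell_ne O hg1]
    unfold phi
    split_ifs
    · exact min_le_left _ _
    · exact min_le_right _ _

/-- the change of the distance when the membership of `y` is changed -/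
noncomputable def kap (k : ℕ) (O : Finset (Cube n)) (y : Cube n) : ℝ :=
  phi (cell k y).card ((symmDiff O {y}) ∩ cell k y).card -
    phi (cell k y).card (O ∩ cell k y).card

theorem phi_step {M s s' : ℕ} (hM : Even M) (hs : s ≤ M) (hs' : s' ≤ M)
    (h : s' = s + 1 ∨ s = s' + 1) : phi M s' - phi M s = 1 ∨ phi M s' - phi M s = -1 := by
  obtain ⟨r, rfl⟩ := hM
  unfold phi
  rcases h with h | h
  · subst h
    by_cases h1 : s + 1 ≤ r
    · left
      have h2 : (s : ℝ) + 1 ≤ r := by exact_mod_cast h1
      push_cast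
      rw [min_eq_left (by linarith), min_eq_left (by linarith)]
      ring
    · right
      have h2 : (r : ℝ) ≤ s := by exact_mod_cast (by omega : r ≤ s)
      push_cast
      rw [min_eq_right (by linarith), min_eq_right (by linarith)]
      ring
  · subst h
    by_cases h1 : s' + 1 ≤ r
    · right
      have h2 : (s' : ℝ) + 1 ≤ r := by exact_mod_cast h1
      push_cast
      rw [min_eq_left (by linarith), min_eq_left (by linarith)]
      ring
    · left
      have h2 : (r : ℝ) ≤ s' := by exact_mod_cast (by omega : r ≤ s')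
      push_cast
      rw [min_eq_right (by linarith), min_eq_right (by linarith)]
      ring

theorem kap_eq (hk : k < n) (O : Finset (Cube n)) (y : Cube n) :
    kap k O y = 1 ∨ kap k O y = -1 := by
  unfold kap
  apply phi_step (even_cell hk y) (card_le_card inter_subset_right)
    (card_le_card inter_subset_right)
  by_cases h : y ∈ O
  · right
    have h1 : (symmDiff O {y}) ∩ cell k y = (O ∩ cell k y).erase y := by
      ext z
      simp only [mem_inter, mem_symmDiff, mem_singleton, mem_erase]
      constructor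
      · rintro ⟨h2 | h2, h3⟩
        · exact ⟨h2.2, h2.1, h3⟩
        · exfalso; rw [h2.1] at h2; exact h2.2 h
      · rintro ⟨h2, h3, h4⟩
        exact ⟨Or.inl ⟨h3, h2⟩, h4⟩
    rw [h1, card_erase_add_one]
    exact mem_inter.mpr ⟨h, self_mem_cell y⟩
  · left
    have h1 : (symmDiff O {y}) ∩ cell k y = insert y (O ∩ cell k y) := by
      ext z
      simp only [mem_inter, mem_symmDiff, mem_singleton, mem_insert]
      constructor
      · rintro ⟨h2 | h2, h3⟩
        · exact Or.inr ⟨h2.1, h3⟩
        · exact Or.inl h2.1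
      · rintro (h2 | h2)
        · subst h2; exact ⟨Or.inr ⟨rfl, h⟩, self_mem_cell _⟩
        · refine ⟨Or.inl ⟨h2.1, ?_⟩, h2.2⟩
          rintro rfl; exact h h2.1
    rw [h1, card_insert_of_notMem]
    intro h2
    exact h (mem_inter.mp h2).1

/-- additivity over different cells -/
theorem distK_symmDiff (hk : k ≤ n) {T O e : Finset (Cube n)} (hO : O ⊆ T)
    (hT : 4 * T.card ≤ 2 ^ n) (heT : e ⊆ T)
    (he : ∀ y ∈ e, ∀ z ∈ e, z ∈ cell k y → z = y) :
    distK k (ff k (symmDiff O e)) * 2 ^ n = distK k (ff k O) * 2 ^ n + ∑ y ∈ e, kap k O y := by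
  classical
  have hO' : symmDiff O e ⊆ T := by
    intro x hx
    rw [mem_symmDiff] at hx
    rcases hx with hx | hx
    · exact hO hx.1
    · exact heT hx.1
  have h1 := distK_formula hk (O := O) (by have := card_le_card hO; omega)
  have h2 := distK_formula hk (O := symmDiff O e) (by have := card_le_card hO'; omega)
  have h3 : ∑ y ∈ e, kap k O y = ∑ x, (∑ y ∈ cell k x, if y ∈ e then kap k O y else 0) /
      (cell k x).card := by
    rw [sum_cell (k := k) (fun y => if y ∈ e then kap k O y else 0), ← sum_filter]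
    apply sum_congr _ (fun _ _ => rfl)
    ext y; simp
  rw [h1, h2, h3, ← sum_add_distrib]
  apply sum_congr rfl
  intro x _
  rw [← add_div]
  congr 1
  by_cases hex : ∃ y ∈ e, y ∈ cell k x
  · obtain ⟨y, hy, hyx⟩ := hex
    have huniq : ∀ z ∈ cell k x, z ∈ e → z = y := by
      intro z hz hze
      apply he y hy z hze
      rw [cell_eq hyx]; exact hz
    have e1 : ∑ z ∈ cell k x, (if z ∈ e then kap k O z else 0) = kap k O y := by
      rw [sum_eq_single y]
      · rw [if_pos hy]
      · intro z hz hzy
        rw [if_neg (fun hze => hzy (huniq z hz hze))]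
      · intro h; exact absurd hyx h
    rw [e1]
    unfold kap
    rw [cell_eq hyx]
    have e2 : symmDiff O e ∩ cell k x = symmDiff O {y} ∩ cell k x := by
      ext z
      simp only [mem_inter, mem_symmDiff, mem_singleton]
      constructor
      · rintro ⟨h4 | h4, h5⟩
        · exact ⟨Or.inl ⟨h4.1, fun h6 => h4.2 (h6 ▸ hy)⟩, h5⟩
        · exact ⟨Or.inr ⟨huniq z h5 h4.1, h4.2⟩, h5⟩
      · rintro ⟨h4 | h4, h5⟩
        · exact ⟨Or.inl ⟨h4.1, fun h6 => h4.2 (huniq z h5 h6)⟩, h5⟩
        · exact ⟨Or.inr ⟨h4.1 ▸ hy, h4.2⟩, h5⟩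
    rw [e2]
    ring
  · push Not at hex
    have e1 : ∑ z ∈ cell k x, (if z ∈ e then kap k O z else 0) = 0 := by
      apply sum_eq_zero
      intro z hz
      rw [if_neg (fun hze => hex z hze hz)]
    have e2 : symmDiff O e ∩ cell k x = O ∩ cell k x := by
      ext z
      simp only [mem_inter, mem_symmDiff]
      constructor
      · rintro ⟨h4 | h4, h5⟩
        · exact ⟨h4.1, h5⟩
        · exact absurd h5 (hex z h4.1)
      · rintro ⟨h4, h5⟩
        exact ⟨Or.inl ⟨h4, fun h6 => hex z h6 h5⟩, h5⟩
    rw [e1, e2, add_zero]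

/-- sums of signs over subsets in a window -/
theorem sum_signs {α : Type*} [DecidableEq α] (S : Finset α) (κ : α → ℝ)
    (hκ : ∀ y, κ y = 1 ∨ κ y = -1) (c : ℝ) {δ : ℝ} (hδ : 0 ≤ δ) :
    ∑ e ∈ S.powerset, (if |c - ∑ y ∈ e, κ y| ≤ δ then (1 : ℝ) else 0) ≤
      (2 * δ + 1) * (2 ^ S.card / √((S.card : ℝ) + 1)) := by
  classical
  set a := S.filter fun y => κ y = -1 with ha
  refine le_trans (le_of_eq ?_) (sum_subsets S a (filter_subset _ _) (c + a.card) hδ)
  apply sum_congr rfl
  intro e he
  rw [mem_powerset] at he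
  have key : ((symmDiff a e).card : ℝ) = a.card + ∑ y ∈ e, κ y := by
    have e1 : ((symmDiff a e).card : ℝ) = ∑ y ∈ S, if y ∈ symmDiff a e then (1 : ℝ) else 0 := by
      rw [← sum_filter, sum_const, nsmul_eq_mul, mul_one]
      congr 2
      ext y
      simp only [mem_filter, mem_symmDiff]
      constructor
      · rintro (h | h)
        · exact ⟨(mem_filter.mp h.1).1, Or.inl h⟩
        · exact ⟨he h.1, Or.inr h⟩
      · exact fun h => h.2
    have e2 : (a.card : ℝ) = ∑ y ∈ S, if κ y = -1 then (1 : ℝ) else 0 := by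
      rw [← sum_filter, sum_const, nsmul_eq_mul, mul_one]
    have e3 : ∑ y ∈ e, κ y = ∑ y ∈ S, if y ∈ e then κ y else 0 := by
      rw [← sum_filter]
      apply sum_congr _ (fun _ _ => rfl)
      ext y
      simp only [mem_filter]
      exact ⟨fun h => ⟨he h, h⟩, fun h => h.2⟩
    rw [e1, e2, e3, ← sum_add_distrib]
    apply sum_congr rfl
    intro y hy
    simp only [mem_symmDiff, ha, mem_filter]
    rcases hκ y with h | h
    · by_cases hye : y ∈ e
      · simp [h, hye, hy]; norm_num
      · simp [h, hye, hy]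
    · by_cases hye : y ∈ e
      · simp [h, hye, hy]
      · simp [h, hye, hy]
  rw [key]
  congr 2
  ring_nf

end Pool.Agent.Work.MP_8f25a0_lc.Full
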