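import Pool.Agent.Work.MP_8f25a0_lc.Full.Cells

/-!
# Full reading: a quadratic bound for the number of inputs that may be left unread
-/

namespace Pool.Agent.Work.MP_8f25a0_lc.Full

open Finset

variable {n k l : ℕ}

theorem eval_sw' (R : Tree n) (w : Om n l) {e : Finset (Cube n)} (he : e ⊆ TT w ∩ UU k R w) :
    queried (ff k (OO (sw e w))) R = queried (ff k (OO w)) R ∧
      R.eval (ff k (OO (sw e w))) = R.eval (ff k (OO w)) := by
  apply queried_congr
  intro y hy
  apply ff_congr
  rw [OO_sw (he.trans inter_subset_left), mem_symmDiff]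
  have hye : y ∉ e := by
    intro h
    have h1 := (mem_inter.mp (he h)).2
    unfold UU at h1
    rw [mem_compl] at h1
    exact h1 hy
  simp [hye]

/-- the general averaging argument -/
theorem sum_suc_gen {ε : ℝ} (hε : 0 ≤ ε) (R : Tree n) (S : Om n l → Finset (Cube n))
    (hS : ∀ w, ∀ e ⊆ S w, S (sw e w) = S w)
    (hfib : ∀ w : Om n l, 4 * (TT w).card ≤ 2 ^ n →
      ∑ e ∈ (S w).powerset, suc k ε R (sw e w) ≤
      (2 * (ε * 2 ^ n) + 1) * (2 ^ (S w).card / √(((S w).card : ℝ) + 1)))
    {s0 : ℝ} (hs0p : 0 < s0) :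
    ∑ w : Om n l, suc k ε R w ≤ 4 * pp l * Fintype.card (Om n l) +
      ((univ.filter fun w : Om n l => ((S w).card : ℝ) < s0).card : ℝ) +
      (2 * (ε * 2 ^ n) + 1) / √s0 * Fintype.card (Om n l) := by
  classical
  set F : Om n l → ℝ := fun w =>
    if 4 * (TT w).card ≤ 2 ^ n ∧ s0 ≤ (S w).card then suc k ε R w else 0 with hF
  have h1 : ∀ w : Om n l, suc k ε R w ≤ F w +
      ((if ¬ 4 * (TT w).card ≤ 2 ^ n then (1 : ℝ) else 0) +
      (if ((S w).card : ℝ) < s0 then (1 : ℝ) else 0)) := by
    intro w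
    have hle := suc_le_one (k := k) ε R w
    have e3 : (0 : ℝ) ≤ (if ¬ 4 * (TT w).card ≤ 2 ^ n then (1 : ℝ) else 0) := by
      split_ifs <;> norm_num
    have e4 : (0 : ℝ) ≤ (if ((S w).card : ℝ) < s0 then (1 : ℝ) else 0) := by
      split_ifs <;> norm_num
    by_cases hg : 4 * (TT w).card ≤ 2 ^ n ∧ s0 ≤ (S w).card
    · have : F w = suc k ε R w := by simp only [hF]; rw [if_pos hg]
      rw [this]
      linarith
    · have : F w = 0 := by simp only [hF]; rw [if_neg hg]
      rw [this]
      by_cases ha : 4 * (TT w).card ≤ 2 ^ n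
      · have hb : ((S w).card : ℝ) < s0 := by
          by_contra hcon
          exact hg ⟨ha, not_lt.mp hcon⟩
        rw [if_pos hb]
        linarith
      · rw [if_pos ha]
        linarith
  have h2 : ∑ w : Om n l, F w ≤ (2 * (ε * 2 ^ n) + 1) / √s0 * Fintype.card (Om n l) := by
    rw [← fiber_avg S hS F]
    calc ∑ w, (∑ e ∈ (S w).powerset, F (sw e w)) / 2 ^ (S w).card
        ≤ ∑ _w : Om n l, (2 * (ε * 2 ^ n) + 1) / √s0 := by
          apply sum_le_sum
          intro w _
          by_cases hg : 4 * (TT w).card ≤ 2 ^ n ∧ s0 ≤ (S w).card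
          · have e1 : ∑ e ∈ (S w).powerset, F (sw e w) ≤
                ∑ e ∈ (S w).powerset, suc k ε R (sw e w) := by
              apply sum_le_sum
              intro e _
              simp only [hF]
              split_ifs
              · exact le_refl _
              · exact suc_nonneg _ _ _
            have e2 := e1.trans (hfib w hg.1)
            rw [div_le_iff₀ (by positivity)]
            refine e2.trans ?_
            have e3 : √s0 ≤ √(((S w).card : ℝ) + 1) := Real.sqrt_le_sqrt (by linarith [hg.2])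
            have e4 : 0 < √s0 := Real.sqrt_pos.mpr hs0p
            have e5 : (0 : ℝ) ≤ 2 * (ε * 2 ^ n) + 1 := by positivity
            calc (2 * (ε * 2 ^ n) + 1) * (2 ^ (S w).card / √(((S w).card : ℝ) + 1))
                ≤ (2 * (ε * 2 ^ n) + 1) * (2 ^ (S w).card / √s0) := by
                  apply mul_le_mul_of_nonneg_left _ e5
                  apply div_le_div_of_nonneg_left (by positivity) e4 e3
              _ = _ := by ring
          · have e1 : ∑ e ∈ (S w).powerset, F (sw e w) = 0 := by
              apply sum_eq_zero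
              intro e he
              rw [mem_powerset] at he
              simp only [hF]
              rw [if_neg]
              rw [TT_sw, hS w e he]
              exact hg
            rw [e1, zero_div]
            positivity
      _ = _ := by rw [sum_const, card_univ, nsmul_eq_mul]; ring
  have h3 := card_many (n := n) (l := l)
  have h6 := sum_le_sum (fun w (_ : w ∈ (univ : Finset (Om n l))) => h1 w)
  rw [sum_add_distrib, sum_add_distrib] at h6
  have c3 : ∑ w : Om n l, (if ¬ 4 * (TT w).card ≤ 2 ^ n then (1 : ℝ) else 0) =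
      ((univ.filter fun w : Om n l => ¬ 4 * (TT w).card ≤ 2 ^ n).card : ℝ) := by
    rw [← sum_filter, sum_const, nsmul_eq_mul, mul_one]
  have c4 : ∑ w : Om n l, (if ((S w).card : ℝ) < s0 then (1 : ℝ) else 0) =
      ((univ.filter fun w : Om n l => ((S w).card : ℝ) < s0).card : ℝ) := by
    rw [← sum_filter, sum_const, nsmul_eq_mul, mul_one]
  rw [c3, c4] at h6
  linarith

/-! ### small cells: one free input for every cell -/

/-- a numbering of the cube -/
noncomputable def idx (x : Cube n) : ℕ := (Fintype.equivFin (Cube n) x : ℕ)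

theorem idx_inj {x y : Cube n} (h : idx x = idx y) : x = y := by
  unfold idx at h
  exact (Fintype.equivFin (Cube n)).injective (Fin.ext h)

open Classical in
/-- the first element of `V` in every cell -/
noncomputable def firsts (k : ℕ) (V : Finset (Cube n)) : Finset (Cube n) :=
  V.filter fun x => ∀ z ∈ V, z ∈ cell k x → idx x ≤ idx z

theorem firsts_subset (V : Finset (Cube n)) : firsts k V ⊆ V := filter_subset _ _

theorem firsts_cell {V : Finset (Cube n)} {y z : Cube n} (hy : y ∈ firsts k V)
    (hz : z ∈ firsts k V) (h : z ∈ cell k y) : z = y := by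
  unfold firsts at hy hz
  rw [mem_filter] at hy hz
  have h1 := hy.2 z hz.1 h
  have h2 := hz.2 y hy.1 (mem_cell_comm.mp h)
  exact idx_inj (le_antisymm h2 h1)

theorem card_le_firsts (hk : k ≤ n) (V : Finset (Cube n)) :
    V.card ≤ (firsts k V).card * 2 ^ (n - k) := by
  classical
  have h1 : V ⊆ (firsts k V).biUnion (cell k) := by
    intro x hx
    obtain ⟨y, hy, hmin⟩ := exists_min_image (V ∩ cell k x) idx
      ⟨x, mem_inter.mpr ⟨hx, self_mem_cell x⟩⟩
    rw [mem_inter] at hy
    rw [mem_biUnion]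
    refine ⟨y, ?_, mem_cell_comm.mp hy.2⟩
    unfold firsts
    rw [mem_filter]
    refine ⟨hy.1, fun z hz hzy => hmin z (mem_inter.mpr ⟨hz, ?_⟩)⟩
    rw [← cell_eq hy.2]; exact hzy
  refine (card_le_card h1).trans ?_
  apply card_biUnion_le_card_mul
  intro y _
  rw [card_cell hk]

/-- one free unread input in every cell -/
noncomputable def S1 (k : ℕ) (R : Tree n) (w : Om n l) : Finset (Cube n) :=
  firsts k (TT w ∩ UU k R w)

theorem S1_sw (R : Tree n) (w : Om n l) (e : Finset (Cube n)) (he : e ⊆ S1 k R w) :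
    S1 k R (sw e w) = S1 k R w := by
  have h := (eval_sw' R w (he.trans (firsts_subset _))).1
  unfold S1 UU
  rw [TT_sw, h]

theorem fiber_bound1 (hk : k < n) {ε : ℝ} (hε : 0 ≤ ε) (R : Tree n) (w : Om n l)
    (hT : 4 * (TT w).card ≤ 2 ^ n) :
    ∑ e ∈ (S1 k R w).powerset, suc k ε R (sw e w) ≤
      (2 * (ε * 2 ^ n) + 1) * (2 ^ (S1 k R w).card / √(((S1 k R w).card : ℝ) + 1)) := by
  classical
  set S := S1 k R w with hS
  set c : ℝ := (R.eval (ff k (OO w)) - distK k (ff k (OO w))) * 2 ^ n with hc
  refine le_trans (sum_le_sum ?_) (sum_signs S (kap k (OO w)) (kap_eq hk (OO w)) c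
    (δ := ε * 2 ^ n) (by positivity))
  intro e he
  rw [mem_powerset] at he
  unfold suc
  split_ifs with h1 h2
  · exact le_refl _
  · exfalso
    apply h2
    have heV : e ⊆ TT w ∩ UU k R w := he.trans (firsts_subset _)
    rw [(eval_sw' R w heV).2] at h1
    have heT : e ⊆ TT w := heV.trans inter_subset_left
    have hd := distK_symmDiff (k := k) hk.le (O := OO w) (e := e) (OO_subset w) hT heT
      (fun y hy z hz hzy => firsts_cell (he hy) (he hz) hzy)
    rw [← OO_sw heT] at hd
    have e1 : c - ∑ y ∈ e, kap k (OO w) y =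
        (R.eval (ff k (OO w)) - distK k (ff k (OO (sw e w)))) * 2 ^ n := by
      rw [hc]
      linarith
    rw [e1, abs_mul, abs_of_pos (show (0 : ℝ) < 2 ^ n by positivity)]
    exact mul_le_mul_of_nonneg_right h1 (by positivity)
  · norm_num
  · exact le_refl _

theorem sum_suc1 (hk : k < n) {ε : ℝ} (hε : 0 ≤ ε) (R : Tree n) {m : ℝ} (hm : 0 < m)
    (hR : ∀ w : Om n l, m ≤ (UU k R w).card) :
    ∑ w : Om n l, suc k ε R w ≤ (4 * pp l + 4 / (pp l * m) +
      (2 * (ε * 2 ^ n) + 1) / √(pp l * m / (2 * 2 ^ (n - k)))) * Fintype.card (Om n l) := by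
  classical
  have hp := pp_pos (l := l)
  have hs0p : 0 < pp l * m / (2 * 2 ^ (n - k)) := by positivity
  have h1 := sum_suc_gen (k := k) (l := l) hε R (fun w => S1 k R w) (fun w e he => S1_sw R w e he)
    (fun w hT => fiber_bound1 hk hε R w hT) hs0p
  have h4 := card_few (n := n) (l := l) (U := UU k R) (fun w x a hx => UU_update R w x a hx) hm hR
  have h5 : ((univ.filter fun w : Om n l =>
      ((S1 k R w).card : ℝ) < pp l * m / (2 * 2 ^ (n - k))).card : ℝ) ≤
      ((univ.filter fun w : Om n l =>
      ∑ x ∈ UU k R w, tau (w x) < pp l / 2 * (UU k R w).card).card : ℝ) := by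
    have : (univ.filter fun w : Om n l =>
      ((S1 k R w).card : ℝ) < pp l * m / (2 * 2 ^ (n - k))) ⊆ (univ.filter fun w : Om n l =>
      ∑ x ∈ UU k R w, tau (w x) < pp l / 2 * (UU k R w).card) := by
      intro w hw
      simp only [mem_filter, mem_univ, true_and] at hw ⊢
      rw [← card_TT_inter]
      have h6 := card_le_firsts (k := k) hk.le (TT w ∩ UU k R w)
      have h7 : ((TT w ∩ UU k R w).card : ℝ) ≤ (S1 k R w).card * 2 ^ (n - k) := by
        unfold S1
        exact_mod_cast h6
      rw [lt_div_iff₀ (by positivity)] at hw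
      have h8 : pp l * m ≤ pp l * (UU k R w).card :=
        mul_le_mul_of_nonneg_left (hR w) hp.le
      linarith
    exact_mod_cast card_le_card this
  calc ∑ w : Om n l, suc k ε R w ≤ _ := h1
    _ ≤ 4 * pp l * Fintype.card (Om n l) + 4 / (pp l * m) * Fintype.card (Om n l) +
      (2 * (ε * 2 ^ n) + 1) / √(pp l * m / (2 * 2 ^ (n - k))) * Fintype.card (Om n l) := by
        linarith
    _ = _ := by ring

/-! ### large cells -/

theorem sum_tau_prod (A : Finset (Cube n)) :
    ∑ w : Om n l, ∏ y ∈ A, tau (w y) = pp l ^ A.card * Fintype.card (Om n l) := by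
  classical
  induction A using Finset.induction_on with
  | empty => simp
  | insert y A hy ih =>
    have h := resample_mul (l := l) y (fun w => ∏ z ∈ A, tau (w z)) tau (by
      intro w a
      apply prod_congr rfl
      intro z hz
      rw [Function.update_of_ne]
      rintro rfl
      exact hy hz)
    rw [sum_tau, ih] at h
    have h1 := pp_mul (l := l)
    have h2 := l2_pos (l := l)
    have h3 : ((l : ℝ) + 2) * ∑ w : Om n l, ∏ z ∈ insert y A, tau (w z) =
        ((l : ℝ) + 2) * (pp l ^ (insert y A).card * Fintype.card (Om n l)) := by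
      have h4 : ∀ w : Om n l, ∏ z ∈ insert y A, tau (w z) = (∏ z ∈ A, tau (w z)) * tau (w y) := by
        intro w
        rw [prod_insert hy, mul_comm]
      simp_rw [h4]
      rw [h, card_insert_of_notMem hy, pow_succ]
      linear_combination (-(pp l ^ A.card * (Fintype.card (Om n l) : ℝ))) * h1
    exact mul_left_cancel₀ h2.ne' h3

theorem bad_le2 (w : Om n l) :
    (bad k w : ℝ) ≤ ∑ x, ∑ A ∈ powersetCard ((cell k x).card / 2) (cell k x),
      ∏ y ∈ A, tau (w y) := by
  unfold bad
  rw [card_filter]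
  push_cast
  have h0 : ∑ x ∈ TT w, (if ¬ Good k (TT w) x then (1 : ℝ) else 0) =
      ∑ x, if x ∈ TT w ∧ ¬ Good k (TT w) x then (1 : ℝ) else 0 := by
    rw [← sum_filter, ← sum_filter]
    apply sum_congr _ (fun _ _ => rfl)
    ext x; simp
  rw [h0]
  apply sum_le_sum
  intro x _
  have hnn : ∀ A ∈ powersetCard ((cell k x).card / 2) (cell k x), 0 ≤ ∏ y ∈ A, tau (w y) :=
    fun A _ => prod_nonneg fun y _ => tau_nonneg _
  split_ifs with h
  · obtain ⟨hxT, hb⟩ := h
    unfold Good at hb
    obtain ⟨A, hA, hAc⟩ := exists_subset_card_eq (s := TT w ∩ cell k x)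
      (n := (cell k x).card / 2) (by omega)
    have h1 : A ∈ powersetCard ((cell k x).card / 2) (cell k x) :=
      mem_powersetCard.mpr ⟨hA.trans inter_subset_right, hAc⟩
    have h2 : ∏ y ∈ A, tau (w y) = 1 := by
      apply prod_eq_one
      intro y hy
      unfold tau
      have : (w y : ℕ) < 2 := by simpa [TT] using (mem_inter.mp (hA hy)).1
      rw [if_pos this]
    calc (1 : ℝ) = ∏ y ∈ A, tau (w y) := h2.symm
      _ ≤ _ := single_le_sum hnn h1
  · exact sum_nonneg hnn

theorem sum_bad2 (hk : k ≤ n) : ∑ w : Om n l, (bad k w : ℝ) ≤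
    2 ^ n * (2 ^ (2 ^ (n - k)) * pp l ^ (2 ^ (n - k) / 2)) * Fintype.card (Om n l) := by
  calc ∑ w : Om n l, (bad k w : ℝ)
      ≤ ∑ w : Om n l, ∑ x, ∑ A ∈ powersetCard ((cell k x).card / 2) (cell k x),
        ∏ y ∈ A, tau (w y) := sum_le_sum fun w _ => bad_le2 w
    _ = ∑ x : Cube n, ∑ A ∈ powersetCard ((cell k x).card / 2) (cell k x),
        pp l ^ ((cell k x).card / 2) * Fintype.card (Om n l) := by
        rw [sum_comm]
        apply sum_congr rfl
        intro x _
        rw [sum_comm]
        apply sum_congr rfl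
        intro A hA
        rw [sum_tau_prod, (mem_powersetCard.mp hA).2]
    _ ≤ ∑ _x : Cube n, 2 ^ (2 ^ (n - k)) * (pp l ^ (2 ^ (n - k) / 2) *
        Fintype.card (Om n l)) := by
        apply sum_le_sum
        intro x _
        rw [sum_const, nsmul_eq_mul, card_powersetCard, card_cell hk]
        have h1 : (Nat.choose (2 ^ (n - k)) (2 ^ (n - k) / 2) : ℝ) ≤ 2 ^ (2 ^ (n - k)) := by
          exact_mod_cast Nat.choose_le_two_pow _ _
        apply mul_le_mul_of_nonneg_right h1
        have := pp_pos (l := l)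
        positivity
    _ = _ := by
        rw [sum_const, card_univ, nsmul_eq_mul]
        have : (Fintype.card (Cube n) : ℝ) = 2 ^ n := by simp
        rw [this]; ring

theorem card_bad2 (hk : k ≤ n) {b : ℝ} (hb : 0 < b) :
    ((univ.filter fun w : Om n l => b < bad k w).card : ℝ) ≤
      2 ^ n * (2 ^ (2 ^ (n - k)) * pp l ^ (2 ^ (n - k) / 2)) / b * Fintype.card (Om n l) := by
  have h1 : ((univ.filter fun w : Om n l => b < bad k w).card : ℝ) * b ≤
      ∑ w : Om n l, (bad k w : ℝ) := by
    rw [← nsmul_eq_mul, ← sum_const, sum_filter]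
    apply sum_le_sum
    intro w _
    split_ifs with h
    · exact h.le
    · positivity
  have h2 := h1.trans (sum_bad2 hk)
  rw [div_mul_eq_mul_div, le_div_iff₀ hb]
  exact h2

theorem sum_suc2 (hk : k < n) {ε : ℝ} (hε : 0 ≤ ε) (R : Tree n) {m : ℝ} (hm : 0 < m)
    (hR : ∀ w : Om n l, m ≤ (UU k R w).card) :
    ∑ w : Om n l, suc k ε R w ≤ (4 * pp l + 4 / (pp l * m) +
      2 ^ n * (2 ^ (2 ^ (n - k)) * pp l ^ (2 ^ (n - k) / 2)) / (pp l * m / 4) +
      (2 * (ε * 2 ^ n) + 1) / √(pp l * m / 4)) * Fintype.card (Om n l) := by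
  classical
  have hp := pp_pos (l := l)
  have hs0p : 0 < pp l * m / 4 := by positivity
  have h1 := sum_suc_gen (k := k) (l := l) hε R (fun w => SS k R w) (fun w e he => SS_sw R w e he)
    (fun w hT => fiber_bound hk.le hε R w hT) hs0p
  have h4 := card_few (n := n) (l := l) (U := UU k R) (fun w x a hx => UU_update R w x a hx) hm hR
  have h5 := card_bad2 (n := n) (l := l) hk.le hs0p
  have h6 : ((univ.filter fun w : Om n l => ((SS k R w).card : ℝ) < pp l * m / 4).card : ℝ) ≤
      ((univ.filter fun w : Om n l =>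
      ∑ x ∈ UU k R w, tau (w x) < pp l / 2 * (UU k R w).card).card : ℝ) +
      ((univ.filter fun w : Om n l => pp l * m / 4 < bad k w).card : ℝ) := by
    have : (univ.filter fun w : Om n l => ((SS k R w).card : ℝ) < pp l * m / 4) ⊆
        (univ.filter fun w : Om n l =>
        ∑ x ∈ UU k R w, tau (w x) < pp l / 2 * (UU k R w).card) ∪
        (univ.filter fun w : Om n l => pp l * m / 4 < bad k w) := by
      intro w hw
      simp only [mem_filter, mem_univ, true_and, mem_union] at hw ⊢
      by_contra hcon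
      push Not at hcon
      have h2 := card_SS_ge (k := k) R w
      have h8 : pp l * m ≤ pp l * (UU k R w).card :=
        mul_le_mul_of_nonneg_left (hR w) hp.le
      linarith [hcon.1, hcon.2]
    exact_mod_cast (card_le_card this).trans (card_union_le _ _)
  calc ∑ w : Om n l, suc k ε R w ≤ _ := h1
    _ ≤ 4 * pp l * Fintype.card (Om n l) + (4 / (pp l * m) * Fintype.card (Om n l) +
      2 ^ n * (2 ^ (2 ^ (n - k)) * pp l ^ (2 ^ (n - k) / 2)) / (pp l * m / 4) *
        Fintype.card (Om n l)) +
      (2 * (ε * 2 ^ n) + 1) / √(pp l * m / 4) * Fintype.card (Om n l) := by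
        linarith
    _ = _ := by ring

end Pool.Agent.Work.MP_8f25a0_lc.Full
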