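import Pool.Agent.Work.MP_8f25a0_lc.Full.Base

/-!
# Full reading: the upper bound `2 ^ n - ⌊2 ^ (n + 1) ε⌋`
-/

namespace Pool.Agent.Work.MP_8f25a0_lc.Full

open Finset

variable {n k : ℕ}

theorem distK_lip (k : ℕ) (f f' : Cube n → Bool) (Q : Finset (Cube n))
    (h : ∀ x ∈ Q, f x = f' x) : distK k f - distK k f' ≤ (2 ^ n - Q.card) / 2 ^ n := by
  obtain ⟨g, hg, hg'⟩ := exists_distK k f'
  have h1 := distK_le (f := f) hg
  rw [hg']
  have h2 : dist f g ≤ dist f' g + (2 ^ n - Q.card) / 2 ^ n := by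
    unfold dist
    rw [← add_div]
    apply div_le_div_of_nonneg_right _ (by positivity)
    have h3 : (univ.filter fun x => f x ≠ g x) ⊆ (univ.filter fun x => f' x ≠ g x) ∪ Qᶜ := by
      intro x hx
      simp only [mem_filter, mem_univ, true_and, mem_union, mem_compl] at hx ⊢
      by_cases hQ : x ∈ Q
      · left; rw [← h x hQ]; exact hx
      · right; exact hQ
    have h4 := (card_le_card h3).trans (card_union_le _ _)
    have h5 : Qᶜ.card + Q.card = 2 ^ n := by
      rw [card_compl]
      have h6 : Q.card ≤ Fintype.card (Cube n) := card_le_univ Q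
      have h7 : Fintype.card (Cube n) = 2 ^ n := by simp
      omega
    have h6 : (Qᶜ.card : ℝ) + Q.card = 2 ^ n := by exact_mod_cast h5
    have h7 : ((univ.filter fun x => f x ≠ g x).card : ℝ) ≤
        (univ.filter fun x => f' x ≠ g x).card + Qᶜ.card := by exact_mod_cast h4
    linarith
  linarith

theorem lookup_zip_map {f : Cube n → Bool} {x : Cube n} : ∀ l : List (Cube n), x ∈ l →
    (l.zip (l.map f)).lookup x = some (f x) := by
  intro l
  induction l with
  | nil => simp
  | cons y l ih =>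
    intro h
    simp only [List.map_cons, List.zip_cons_cons, List.lookup_cons]
    by_cases hxy : x = y
    · subst hxy; simp
    · have : (x == y) = false := by simp [hxy]
      rw [this]
      exact ih ((List.mem_cons.mp h).resolve_left hxy)

/-- leave `t` points unasked and answer the middle of the range -/
theorem approximates_skip (n k : ℕ) {ε : ℝ} {t : ℕ} (ht : t ≤ 2 ^ n) (hε : t ≤ 2 ^ (n + 1) * ε) :
    ∃ A : PMF (Tree n), Approximates n k ε (2 ^ n - t) A := by
  classical
  obtain ⟨Q, -, hQ⟩ := exists_subset_card_eq (s := (univ : Finset (Cube n))) (n := 2 ^ n - t)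
    (by rw [card_univ]; simp)
  -- extreme completions
  have hext : ∀ v : Cube n → Bool, ∃ h1 h2 : Cube n → Bool,
      (∀ x ∈ Q, h1 x = v x) ∧ (∀ x ∈ Q, h2 x = v x) ∧
      ∀ f : Cube n → Bool, (∀ x ∈ Q, f x = v x) → distK k h1 ≤ distK k f ∧
        distK k f ≤ distK k h2 := by
    intro v
    set C : Finset (Cube n → Bool) := univ.filter fun h => ∀ x ∈ Q, h x = v x with hC
    have hCne : C.Nonempty := ⟨v, by simp [hC]⟩
    obtain ⟨h1, hh1, hm1⟩ := exists_min_image C (distK k) hCne
    obtain ⟨h2, hh2, hm2⟩ := exists_max_image C (distK k) hCne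
    refine ⟨h1, h2, ?_, ?_, ?_⟩
    · simpa [hC] using hh1
    · simpa [hC] using hh2
    · intro f hf
      have hfC : f ∈ C := by simpa [hC] using hf
      exact ⟨hm1 f hfC, hm2 f hfC⟩
  choose h1 h2 hh1 hh2 hh using hext
  set l : List (Cube n) := Q.toList with hl
  set v : List Bool → Cube n → Bool := fun bs x => ((l.zip bs).lookup x).getD false with hv
  set T : Tree n := Tree.nonadaptive l (fun bs =>
    (distK k (h1 (v bs)) + distK k (h2 (v bs))) / 2) with hT
  refine ⟨PMF.pure T, ?_, ?_⟩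
  · intro T' hT'
    rw [PMF.support_pure, Set.mem_singleton_iff] at hT'
    rw [hT', hT, Tree.depth_nonadaptive, hl, Finset.length_toList, hQ]
  · intro f
    have hvf : ∀ x ∈ Q, v (l.map f) x = f x := by
      intro x hx
      have hx' : x ∈ l := by rw [hl]; exact Finset.mem_toList.mpr hx
      simp only [hv]
      rw [lookup_zip_map l hx']
      rfl
    have e1 : T.eval f = (distK k (h1 (v (l.map f))) + distK k (h2 (v (l.map f)))) / 2 := by
      rw [hT, Tree.eval_nonadaptive]
    have e2 := hh (v (l.map f)) f (fun x hx => (hvf x hx).symm)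
    have e3 := distK_lip k (h2 (v (l.map f))) (h1 (v (l.map f))) Q
      (fun x hx => by rw [hh1 _ x hx, hh2 _ x hx])
    have e4 : ((2 : ℝ) ^ n - Q.card) = t := by
      rw [hQ, Nat.cast_sub ht]; push_cast; ring
    rw [e4] at e3
    have e5 : (t : ℝ) / 2 ^ n ≤ 2 * ε := by
      rw [div_le_iff₀ (by positivity)]
      rw [pow_succ] at hε
      linarith
    have h2' : T ∈ {T : Tree n | |T.eval f - distK k f| ≤ ε} := by
      simp only [Set.mem_ofPred_eq]
      rw [e1, abs_le]
      constructor <;> linarith [e2.1, e2.2]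
    rw [PMF.toOuterMeasure_pure_apply, if_pos h2']
    exact ENNReal.div_le_of_le_mul (by norm_num)

theorem queryComplexity_skip (n k : ℕ) {ε : ℝ} (hε : 0 ≤ ε) :
    queryComplexity n k ε ≤ 2 ^ n - ⌊2 ^ (n + 1) * ε⌋₊ := by
  have h0 : 0 ≤ 2 ^ (n + 1) * ε := by positivity
  by_cases h : ⌊2 ^ (n + 1) * ε⌋₊ ≤ 2 ^ n
  · obtain ⟨A, hA⟩ := approximates_skip n k h (Nat.floor_le h0)
    exact queryComplexity_le hA
  · push Not at h
    have h1 : ((2 ^ n : ℕ) : ℝ) ≤ 2 ^ (n + 1) * ε := by
      have h2 := Nat.floor_le h0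
      have h3 : ((2 ^ n : ℕ) : ℝ) ≤ (⌊2 ^ (n + 1) * ε⌋₊ : ℝ) := by exact_mod_cast h.le
      linarith
    obtain ⟨A, hA⟩ := approximates_skip n k (le_refl _) h1
    have h2 := queryComplexity_le hA
    omega

theorem eq_iff (hk : k < n) {ε : ℝ} (hε : 0 ≤ ε) :
    queryComplexity n k ε = 2 ^ n ↔ ε < 1 / 2 ^ (n + 1) := by
  constructor
  · intro h
    by_contra hcon
    push Not at hcon
    have h1 := queryComplexity_skip n k hε
    have h2 : 1 ≤ ⌊2 ^ (n + 1) * ε⌋₊ := by
      apply Nat.le_floor
      rw [div_le_iff₀ (by positivity)] at hcon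
      push_cast
      linarith
    have h3 : 0 < 2 ^ n := by positivity
    omega
  · intro h
    apply le_antisymm
    · exact (queryComplexity_skip n k hε).trans (Nat.sub_le _ _)
    · obtain ⟨A, hA⟩ := exists_approximates n k hε
      exact full_lower hk h hA

theorem eq_iff_half (hk : k < n) {ε : ℝ} (hε : 0 ≤ ε) :
    queryComplexity n k ε = 2 ^ n ↔ ε * 2 ^ n < 1 / 2 := by
  rw [eq_iff hk hε, lt_div_iff₀ (by positivity), pow_succ]
  constructor
  · intro h; linarith
  · intro h; linarith

end Pool.Agent.Work.MP_8f25a0_lc.Full
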