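import Pool.Agent.Work.MP_8f25a0_lc.Full.Lower2
import Pool.Agent.Work.MP_8f25a0_lc.Full.UpperB

/-!
# Full reading: the lower bound `2 ^ n - 20000 min (M δ ^ 2, δ ^ 2 + 2 ^ n / 4 ^ M)`,
`δ = ε 2 ^ n`, `M = 2 ^ (n - k)`
-/

namespace Pool.Agent.Work.MP_8f25a0_lc.Full

open Finset

variable {n k : ℕ}

theorem yao_apply {ε : ℝ} {q : ℕ} {A : PMF (Tree n)} (hA : Approximates n k ε q A) (l : ℕ) {c : ℝ}
    (hc : c < 2 / 3) (h : ∀ R : Tree n, (∀ w : Om n l, (2 : ℝ) ^ n - q ≤ (UU k R w).card) →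
      ∑ w : Om n l, suc k ε R w ≤ c * Fintype.card (Om n l)) : False := by
  classical
  refine yao (Ω := Om n l) (fun w => ff k (OO w)) (c * Fintype.card (Om n l)) ?_ ?_ hA
  · have : (0 : ℝ) < Fintype.card (Om n l) := by
      exact_mod_cast Fintype.card_pos
    exact mul_lt_mul_of_pos_right hc this
  · intro R hR
    refine h R ?_
    intro w
    have h2 := card_queried_le (ff k (OO w)) R
    unfold UU
    rw [card_compl]
    have h3 : (queried (ff k (OO w)) R).card ≤ Fintype.card (Cube n) := card_le_univ _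
    rw [Nat.cast_sub h3]
    have h4 : (Fintype.card (Cube n) : ℝ) = 2 ^ n := by simp
    have h5 : ((queried (ff k (OO w)) R).card : ℝ) ≤ q := by exact_mod_cast h2.trans hR
    rw [h4]
    linarith

theorem numericA {δ m M : ℝ} (hδ : 1 / 2 ≤ δ) (hM : 2 ≤ M) (hm : 20000 * (M * δ ^ 2) < m) :
    4 * (1 / 64 : ℝ) + 4 / (1 / 64 * m) + (2 * δ + 1) / √(1 / 64 * m / (2 * M)) < 2 / 3 := by
  have hδ2 : (1 / 2 : ℝ) ^ 2 ≤ δ ^ 2 := pow_le_pow_left₀ (by norm_num) hδ 2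
  have hδ0 : 0 < δ := by linarith
  have hm1 : 10000 ≤ m := by nlinarith [mul_le_mul hM hδ2 (by norm_num) (by linarith)]
  have hm0 : 0 < m := by linarith
  have a2 : 4 / (1 / 64 * m) ≤ 3 / 100 := by
    rw [div_le_div_iff₀ (by positivity) (by norm_num)]
    linarith
  have a3 : (2 * δ + 1) / √(1 / 64 * m / (2 * M)) ≤ 1 / 2 := by
    have h1 : 8 * δ ≤ √(1 / 64 * m / (2 * M)) := by
      apply Real.le_sqrt_of_sq_le
      rw [le_div_iff₀ (by positivity)]
      nlinarith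
    have h2 : 0 < √(1 / 64 * m / (2 * M)) := by
      have : 0 < 8 * δ := by positivity
      linarith
    rw [div_le_div_iff₀ h2 (by norm_num)]
    linarith
  linarith

theorem numericB {δ m b : ℝ} (hδ : 1 / 2 ≤ δ) (hb : 0 ≤ b) (hm : 20000 * (δ ^ 2 + b) < m) :
    4 * (1 / 64 : ℝ) + 4 / (1 / 64 * m) + b / (1 / 64 * m / 4) +
      (2 * δ + 1) / √(1 / 64 * m / 4) < 2 / 3 := by
  have hδ2 : (1 / 2 : ℝ) ^ 2 ≤ δ ^ 2 := pow_le_pow_left₀ (by norm_num) hδ 2
  have hδ0 : 0 < δ := by linarith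
  have hm1 : 5000 ≤ m := by nlinarith
  have hm0 : 0 < m := by linarith
  have a2 : 4 / (1 / 64 * m) ≤ 6 / 100 := by
    rw [div_le_div_iff₀ (by positivity) (by norm_num)]
    linarith
  have a4 : b / (1 / 64 * m / 4) ≤ 2 / 100 := by
    rw [div_le_div_iff₀ (by positivity) (by norm_num)]
    have : 0 ≤ δ ^ 2 := by positivity
    linarith
  have a3 : (2 * δ + 1) / √(1 / 64 * m / 4) ≤ 1 / 2 := by
    have h1 : 8 * δ ≤ √(1 / 64 * m / 4) := by
      apply Real.le_sqrt_of_sq_le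
      nlinarith
    have h2 : 0 < √(1 / 64 * m / 4) := by
      have : 0 < 8 * δ := by positivity
      linarith
    rw [div_le_div_iff₀ h2 (by norm_num)]
    linarith
  linarith

theorem pp_126 : pp 126 = 1 / 64 := by unfold pp; norm_num

/-- the common part of both lower bounds -/
theorem lower_common (hk : k < n) {ε : ℝ} (hε : 0 ≤ ε) {D : ℝ} (hD : 0 ≤ D)
    (hcon : (queryComplexity n k ε : ℝ) < 2 ^ n - D) : 1 / 2 ≤ ε * 2 ^ n := by
  obtain ⟨A, hA⟩ := exists_approximates n k hε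
  by_contra h
  push Not at h
  have h0 : ε < 1 / 2 ^ (n + 1) := by
    rw [lt_div_iff₀ (by positivity), pow_succ]
    linarith
  have h1 := full_lower hk h0 hA
  have h2 : (2 : ℝ) ^ n ≤ queryComplexity n k ε := by exact_mod_cast h1
  linarith

/-- the lower bound for small codimension -/
theorem lower_A (hk : k < n) {ε : ℝ} (hε : 0 ≤ ε) :
    (2 : ℝ) ^ n - 20000 * (2 ^ (n - k) * (ε * 2 ^ n) ^ 2) ≤ queryComplexity n k ε := by
  classical
  by_contra hcon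
  push Not at hcon
  have hδ := lower_common hk hε (by positivity) hcon
  obtain ⟨A, hA⟩ := exists_approximates n k hε
  have hM : (2 : ℝ) ≤ 2 ^ (n - k) := by
    calc (2 : ℝ) = 2 ^ 1 := by norm_num
      _ ≤ 2 ^ (n - k) := pow_le_pow_right₀ (by norm_num) (by omega)
  have hm : 20000 * (2 ^ (n - k) * (ε * 2 ^ n) ^ 2) < 2 ^ n - (queryComplexity n k ε : ℝ) := by
    linarith
  have hm0 : 0 < 2 ^ n - (queryComplexity n k ε : ℝ) := lt_of_le_of_lt (by positivity) hm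
  have hnum := numericA hδ hM hm
  refine yao_apply hA 126 hnum ?_
  intro R hR
  have h1 := sum_suc1 (l := 126) hk hε R hm0 hR
  rw [pp_126] at h1
  exact h1

/-- the lower bound for large codimension -/
theorem lower_B (hk : k < n) {ε : ℝ} (hε : 0 ≤ ε) :
    (2 : ℝ) ^ n - 20000 * ((ε * 2 ^ n) ^ 2 + 2 ^ n / 4 ^ (2 ^ (n - k))) ≤
      queryComplexity n k ε := by
  classical
  by_contra hcon
  push Not at hcon
  have hδ := lower_common hk hε (by positivity) hcon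
  obtain ⟨A, hA⟩ := exists_approximates n k hε
  have hm : 20000 * ((ε * 2 ^ n) ^ 2 + 2 ^ n / 4 ^ (2 ^ (n - k))) <
      2 ^ n - (queryComplexity n k ε : ℝ) := by
    linarith
  have hm0 : 0 < 2 ^ n - (queryComplexity n k ε : ℝ) := lt_of_le_of_lt (by positivity) hm
  obtain ⟨h, hh⟩ : ∃ h : ℕ, 2 ^ (n - k) = 2 * h := by
    refine ⟨2 ^ (n - k - 1), ?_⟩
    rw [← pow_succ']
    congr 1
    omega
  have hh2 : 2 ^ (n - k) / 2 = h := by omega
  have hb : (2 : ℝ) ^ n * ((2 : ℝ) ^ (2 ^ (n - k)) * (1 / 64 : ℝ) ^ (2 ^ (n - k) / 2)) =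
      2 ^ n / 4 ^ (2 ^ (n - k)) := by
    have h16 : (2 : ℝ) ^ 2 * (1 / 64) = ((4 : ℝ) ^ 2)⁻¹ := by norm_num
    rw [hh2, hh, pow_mul, pow_mul, ← mul_pow, h16, inv_pow, ← div_eq_mul_inv]
  have hnum := numericB hδ (show (0 : ℝ) ≤ 2 ^ n / 4 ^ (2 ^ (n - k)) by positivity) hm
  refine yao_apply hA 126 hnum ?_
  intro R hR
  have h1 := sum_suc2 (l := 126) hk hε R hm0 hR
  rw [pp_126, hb] at h1
  exact h1

theorem lower_min (hk : k < n) {ε : ℝ} (hε : 0 ≤ ε) :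
    (2 : ℝ) ^ n - 20000 * min (2 ^ (n - k) * (ε * 2 ^ n) ^ 2)
      ((ε * 2 ^ n) ^ 2 + 2 ^ n / 4 ^ (2 ^ (n - k))) ≤ queryComplexity n k ε := by
  rcases min_choice (2 ^ (n - k) * (ε * 2 ^ n) ^ 2)
      ((ε * 2 ^ n) ^ 2 + (2 : ℝ) ^ n / 4 ^ (2 ^ (n - k))) with h | h
  · rw [h]; exact lower_A hk hε
  · rw [h]; exact lower_B hk hε

end Pool.Agent.Work.MP_8f25a0_lc.Full
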