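import Pool.Agent.Work.MP_8f25a0_lc.Full.Struct

/-!
# Full reading: the random letters
-/

namespace Pool.Agent.Work.MP_8f25a0_lc.Full

open Finset

variable {n k l : ℕ}

/-- one letter for every input -/
abbrev Om (n l : ℕ) := Cube n → Fin (l + 2)

/-- the letters `0` and `1` -/
noncomputable def tau (a : Fin (l + 2)) : ℝ := if (a : ℕ) < 2 then 1 else 0

/-- the probability of the letters `0`, `1` -/
noncomputable def pp (l : ℕ) : ℝ := 2 / (l + 2)

theorem pp_pos : 0 < pp l := by unfold pp; positivity

theorem sum_tau : ∑ a : Fin (l + 2), tau a = 2 := by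
  rw [Fin.sum_univ_succ, Fin.sum_univ_succ]
  have h : ∀ i : Fin l, tau (l := l) i.succ.succ = 0 := by
    intro i
    unfold tau
    simp
  rw [sum_eq_zero (fun i _ => h i)]
  unfold tau
  simp
  norm_num

theorem tau_sq (a : Fin (l + 2)) : tau a * tau a = tau a := by
  unfold tau; split_ifs <;> norm_num

theorem tau_nonneg (a : Fin (l + 2)) : 0 ≤ tau a := by
  unfold tau; split_ifs <;> norm_num

theorem tau_le_one (a : Fin (l + 2)) : tau a ≤ 1 := by
  unfold tau; split_ifs <;> norm_num

theorem pp_mul : pp l * (l + 2) = 2 := by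
  unfold pp
  have : (0 : ℝ) < (l : ℝ) + 2 := by positivity
  field_simp

theorem sum_tau_sub : ∑ a : Fin (l + 2), (tau a - pp l) = 0 := by
  rw [sum_sub_distrib, sum_tau, sum_const, card_univ, Fintype.card_fin, nsmul_eq_mul]
  push_cast
  linarith [pp_mul (l := l)]

theorem sum_tau_sub_sq : ∑ a : Fin (l + 2), (tau a - pp l) ^ 2 ≤ 2 := by
  have h : ∀ a : Fin (l + 2), (tau a - pp l) ^ 2 = tau a - 2 * pp l * tau a + pp l ^ 2 := by
    intro a
    have := tau_sq a
    nlinarith
  simp_rw [h]
  rw [sum_add_distrib, sum_sub_distrib, ← mul_sum, sum_tau, sum_const, card_univ,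
    Fintype.card_fin, nsmul_eq_mul]
  push_cast
  have h1 := pp_mul (l := l)
  have h2 := pp_pos (l := l)
  nlinarith

/-- resampling one letter -/
theorem resample (x : Cube n) (H : Om n l → ℝ) :
    ∑ w, ∑ a, H (Function.update w x a) = (l + 2) * ∑ w, H w := by
  have h1 : ∑ w, ∑ a, H (Function.update w x a) =
      ∑ q : Om n l × Fin (l + 2), H (Function.update q.1 x q.2) :=
    (Fintype.sum_prod_type (fun q : Om n l × Fin (l + 2) => H (Function.update q.1 x q.2))).symm
  have h2 : (l + 2) * ∑ w, H w = ∑ q : Om n l × Fin (l + 2), H q.1 := by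
    rw [Fintype.sum_prod_type (fun q : Om n l × Fin (l + 2) => H q.1), mul_sum]
    apply sum_congr rfl
    intro w _
    have h3 : ∑ y : Fin (l + 2), H (w, y).1 = ∑ _y : Fin (l + 2), H w := rfl
    rw [h3, sum_const, card_univ, Fintype.card_fin, nsmul_eq_mul]
    push_cast
    ring
  rw [h1, h2]
  set σ : Om n l × Fin (l + 2) → Om n l × Fin (l + 2) :=
    fun q => (Function.update q.1 x q.2, q.1 x) with hσ
  have hinv : Function.Involutive σ := by
    intro q
    simp only [hσ]
    ext1
    · simp
    · simp
  exact (hinv.bijective.sum_comp (fun q : Om n l × Fin (l + 2) => H q.1))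

theorem resample_mul (x : Cube n) (G : Om n l → ℝ) (φ : Fin (l + 2) → ℝ)
    (hG : ∀ w a, G (Function.update w x a) = G w) :
    (l + 2) * ∑ w, G w * φ (w x) = (∑ w, G w) * ∑ a, φ a := by
  rw [← resample x (fun w => G w * φ (w x)), sum_mul]
  apply sum_congr rfl
  intro w _
  rw [mul_sum]
  apply sum_congr rfl
  intro a _
  rw [hG]
  simp

theorem l2_pos : (0 : ℝ) < (l : ℝ) + 2 := by positivity

/-- the expected number of small letters -/
theorem sum_tau_one (x : Cube n) :
    ∑ w : Om n l, tau (w x) = pp l * Fintype.card (Om n l) := by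
  have h := resample_mul (l := l) x (fun _ => 1) tau (fun _ _ => rfl)
  simp only [one_mul, sum_tau] at h
  rw [sum_const, card_univ, nsmul_eq_mul, mul_one] at h
  have h1 := pp_mul (l := l)
  have h2 := l2_pos (l := l)
  have h3 : ((l : ℝ) + 2) * ∑ w : Om n l, tau (w x) =
      ((l : ℝ) + 2) * (pp l * Fintype.card (Om n l)) := by
    rw [h]; linear_combination (-(Fintype.card (Om n l) : ℝ)) * h1
  exact mul_left_cancel₀ h2.ne' h3

theorem sum_tau_two {x y : Cube n} (hxy : x ≠ y) :
    ∑ w : Om n l, tau (w y) * tau (w x) = pp l ^ 2 * Fintype.card (Om n l) := by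
  have h := resample_mul (l := l) x (fun w => tau (w y)) tau
    (fun w a => by rw [Function.update_of_ne hxy.symm])
  rw [sum_tau, sum_tau_one] at h
  have h1 := pp_mul (l := l)
  have h2 := l2_pos (l := l)
  have h3 : ((l : ℝ) + 2) * ∑ w : Om n l, tau (w y) * tau (w x) =
      ((l : ℝ) + 2) * (pp l ^ 2 * Fintype.card (Om n l)) := by
    rw [h]; linear_combination (-(pp l * (Fintype.card (Om n l) : ℝ))) * h1
  exact mul_left_cancel₀ h2.ne' h3

variable {U : Om n l → Finset (Cube n)}

theorem U_update_iff (hU : ∀ w x a, x ∈ U w → U (Function.update w x a) = U w) (w : Om n l)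
    (x : Cube n) (a : Fin (l + 2)) : x ∈ U (Function.update w x a) ↔ x ∈ U w := by
  constructor
  · intro h
    have h1 := hU _ x (w x) h
    rw [Function.update_idem, Function.update_eq_self] at h1
    rw [h1]; exact h
  · intro h
    rw [hU w x a h]; exact h

theorem second_moment (hU : ∀ w x a, x ∈ U w → U (Function.update w x a) = U w) {m : ℝ}
    (hm : 0 < m) (hUm : ∀ w, m ≤ (U w).card) :
    ∑ w, ((∑ x ∈ U w, (tau (w x) - pp l)) / (U w).card) ^ 2 ≤
      pp l / m * Fintype.card (Om n l) := by
  classical
  set u : Om n l → ℝ := fun w => ((U w).card : ℝ) with hu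
  have hu0 : ∀ w, 0 < u w := fun w => hm.trans_le (hUm w)
  set I : Om n l → Cube n → ℝ := fun w x => if x ∈ U w then 1 else 0 with hI
  have hupd : ∀ w x a, x ∈ U w → u (Function.update w x a) = u w := by
    intro w x a hx
    simp only [hu]
    rw [hU w x a hx]
  have e1 : ∀ w, ((∑ x ∈ U w, (tau (w x) - pp l)) / (U w).card) ^ 2 =
      ∑ x, ∑ y, I w x * I w y / u w ^ 2 * (tau (w y) - pp l) * (tau (w x) - pp l) := by
    intro w
    have h1 : ∑ x ∈ U w, (tau (w x) - pp l) = ∑ x, I w x * (tau (w x) - pp l) := by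
      simp only [hI, ite_mul, one_mul, zero_mul]
      rw [← sum_filter]
      apply sum_congr _ (fun _ _ => rfl)
      ext x; simp
    rw [h1, div_pow, sq (∑ x, I w x * (tau (w x) - pp l)), sum_mul_sum, sum_div]
    apply sum_congr rfl
    intro x _
    rw [sum_div]
    apply sum_congr rfl
    intro y _
    simp only [hu]
    ring
  have e2 : ∑ w, ((∑ x ∈ U w, (tau (w x) - pp l)) / (U w).card) ^ 2 =
      ∑ x, ∑ y, ∑ w, I w x * I w y / u w ^ 2 * (tau (w y) - pp l) * (tau (w x) - pp l) := by
    simp_rw [e1]
    rw [sum_comm]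
    apply sum_congr rfl
    intro x _
    rw [sum_comm]
  have e3 : ∀ x y, x ≠ y → ∑ w, I w x * I w y / u w ^ 2 * (tau (w y) - pp l) *
      (tau (w x) - pp l) = 0 := by
    intro x y hxy
    have h := resample_mul (l := l) x
      (fun w => I w x * I w y / u w ^ 2 * (tau (w y) - pp l)) (fun a => tau a - pp l) (by
        intro w a
        rw [Function.update_of_ne hxy.symm]
        by_cases hx : x ∈ U w
        · have h1 : I (Function.update w x a) x = I w x := by
            simp only [hI]; rw [hU w x a hx]
          have h2 : I (Function.update w x a) y = I w y := by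
            simp only [hI]; rw [hU w x a hx]
          rw [h1, h2, hupd w x a hx]
        · have h1 : I (Function.update w x a) x = 0 := by
            simp only [hI]; rw [if_neg (fun h => hx ((U_update_iff hU w x a).mp h))]
          have h2 : I w x = 0 := by
            simp only [hI]; rw [if_neg hx]
          rw [h1, h2]; simp)
    rw [sum_tau_sub, mul_zero] at h
    have h2 := l2_pos (l := l)
    rcases mul_eq_zero.mp h with h3 | h3
    · exact absurd h3 h2.ne'
    · exact h3
  have e4 : ∀ x, ∑ w, I w x * I w x / u w ^ 2 * (tau (w x) - pp l) * (tau (w x) - pp l) ≤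
      pp l * ∑ w, I w x / u w ^ 2 := by
    intro x
    have h := resample_mul (l := l) x
      (fun w => I w x / u w ^ 2) (fun a => (tau a - pp l) ^ 2) (by
        intro w a
        by_cases hx : x ∈ U w
        · have h1 : I (Function.update w x a) x = I w x := by
            simp only [hI]; rw [hU w x a hx]
          rw [h1, hupd w x a hx]
        · have h1 : I (Function.update w x a) x = 0 := by
            simp only [hI]; rw [if_neg (fun h => hx ((U_update_iff hU w x a).mp h))]
          have h2 : I w x = 0 := by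
            simp only [hI]; rw [if_neg hx]
          rw [h1, h2]; simp)
    have h2 := l2_pos (l := l)
    have h3 : ∑ w, I w x * I w x / u w ^ 2 * (tau (w x) - pp l) * (tau (w x) - pp l) =
        ∑ w, I w x / u w ^ 2 * (tau (w x) - pp l) ^ 2 := by
      apply sum_congr rfl
      intro w _
      have h4 : I w x * I w x = I w x := by
        simp only [hI]; split_ifs <;> norm_num
      rw [h4]; ring
    rw [h3]
    have h5 : 0 ≤ ∑ w, I w x / u w ^ 2 := by
      apply sum_nonneg
      intro w _
      apply div_nonneg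
      · simp only [hI]; split_ifs <;> norm_num
      · positivity
    have h6 := mul_le_mul_of_nonneg_left (sum_tau_sub_sq (l := l)) h5
    have h7 := pp_mul (l := l)
    have h8 : ((l : ℝ) + 2) * ∑ w, I w x / u w ^ 2 * (tau (w x) - pp l) ^ 2 ≤
        ((l : ℝ) + 2) * (pp l * ∑ w, I w x / u w ^ 2) := by
      rw [h]
      refine h6.trans (le_of_eq ?_)
      linear_combination (-(∑ w, I w x / u w ^ 2)) * h7
    exact le_of_mul_le_mul_left h8 h2
  rw [e2]
  calc ∑ x, ∑ y, ∑ w, I w x * I w y / u w ^ 2 * (tau (w y) - pp l) * (tau (w x) - pp l)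
      = ∑ x, ∑ w, I w x * I w x / u w ^ 2 * (tau (w x) - pp l) * (tau (w x) - pp l) := by
        apply sum_congr rfl
        intro x _
        apply sum_eq_single x
        · intro y _ hy; exact e3 x y hy.symm
        · simp
    _ ≤ ∑ x, pp l * ∑ w, I w x / u w ^ 2 := sum_le_sum fun x _ => e4 x
    _ = pp l * ∑ w, ∑ x, I w x / u w ^ 2 := by rw [← mul_sum, sum_comm]
    _ = pp l * ∑ w, 1 / u w := by
        congr 1
        apply sum_congr rfl
        intro w _
        rw [← sum_div]
        have h1 : ∑ x, I w x = u w := by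
          simp only [hI, hu]
          rw [← sum_filter, sum_const, nsmul_eq_mul, mul_one]
          congr 2
          ext x; simp
        rw [h1, sq]
        have := (hu0 w).ne'
        field_simp
    _ ≤ pp l * ∑ _w : Om n l, 1 / m := by
        apply mul_le_mul_of_nonneg_left _ pp_pos.le
        apply sum_le_sum
        intro w _
        exact one_div_le_one_div_of_le hm (hUm w)
    _ = pp l / m * Fintype.card (Om n l) := by
        rw [sum_const, card_univ, nsmul_eq_mul]; ring

/-- few letters `0`, `1` among the unasked inputs: unlikely -/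
theorem card_few (hU : ∀ w x a, x ∈ U w → U (Function.update w x a) = U w) {m : ℝ}
    (hm : 0 < m) (hUm : ∀ w, m ≤ (U w).card) :
    ((univ.filter fun w : Om n l => ∑ x ∈ U w, tau (w x) < pp l / 2 * (U w).card).card : ℝ) ≤
      4 / (pp l * m) * Fintype.card (Om n l) := by
  have h := second_moment hU hm hUm
  have hp := pp_pos (l := l)
  have h1 : ((univ.filter fun w : Om n l =>
      ∑ x ∈ U w, tau (w x) < pp l / 2 * (U w).card).card : ℝ) * (pp l / 2) ^ 2 ≤
      ∑ w, ((∑ x ∈ U w, (tau (w x) - pp l)) / (U w).card) ^ 2 := by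
    rw [← nsmul_eq_mul, ← sum_const, sum_filter]
    apply sum_le_sum
    intro w _
    split_ifs with h2
    · have hu0 : (0 : ℝ) < (U w).card := hm.trans_le (hUm w)
      have h3 : ∑ x ∈ U w, (tau (w x) - pp l) = ∑ x ∈ U w, tau (w x) - pp l * (U w).card := by
        rw [sum_sub_distrib, sum_const, nsmul_eq_mul]; ring
      have h4 : (∑ x ∈ U w, (tau (w x) - pp l)) / (U w).card ≤ -(pp l / 2) := by
        rw [h3, div_le_iff₀ hu0]
        linarith
      have h5 : pp l / 2 ≤ -((∑ x ∈ U w, (tau (w x) - pp l)) / (U w).card) := by linarith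
      have h6 := pow_le_pow_left₀ (by linarith) h5 2
      rwa [neg_sq] at h6
    · positivity
  have h2 := h1.trans h
  rw [div_mul_eq_mul_div, le_div_iff₀ (by positivity)]
  have h3 : ((univ.filter fun w : Om n l =>
      ∑ x ∈ U w, tau (w x) < pp l / 2 * (U w).card).card : ℝ) * (pp l / 2) ^ 2 * (4 * m / pp l) ≤
      pp l / m * Fintype.card (Om n l) * (4 * m / pp l) :=
    mul_le_mul_of_nonneg_right h2 (by positivity)
  have e1 : ((univ.filter fun w : Om n l =>
      ∑ x ∈ U w, tau (w x) < pp l / 2 * (U w).card).card : ℝ) * (pp l / 2) ^ 2 *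
      (4 * m / pp l) = ((univ.filter fun w : Om n l =>
      ∑ x ∈ U w, tau (w x) < pp l / 2 * (U w).card).card : ℝ) * (pp l * m) := by
    field_simp
    ring_nf
  have e2 : pp l / m * Fintype.card (Om n l) * (4 * m / pp l) =
      4 * Fintype.card (Om n l) := by
    field_simp
  rw [e1, e2] at h3
  exact h3

/-- the positions of the letters `0`, `1` -/
def TT (w : Om n l) : Finset (Cube n) := univ.filter fun x => (w x : ℕ) < 2

theorem card_TT_inter (w : Om n l) (S : Finset (Cube n)) :
    ((TT w ∩ S).card : ℝ) = ∑ x ∈ S, tau (w x) := by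
  unfold tau TT
  rw [← sum_filter, sum_const, nsmul_eq_mul, mul_one]
  congr 2
  ext x
  simp only [mem_inter, mem_filter, mem_univ, true_and]
  tauto

theorem card_TT (w : Om n l) : ((TT w).card : ℝ) = ∑ x, tau (w x) := by
  have := card_TT_inter w univ
  rwa [inter_univ] at this

/-- many letters `0`, `1`: unlikely -/
theorem card_many :
    ((univ.filter fun w : Om n l => ¬ 4 * (TT w).card ≤ 2 ^ n).card : ℝ) ≤
      4 * pp l * Fintype.card (Om n l) := by
  have h1 : ((univ.filter fun w : Om n l => ¬ 4 * (TT w).card ≤ 2 ^ n).card : ℝ) *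
      (2 ^ n / 4) ≤ ∑ w : Om n l, ((TT w).card : ℝ) := by
    rw [← nsmul_eq_mul, ← sum_const, sum_filter]
    apply sum_le_sum
    intro w _
    by_cases h : 4 * (TT w).card ≤ 2 ^ n
    · rw [if_neg (not_not.mpr h)]
      positivity
    · rw [if_pos h]
      have h := not_le.mp h
      have h2 : ((2 : ℝ) ^ n) < 4 * (TT w).card := by exact_mod_cast h
      linarith
  have h2 : ∑ w : Om n l, ((TT w).card : ℝ) = pp l * Fintype.card (Om n l) * 2 ^ n := by
    simp_rw [card_TT]
    rw [sum_comm]
    simp_rw [sum_tau_one]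
    rw [sum_const, card_univ, nsmul_eq_mul]
    have : (Fintype.card (Cube n) : ℝ) = 2 ^ n := by simp
    rw [this]; ring
  rw [h2] at h1
  have hN : (0 : ℝ) < 2 ^ n := by positivity
  nlinarith

/-- the number of letters `0`, `1` in bad cells -/
noncomputable def bad (k : ℕ) (w : Om n l) : ℕ := ((TT w).filter fun x => ¬ Good k (TT w) x).card

theorem two_le_cell (hk : k < n) (x : Cube n) : 2 ≤ (cell k x).card := by
  have h1 : flip ⟨k, hk⟩ x ∈ cell k x := by
    rw [mem_cell]
    intro i hi
    unfold flip
    rw [Function.update_of_ne]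
    rintro rfl
    exact lt_irrefl _ hi
  have h2 : flip ⟨k, hk⟩ x ≠ x := by
    intro h
    have := congrFun h ⟨k, hk⟩
    unfold flip at this
    simp at this
  have h3 : ({flip ⟨k, hk⟩ x, x} : Finset (Cube n)) ⊆ cell k x := by
    intro y hy
    simp only [mem_insert, mem_singleton] at hy
    rcases hy with rfl | rfl
    · exact h1
    · exact self_mem_cell _
  have h4 := card_le_card h3
  rw [card_pair h2] at h4
  exact h4

theorem bad_le (hk : k < n) (w : Om n l) :
    (bad k w : ℝ) ≤ ∑ x, ∑ y ∈ (cell k x).erase x, 4 / (cell k x).card * (tau (w y) * tau (w x)) := by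
  unfold bad
  rw [card_filter]
  push_cast
  have h0 : ∑ x ∈ TT w, (if ¬ Good k (TT w) x then (1 : ℝ) else 0) =
      ∑ x, if x ∈ TT w ∧ ¬ Good k (TT w) x then (1 : ℝ) else 0 := by
    rw [← sum_filter, ← sum_filter]
    apply sum_congr _ (fun _ _ => rfl)
    ext x; simp
  rw [h0]
  apply sum_le_sum
  intro x _
  have hnn : 0 ≤ ∑ y ∈ (cell k x).erase x, 4 / ((cell k x).card : ℝ) *
      (tau (w y) * tau (w x)) := by
    apply sum_nonneg
    intro y _
    have := tau_nonneg (w y)
    have := tau_nonneg (w x)
    positivity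
  split_ifs with h
  · obtain ⟨hxT, hb⟩ := h
    have hx1 : tau (w x) = 1 := by
      unfold tau
      have : (w x : ℕ) < 2 := by simpa [TT] using hxT
      rw [if_pos this]
    have e1 : ∑ y ∈ (cell k x).erase x, 4 / ((cell k x).card : ℝ) * (tau (w y) * tau (w x)) =
        4 / (cell k x).card * ((TT w ∩ (cell k x).erase x).card : ℝ) := by
      rw [card_TT_inter, mul_sum]
      apply sum_congr rfl
      intro y _
      rw [hx1, mul_one]
    rw [e1]
    have e2 : (TT w ∩ (cell k x).erase x).card + 1 = (TT w ∩ cell k x).card := by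
      rw [inter_erase, card_erase_add_one]
      exact mem_inter.mpr ⟨hxT, self_mem_cell x⟩
    have h2 := two_le_cell hk x
    unfold Good at hb
    have h3 : (cell k x).card ≤ 4 * (TT w ∩ (cell k x).erase x).card := by omega
    have h4 : ((cell k x).card : ℝ) ≤ 4 * (TT w ∩ (cell k x).erase x).card := by
      exact_mod_cast h3
    have h5 : (0 : ℝ) < (cell k x).card := by exact_mod_cast cell_pos x
    rw [div_mul_eq_mul_div, le_div_iff₀ h5]
    linarith
  · exact hnn

theorem sum_bad (hk : k < n) : ∑ w : Om n l, (bad k w : ℝ) ≤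
    4 * pp l ^ 2 * 2 ^ n * Fintype.card (Om n l) := by
  calc ∑ w : Om n l, (bad k w : ℝ)
      ≤ ∑ w : Om n l, ∑ x, ∑ y ∈ (cell k x).erase x,
        4 / (cell k x).card * (tau (w y) * tau (w x)) := sum_le_sum fun w _ => bad_le hk w
    _ = ∑ x, ∑ y ∈ (cell k x).erase x, 4 / (cell k x).card *
        (pp l ^ 2 * Fintype.card (Om n l)) := by
        rw [sum_comm]
        apply sum_congr rfl
        intro x _
        rw [sum_comm]
        apply sum_congr rfl
        intro y hy
        rw [← mul_sum, sum_tau_two (mem_erase.mp hy).1.symm]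
    _ ≤ ∑ _x : Cube n, 4 * (pp l ^ 2 * Fintype.card (Om n l)) := by
        apply sum_le_sum
        intro x _
        rw [sum_const, nsmul_eq_mul]
        have h1 : (((cell k x).erase x).card : ℝ) ≤ (cell k x).card := by
          exact_mod_cast card_le_card (erase_subset _ _)
        have h5 : (0 : ℝ) < (cell k x).card := by exact_mod_cast cell_pos x
        have h6 : (0 : ℝ) ≤ pp l ^ 2 * Fintype.card (Om n l) := by positivity
        calc (((cell k x).erase x).card : ℝ) * (4 / (cell k x).card *
              (pp l ^ 2 * Fintype.card (Om n l)))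
            ≤ (cell k x).card * (4 / (cell k x).card * (pp l ^ 2 * Fintype.card (Om n l))) := by
              apply mul_le_mul_of_nonneg_right h1
              positivity
          _ = 4 * (pp l ^ 2 * Fintype.card (Om n l)) := by field_simp
    _ = _ := by
        rw [sum_const, card_univ, nsmul_eq_mul]
        have : (Fintype.card (Cube n) : ℝ) = 2 ^ n := by simp
        rw [this]; ring

/-- many letters `0`, `1` in bad cells: unlikely -/
theorem card_bad (hk : k < n) {b : ℝ} (hb : 0 < b) :
    ((univ.filter fun w : Om n l => b < bad k w).card : ℝ) ≤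
      4 * pp l ^ 2 * 2 ^ n / b * Fintype.card (Om n l) := by
  have h1 : ((univ.filter fun w : Om n l => b < bad k w).card : ℝ) * b ≤
      ∑ w : Om n l, (bad k w : ℝ) := by
    rw [← nsmul_eq_mul, ← sum_const, sum_filter]
    apply sum_le_sum
    intro w _
    split_ifs with h
    · exact h.le
    · positivity
  have h2 := h1.trans (sum_bad hk)
  rw [div_mul_eq_mul_div, le_div_iff₀ hb]
  exact h2

end Pool.Agent.Work.MP_8f25a0_lc.Full
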