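import Pool.Agent.Work.MP_8f25a0_lc.Full.Base

/-!
# Full reading: sparse noise on the parity of the first `k` variables
-/

namespace Pool.Agent.Work.MP_8f25a0_lc.Full

open Finset

variable {n k : ℕ}

/-- the parity of the first `k` variables -/
def g0 (k : ℕ) (x : Cube n) : Bool :=
  decide (Even (univ.filter fun i : Fin n => (i : ℕ) < k ∧ x i = true).card)

theorem g0_flip {i : Fin n} (hi : (i : ℕ) < k) (x : Cube n) : g0 k (flip i x) = !(g0 k x) := by
  have key : Even (univ.filter fun j : Fin n => (j : ℕ) < k ∧ (flip i x) j = true).card ↔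
      ¬ Even (univ.filter fun j : Fin n => (j : ℕ) < k ∧ x j = true).card := by
    unfold flip
    rcases Bool.eq_false_or_eq_true (x i) with h | h
    · have h1 : (univ.filter fun j : Fin n => (j : ℕ) < k ∧ x j = true) =
          insert i (univ.filter fun j : Fin n => (j : ℕ) < k ∧
            Function.update x i (!x i) j = true) := by
        ext j
        by_cases hj : j = i
        · subst hj; simp [h, hi]
        · simp [hj]
      have h2 : i ∉ (univ.filter fun j : Fin n => (j : ℕ) < k ∧
            Function.update x i (!x i) j = true) := by simp [h]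
      rw [h1, card_insert_of_notMem h2, Nat.even_add_one, not_not]
    · have h1 : (univ.filter fun j : Fin n => (j : ℕ) < k ∧
            Function.update x i (!x i) j = true) =
          insert i (univ.filter fun j : Fin n => (j : ℕ) < k ∧ x j = true) := by
        ext j
        by_cases hj : j = i
        · subst hj; simp [h, hi]
        · simp [hj]
      have h2 : i ∉ (univ.filter fun j : Fin n => (j : ℕ) < k ∧ x j = true) := by simp [h]
      rw [h1, card_insert_of_notMem h2, Nat.even_add_one]
  unfold g0
  by_cases h : Even (univ.filter fun j : Fin n => (j : ℕ) < k ∧ x j = true).card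
  · rw [decide_eq_true h]
    rw [decide_eq_false (by rw [key]; exact fun h' => h' h)]
    rfl
  · rw [decide_eq_false h, decide_eq_true (key.mpr h)]
    rfl

/-- `g` depends only on the first `k` variables -/
def JJ (k : ℕ) (g : Cube n → Bool) : Prop :=
  ∀ x y : Cube n, (∀ i : Fin n, (i : ℕ) < k → x i = y i) → g x = g y

theorem g0_JJ : JJ k (g0 k : Cube n → Bool) := by
  intro x y h
  unfold g0
  have : (univ.filter fun i : Fin n => (i : ℕ) < k ∧ x i = true) =
      (univ.filter fun i : Fin n => (i : ℕ) < k ∧ y i = true) := by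
    ext i
    simp only [mem_filter, mem_univ, true_and]
    constructor
    · rintro ⟨h1, h2⟩; exact ⟨h1, by rw [← h i h1]; exact h2⟩
    · rintro ⟨h1, h2⟩; exact ⟨h1, by rw [h i h1]; exact h2⟩
  rw [this]

/-- the set of the first `k` variables -/
def Jst (n k : ℕ) : Finset (Fin n) := univ.filter fun i : Fin n => (i : ℕ) < k

theorem card_Jst (hk : k ≤ n) : (Jst n k).card = k := by
  unfold Jst
  have h : (univ.filter fun i : Fin n => (i : ℕ) < k) =
      (univ : Finset (Fin k)).map (Fin.castLEEmb hk) := by
    ext i
    simp only [mem_filter, mem_univ, true_and, mem_map]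
    constructor
    · intro hi
      exact ⟨⟨i, hi⟩, by ext; simp⟩
    · rintro ⟨j, hj⟩
      rw [← hj]
      simp
  rw [h, card_map, card_univ, Fintype.card_fin]

theorem JJ.isJunta (hk : k ≤ n) {g : Cube n → Bool} (hg : JJ k g) : IsJunta k g := by
  refine ⟨Jst n k, (card_Jst hk).le, ?_⟩
  intro x y h
  apply hg
  intro i hi
  exact h i (by simp [Jst, hi])

/-- the inputs that agree with `x` in the first `k` variables -/
def cell (k : ℕ) (x : Cube n) : Finset (Cube n) :=
  univ.filter fun y => ∀ i : Fin n, (i : ℕ) < k → y i = x i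

theorem mem_cell {x y : Cube n} : y ∈ cell k x ↔ ∀ i : Fin n, (i : ℕ) < k → y i = x i := by
  simp [cell]

theorem self_mem_cell (x : Cube n) : x ∈ cell k x := by simp [cell]

theorem cell_eq {x y : Cube n} (h : y ∈ cell k x) : cell k y = cell k x := by
  rw [mem_cell] at h
  ext z
  simp only [mem_cell]
  constructor
  · intro h1 i hi; rw [h1 i hi, h i hi]
  · intro h1 i hi; rw [h1 i hi, h i hi]

theorem mem_cell_comm {x y : Cube n} : y ∈ cell k x ↔ x ∈ cell k y := by
  simp only [mem_cell]
  constructor
  · intro h i hi; exact (h i hi).symm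
  · intro h i hi; exact (h i hi).symm

theorem cell_pos (x : Cube n) : 0 < (cell k x).card := card_pos.mpr ⟨x, self_mem_cell x⟩

/-- averaging over the cells -/
theorem sum_cell (φ : Cube n → ℝ) :
    ∑ x, (∑ y ∈ cell k x, φ y) / (cell k x).card = ∑ y, φ y := by
  calc ∑ x, (∑ y ∈ cell k x, φ y) / (cell k x).card
      = ∑ x, ∑ y, if y ∈ cell k x then φ y / (cell k x).card else 0 := by
        apply sum_congr rfl
        intro x _
        rw [sum_div, ← sum_filter]
        apply sum_congr _ (fun _ _ => rfl)
        ext y; simp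
    _ = ∑ y, ∑ x, if y ∈ cell k x then φ y / (cell k x).card else 0 := sum_comm
    _ = ∑ y, φ y := by
        apply sum_congr rfl
        intro y _
        rw [← sum_filter]
        have h1 : (univ.filter fun x => y ∈ cell k x) = cell k y := by
          ext x; simp [mem_cell_comm (x := x) (y := y)]
        rw [h1]
        have h2 : ∀ x ∈ cell k y, φ y / ((cell k x).card : ℝ) = φ y / (cell k y).card := by
          intro x hx; rw [cell_eq hx]
        rw [sum_congr rfl h2, sum_const, nsmul_eq_mul]
        have : (0 : ℝ) < (cell k y).card := by exact_mod_cast cell_pos y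
        field_simp

/-- the cell of `x` contains few points of `T` -/
def Good (k : ℕ) (T : Finset (Cube n)) (x : Cube n) : Prop :=
  2 * (T ∩ cell k x).card ≤ (cell k x).card

instance (T : Finset (Cube n)) : DecidablePred (Good k T) := fun _ => Nat.decLe _ _

theorem Good_congr {T : Finset (Cube n)} {x y : Cube n} (h : y ∈ cell k x) :
    Good k T y ↔ Good k T x := by
  unfold Good; rw [cell_eq h]

/-- the parity with noise on the set `O` -/
def ff (k : ℕ) (O : Finset (Cube n)) (x : Cube n) : Bool :=
  xor (g0 k x) (decide (x ∈ O))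

theorem ff_ne_g0 {O : Finset (Cube n)} {x : Cube n} : ff k O x ≠ g0 k x ↔ x ∈ O := by
  unfold ff
  by_cases h : x ∈ O
  · simp [h]
  · simp [h]

theorem ff_ne_not {O : Finset (Cube n)} {x : Cube n} : ff k O x ≠ !(g0 k x) ↔ x ∉ O := by
  unfold ff
  by_cases h : x ∈ O
  · simp [h]
  · simp [h]

/-- number of disagreements -/
def dd (f g : Cube n → Bool) : ℕ := (univ.filter fun x => f x ≠ g x).card

theorem dd_eq_sum (f g : Cube n → Bool) : (dd f g : ℝ) = ∑ x, if f x ≠ g x then (1 : ℝ) else 0 := by
  unfold dd
  rw [← sum_filter, sum_const, nsmul_eq_mul, mul_one]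

theorem dd_g0 (O : Finset (Cube n)) : dd (ff k O) (g0 k) = O.card := by
  unfold dd
  congr 1
  ext x
  simp only [mem_filter, mem_univ, true_and]
  exact ff_ne_g0

open Classical in
/-- replacing a junta by the parity on the good cells -/
theorem replace_good {T O : Finset (Cube n)} (hO : O ⊆ T) {g : Cube n → Bool} (hg : JJ k g) :
    JJ k (fun x => if Good k T x then g0 k x else g x) ∧
      dd (ff k O) (fun x => if Good k T x then g0 k x else g x) ≤ dd (ff k O) g := by
  constructor
  · intro x y h
    have hy : y ∈ cell k x := mem_cell.mpr fun i hi => (h i hi).symm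
    have h1 := Good_congr (T := T) hy
    simp only
    rw [g0_JJ x y h, hg x y h]
    by_cases h2 : Good k T x
    · rw [if_pos h2, if_pos (h1.mpr h2)]
    · rw [if_neg h2, if_neg (fun h3 => h2 (h1.mp h3))]
  · have key : (dd (ff k O) (fun x => if Good k T x then g0 k x else g x) : ℝ) ≤
        dd (ff k O) g := by
      rw [dd_eq_sum, dd_eq_sum, ← sum_cell (k := k), ← sum_cell (k := k)
        (fun y => if ff k O y ≠ g y then (1 : ℝ) else 0)]
      apply sum_le_sum
      intro x _
      apply div_le_div_of_nonneg_right _ (by positivity)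
      by_cases hx : Good k T x
      · have e1 : ∑ y ∈ cell k x, (if ff k O y ≠ (if Good k T y then g0 k y else g y)
            then (1 : ℝ) else 0) = (O ∩ cell k x).card := by
          rw [← sum_filter, sum_const, nsmul_eq_mul, mul_one]
          congr 2
          ext y
          simp only [mem_filter, mem_inter]
          constructor
          · rintro ⟨h1, h2⟩
            rw [if_pos ((Good_congr h1).mpr hx)] at h2
            exact ⟨ff_ne_g0.mp h2, h1⟩
          · rintro ⟨h1, h2⟩
            refine ⟨h2, ?_⟩
            rw [if_pos ((Good_congr h2).mpr hx)]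
            exact ff_ne_g0.mpr h1
        rw [e1]
        by_cases hgx : g x = g0 k x
        · have e2 : ∑ y ∈ cell k x, (if ff k O y ≠ g y then (1 : ℝ) else 0) =
              (O ∩ cell k x).card := by
            rw [← sum_filter, sum_const, nsmul_eq_mul, mul_one]
            congr 2
            ext y
            simp only [mem_filter, mem_inter]
            constructor
            · rintro ⟨h1, h2⟩
              rw [hg y x (mem_cell.mp h1), hgx, ← g0_JJ y x (mem_cell.mp h1)] at h2
              exact ⟨ff_ne_g0.mp h2, h1⟩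
            · rintro ⟨h1, h2⟩
              refine ⟨h2, ?_⟩
              rw [hg y x (mem_cell.mp h2), hgx, ← g0_JJ y x (mem_cell.mp h2)]
              exact ff_ne_g0.mpr h1
          rw [e2]
        · have hgx' : g x = !(g0 k x) := by
            revert hgx
            cases g x <;> cases g0 k x <;> simp
          have e2 : ∑ y ∈ cell k x, (if ff k O y ≠ g y then (1 : ℝ) else 0) =
              (cell k x \ O).card := by
            rw [← sum_filter, sum_const, nsmul_eq_mul, mul_one]
            congr 2
            ext y
            simp only [mem_filter, mem_sdiff]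
            constructor
            · rintro ⟨h1, h2⟩
              rw [hg y x (mem_cell.mp h1), hgx', ← g0_JJ y x (mem_cell.mp h1)] at h2
              exact ⟨h1, ff_ne_not.mp h2⟩
            · rintro ⟨h1, h2⟩
              refine ⟨h1, ?_⟩
              rw [hg y x (mem_cell.mp h1), hgx', ← g0_JJ y x (mem_cell.mp h1)]
              exact ff_ne_not.mpr h2
          rw [e2]
          have h3 : (O ∩ cell k x).card ≤ (T ∩ cell k x).card :=
            card_le_card (inter_subset_inter hO (subset_refl _))
          have h4 : (cell k x \ O).card + (O ∩ cell k x).card = (cell k x).card := by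
            rw [inter_comm O]
            exact card_sdiff_add_card_inter _ _
          unfold Good at hx
          have h5 : (O ∩ cell k x).card ≤ (cell k x \ O).card := by omega
          exact_mod_cast h5
      · apply le_of_eq
        apply sum_congr rfl
        intro y hy
        rw [if_neg (fun h => hx ((Good_congr hy).mp h))]
    exact_mod_cast key

/-- every junta is beaten by a junta on the first `k` variables -/
theorem replace_JJ (hk : k ≤ n) {O : Finset (Cube n)} (hO : 4 * O.card ≤ 2 ^ n)
    {g : Cube n → Bool} (hg : IsJunta k g) :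
    ∃ g' : Cube n → Bool, JJ k g' ∧ dd (ff k O) g' ≤ dd (ff k O) g := by
  obtain ⟨J, hJ, hgJ⟩ := hg
  by_cases hsub : J ⊆ Jst n k
  · refine ⟨g, ?_, le_refl _⟩
    intro x y h
    apply hgJ
    intro i hi
    have := hsub hi
    simp only [Jst, mem_filter, mem_univ, true_and] at this
    exact h i this
  · obtain ⟨i, hi1, hi2⟩ : ∃ i ∈ Jst n k, i ∉ J := by
      by_contra hcon
      push Not at hcon
      have h1 : Jst n k ⊆ J := fun i hi => hcon i hi
      have h2 : Jst n k = J := eq_of_subset_of_card_le h1 (by rw [card_Jst hk]; exact hJ)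
      exact hsub (by rw [h2])
    have hik : (i : ℕ) < k := by simpa [Jst] using hi1
    refine ⟨g0 k, g0_JJ, ?_⟩
    rw [dd_g0]
    have hgf : ∀ x, g (flip i x) = g x := by
      intro x
      apply hgJ
      intro j hj
      unfold flip
      rw [Function.update_of_ne]
      rintro rfl
      exact hi2 hj
    have h3 : ∀ F : Cube n → ℝ, ∑ x, F (flip i x) = ∑ x, F x := fun F =>
      (flip_bijective i).sum_comp F
    have h4 : ∑ x : Cube n, ((1 : ℝ) - (if x ∈ O then (1 : ℝ) else 0) -
        (if flip i x ∈ O then (1 : ℝ) else 0)) ≤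
        ∑ x, ((if ff k O x ≠ g x then (1 : ℝ) else 0) +
          (if ff k O (flip i x) ≠ g (flip i x) then 1 else 0)) := by
      apply sum_le_sum
      intro x _
      rw [hgf]
      unfold ff
      rw [g0_flip hik]
      by_cases h1 : x ∈ O <;> by_cases h2 : flip i x ∈ O <;> cases g0 k x <;> cases g x <;>
        simp [h1, h2]
    rw [sum_add_distrib, h3 (fun x => if ff k O x ≠ g x then (1 : ℝ) else 0), ← dd_eq_sum,
      sum_sub_distrib, sum_sub_distrib, h3 (fun x => if x ∈ O then (1 : ℝ) else 0)] at h4
    have h5 : ∑ x : Cube n, (if x ∈ O then (1 : ℝ) else 0) = O.card := by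
      rw [← sum_filter, sum_const, nsmul_eq_mul, mul_one]
      congr 2
      ext x; simp
    have h6 : ∑ _x : Cube n, (1 : ℝ) = 2 ^ n := by simp
    rw [h5, h6] at h4
    have h7 : (4 : ℝ) * O.card ≤ 2 ^ n := by exact_mod_cast hO
    have h8 : (O.card : ℝ) ≤ dd (ff k O) g := by linarith
    exact_mod_cast h8

open Classical in
theorem exists_good_opt (hk : k ≤ n) {T O : Finset (Cube n)} (hO : O ⊆ T)
    (hT : 4 * T.card ≤ 2 ^ n) : ∃ g, IsJunta k g ∧ (∀ x, Good k T x → g x = g0 k x) ∧
      distK k (ff k O) * 2 ^ n = dd (ff k O) g := by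
  obtain ⟨g, hg, h⟩ := exists_nat_distK k (ff k O)
  obtain ⟨g1, hg1, h1⟩ := replace_JJ hk (O := O) (by have := card_le_card hO; omega) hg
  obtain ⟨h2, h3⟩ := replace_good hO hg1
  refine ⟨_, h2.isJunta hk, fun x hx => by simp [hx], ?_⟩
  apply le_antisymm
  · have h4 := distK_le (f := ff k O) (h2.isJunta hk)
    unfold dist at h4
    rw [le_div_iff₀ (by positivity)] at h4
    exact h4
  · rw [h]
    have h5 := h3.trans h1
    exact_mod_cast h5

theorem distK_sub_le (hk : k ≤ n) {T O O' : Finset (Cube n)} (hO : O ⊆ T)
    (hT : 4 * T.card ≤ 2 ^ n) (h : ∀ x, (x ∈ O ↔ x ∈ O') ∨ Good k T x) :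
    distK k (ff k O') * 2 ^ n - distK k (ff k O) * 2 ^ n ≤ (O'.card : ℝ) - O.card := by
  obtain ⟨g, hg, hgg, hd⟩ := exists_good_opt hk hO hT
  have h1 := distK_le (f := ff k O') hg
  unfold dist at h1
  rw [le_div_iff₀ (by positivity)] at h1
  have h2 : (dd (ff k O') g : ℝ) - dd (ff k O) g = (O'.card : ℝ) - O.card := by
    have e5 : ∀ O : Finset (Cube n), ∑ x : Cube n, (if x ∈ O then (1 : ℝ) else 0) = O.card := by
      intro O
      rw [← sum_filter, sum_const, nsmul_eq_mul, mul_one]
      congr 2
      ext x; simp
    rw [dd_eq_sum, dd_eq_sum, ← e5, ← e5, ← sum_sub_distrib, ← sum_sub_distrib]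
    apply sum_congr rfl
    intro x _
    rcases h x with h3 | h3
    · have : ff k O' x = ff k O x := by
        unfold ff
        by_cases h4 : x ∈ O
        · have h5 := h3.mp h4; simp [h4, h5]
        · have h5 : x ∉ O' := fun h6 => h4 (h3.mpr h6); simp [h4, h5]
      rw [this]
      by_cases h4 : x ∈ O
      · have h5 := h3.mp h4; simp [h4, h5]
      · have h5 : x ∉ O' := fun h6 => h4 (h3.mpr h6); simp [h4, h5]
    · rw [hgg x h3]
      simp only [ff_ne_g0]
  rw [hd]
  unfold dd at h2 ⊢
  linarith

theorem distK_sub (hk : k ≤ n) {T O O' : Finset (Cube n)} (hO : O ⊆ T) (hO' : O' ⊆ T)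
    (hT : 4 * T.card ≤ 2 ^ n) (h : ∀ x, (x ∈ O ↔ x ∈ O') ∨ Good k T x) :
    distK k (ff k O') * 2 ^ n - distK k (ff k O) * 2 ^ n = (O'.card : ℝ) - O.card := by
  have h1 := distK_sub_le hk hO hT h
  have h2 := distK_sub_le hk hO' hT (fun x => (h x).imp Iff.symm id)
  linarith

end Pool.Agent.Work.MP_8f25a0_lc.Full
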