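import Pool.Agent.Work.MP_8f25a0_lc.Full.Prob
import Pool.Agent.Work.MP_8f25a0_lc.Full.Bin

/-!
# Full reading: swapping the letters `0` and `1`
-/

namespace Pool.Agent.Work.MP_8f25a0_lc.Full

open Finset

variable {n k l : ℕ}

/-- swap the letters `0` and `1` on `e` -/
def sw (e : Finset (Cube n)) (w : Om n l) : Om n l :=
  fun x => if x ∈ e then Equiv.swap 0 1 (w x) else w x

theorem sw_sw (e : Finset (Cube n)) (w : Om n l) : sw e (sw e w) = w := by
  funext x
  unfold sw
  by_cases h : x ∈ e <;> simp [h]

/-- the positions of the letter `1` -/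
def OO (w : Om n l) : Finset (Cube n) := univ.filter fun x => w x = 1

theorem mem_TT {w : Om n l} {x : Cube n} : x ∈ TT w ↔ w x = 0 ∨ w x = 1 := by
  unfold TT
  simp only [mem_filter, mem_univ, true_and]
  constructor
  · intro h
    have h1 : (w x : ℕ) = 0 ∨ (w x : ℕ) = 1 := by omega
    rcases h1 with h1 | h1
    · left; ext; simpa using h1
    · right; ext; simpa using h1
  · rintro (h | h)
    · rw [h]; simp
    · rw [h]; simp

theorem mem_OO {w : Om n l} {x : Cube n} : x ∈ OO w ↔ w x = 1 := by simp [OO]

theorem OO_subset (w : Om n l) : OO w ⊆ TT w := by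
  intro x hx
  rw [mem_OO] at hx
  rw [mem_TT]; right; exact hx

theorem TT_sw (e : Finset (Cube n)) (w : Om n l) : TT (sw e w) = TT w := by
  ext x
  rw [mem_TT, mem_TT]
  unfold sw
  by_cases h : x ∈ e
  · rw [if_pos h]
    constructor
    · rintro (h1 | h1)
      · right
        have := congrArg (Equiv.swap 0 1) h1
        simpa using this
      · left
        have := congrArg (Equiv.swap 0 1) h1
        simpa using this
    · rintro (h1 | h1)
      · right; rw [h1]; simp
      · left; rw [h1]; simp
  · rw [if_neg h]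

theorem OO_sw {e : Finset (Cube n)} {w : Om n l} (he : e ⊆ TT w) :
    OO (sw e w) = symmDiff (OO w) e := by
  ext x
  rw [mem_symmDiff, mem_OO, mem_OO]
  unfold sw
  by_cases h : x ∈ e
  · rw [if_pos h]
    have h1 := mem_TT.mp (he h)
    have h01 : (0 : Fin (l + 2)) ≠ 1 := by
      intro h2
      have := congrArg Fin.val h2
      simp at this
    rcases h1 with h1 | h1
    · rw [h1]; simp [h, h01]
    · rw [h1]; simp [h, h01]
  · rw [if_neg h]
    simp [h]

/-- averaging over the swaps -/
theorem fiber_avg (S : Om n l → Finset (Cube n)) (hS : ∀ w, ∀ e ⊆ S w, S (sw e w) = S w)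
    (F : Om n l → ℝ) :
    ∑ w, (∑ e ∈ (S w).powerset, F (sw e w)) / 2 ^ (S w).card = ∑ w, F w := by
  classical
  have hiff : ∀ w (e : Finset (Cube n)), e ⊆ S (sw e w) ↔ e ⊆ S w := by
    intro w e
    constructor
    · intro h
      have h1 := hS (sw e w) e h
      rw [sw_sw] at h1
      rw [h1]; exact h
    · intro h
      rw [hS w e h]; exact h
  calc ∑ w, (∑ e ∈ (S w).powerset, F (sw e w)) / 2 ^ (S w).card
      = ∑ w, ∑ e : Finset (Cube n), if e ⊆ S w then F (sw e w) / 2 ^ (S w).card else 0 := by
        apply sum_congr rfl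
        intro w _
        rw [sum_div, ← sum_filter]
        apply sum_congr _ (fun _ _ => rfl)
        ext e; simp
    _ = ∑ e : Finset (Cube n), ∑ w, if e ⊆ S w then F (sw e w) / 2 ^ (S w).card else 0 :=
        sum_comm
    _ = ∑ e : Finset (Cube n), ∑ w, if e ⊆ S w then F w / 2 ^ (S w).card else 0 := by
        apply sum_congr rfl
        intro e _
        have hinv : Function.Involutive (sw e : Om n l → Om n l) := sw_sw e
        rw [← hinv.bijective.sum_comp (fun w => if e ⊆ S w then F w / 2 ^ (S w).card else 0)]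
        apply sum_congr rfl
        intro w _
        by_cases h : e ⊆ S w
        · rw [if_pos h, if_pos ((hiff w e).mpr h), hS w e h]
        · rw [if_neg h, if_neg (fun h1 => h ((hiff w e).mp h1))]
    _ = ∑ w, ∑ e : Finset (Cube n), if e ⊆ S w then F w / 2 ^ (S w).card else 0 := sum_comm
    _ = ∑ w, F w := by
        apply sum_congr rfl
        intro w _
        rw [← sum_filter, sum_const, nsmul_eq_mul]
        have h1 : (univ.filter fun e => e ⊆ S w) = (S w).powerset := by ext e; simp
        rw [h1, card_powerset]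
        push_cast
        field_simp

/-- the unasked inputs -/
def UU (k : ℕ) (R : Tree n) (w : Om n l) : Finset (Cube n) := (queried (ff k (OO w)) R)ᶜ

theorem ff_congr {O O' : Finset (Cube n)} {x : Cube n} (h : x ∈ O ↔ x ∈ O') :
    ff k O x = ff k O' x := by
  unfold ff
  by_cases h1 : x ∈ O
  · simp [h1, h.mp h1]
  · have h2 : x ∉ O' := fun h3 => h1 (h.mpr h3)
    simp [h1, h2]

theorem UU_update (R : Tree n) (w : Om n l) (x : Cube n) (a : Fin (l + 2))
    (hx : x ∈ UU k R w) : UU k R (Function.update w x a) = UU k R w := by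
  unfold UU at hx ⊢
  rw [mem_compl] at hx
  congr 1
  refine (queried_congr R ?_).1
  intro y hy
  have hyx : y ≠ x := by rintro rfl; exact hx hy
  apply ff_congr
  rw [mem_OO, mem_OO, Function.update_of_ne hyx]

/-- the free unasked inputs in good cells -/
noncomputable def SS (k : ℕ) (R : Tree n) (w : Om n l) : Finset (Cube n) :=
  (TT w ∩ UU k R w).filter fun x => Good k (TT w) x

theorem SS_subset_TT {R : Tree n} {w : Om n l} : SS k R w ⊆ TT w := fun _ hx =>
  (mem_inter.mp (mem_filter.mp hx).1).1

theorem eval_sw (R : Tree n) (w : Om n l) {e : Finset (Cube n)} (he : e ⊆ SS k R w) :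
    queried (ff k (OO (sw e w))) R = queried (ff k (OO w)) R ∧
      R.eval (ff k (OO (sw e w))) = R.eval (ff k (OO w)) := by
  apply queried_congr
  intro y hy
  apply ff_congr
  rw [OO_sw (he.trans SS_subset_TT), mem_symmDiff]
  have hye : y ∉ e := by
    intro h
    have h1 := (mem_inter.mp (mem_filter.mp (he h)).1).2
    unfold UU at h1
    rw [mem_compl] at h1
    exact h1 hy
  simp [hye]

theorem SS_sw (R : Tree n) (w : Om n l) (e : Finset (Cube n)) (he : e ⊆ SS k R w) :
    SS k R (sw e w) = SS k R w := by
  unfold SS UU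
  rw [TT_sw, (eval_sw R w he).1]

/-- success of the algorithm -/
noncomputable def suc (k : ℕ) (ε : ℝ) (R : Tree n) (w : Om n l) : ℝ :=
  if |R.eval (ff k (OO w)) - distK k (ff k (OO w))| ≤ ε then 1 else 0

theorem suc_le_one (ε : ℝ) (R : Tree n) (w : Om n l) : suc k ε R w ≤ 1 := by
  unfold suc; split_ifs <;> norm_num

theorem suc_nonneg (ε : ℝ) (R : Tree n) (w : Om n l) : 0 ≤ suc k ε R w := by
  unfold suc; split_ifs <;> norm_num

theorem fiber_bound (hk : k ≤ n) {ε : ℝ} (hε : 0 ≤ ε) (R : Tree n) (w : Om n l)
    (hT : 4 * (TT w).card ≤ 2 ^ n) :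
    ∑ e ∈ (SS k R w).powerset, suc k ε R (sw e w) ≤
      (2 * (ε * 2 ^ n) + 1) * (2 ^ (SS k R w).card / √(((SS k R w).card : ℝ) + 1)) := by
  classical
  set S := SS k R w with hS
  set a := OO w ∩ S with ha
  set c : ℝ := (R.eval (ff k (OO w)) - distK k (ff k (OO w))) * 2 ^ n + (OO w).card -
    (OO w \ S).card with hc
  refine le_trans (sum_le_sum ?_) (sum_subsets S a inter_subset_right c
    (δ := ε * 2 ^ n) (by positivity))
  intro e he
  rw [mem_powerset] at he
  unfold suc
  split_ifs with h1 h2
  · exact le_refl _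
  · exfalso
    apply h2
    rw [(eval_sw R w he).2] at h1
    have heT : e ⊆ TT w := he.trans SS_subset_TT
    have hd := distK_sub (k := k) hk (O := OO w) (O' := OO (sw e w)) (OO_subset w)
      (by rw [← TT_sw e w]; exact OO_subset _) hT (by
        intro x
        by_cases hx : x ∈ e
        · right; exact (mem_filter.mp (he hx)).2
        · left
          rw [OO_sw heT, mem_symmDiff]
          simp [hx])
    have hcard : (OO (sw e w)).card = (OO w \ S).card + (symmDiff a e).card := by
      rw [OO_sw heT, ← card_union_of_disjoint]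
      · congr 1
        ext x
        simp only [mem_symmDiff, mem_union, mem_sdiff, ha, mem_inter]
        have := @he x
        tauto
      · rw [disjoint_left]
        intro x hx hx2
        simp only [mem_symmDiff, mem_sdiff, ha, mem_inter] at hx hx2
        have := @he x
        tauto
    rw [hcard] at hd
    push_cast at hd
    have e1 : c - ((symmDiff a e).card : ℝ) =
        (R.eval (ff k (OO w)) - distK k (ff k (OO (sw e w)))) * 2 ^ n := by
      rw [hc]
      linarith
    rw [e1, abs_mul, abs_of_pos (show (0 : ℝ) < 2 ^ n by positivity)]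
    exact mul_le_mul_of_nonneg_right h1 (by positivity)
  · norm_num
  · exact le_refl _

theorem card_SS_ge (R : Tree n) (w : Om n l) :
    ∑ x ∈ UU k R w, tau (w x) ≤ (SS k R w).card + bad k w := by
  rw [← card_TT_inter]
  have h1 : (TT w ∩ UU k R w).card = (SS k R w).card +
      ((TT w ∩ UU k R w).filter fun x => ¬ Good k (TT w) x).card :=
    (card_filter_add_card_filter_not (s := TT w ∩ UU k R w) (fun x => Good k (TT w) x)).symm
  have h2 : ((TT w ∩ UU k R w).filter fun x => ¬ Good k (TT w) x).card ≤ bad k w := by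
    unfold bad
    apply card_le_card
    exact filter_subset_filter _ inter_subset_left
  have h3 : (TT w ∩ UU k R w).card ≤ (SS k R w).card + bad k w := by omega
  exact_mod_cast h3

/-- the success probability of a tree that leaves `m` inputs unasked -/
theorem sum_suc (hk : k < n) {ε : ℝ} (hε : 0 ≤ ε) (R : Tree n) {m : ℝ} (hm : 0 < m)
    (hR : ∀ w : Om n l, m ≤ (UU k R w).card) :
    ∑ w : Om n l, suc k ε R w ≤ (4 * pp l + 4 / (pp l * m) + 16 * pp l * 2 ^ n / m +
      (2 * (ε * 2 ^ n) + 1) / √(pp l * m / 4)) * Fintype.card (Om n l) := by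
  classical
  have hp := pp_pos (l := l)
  set s0 : ℝ := pp l * m / 4 with hs0
  have hs0p : 0 < s0 := by positivity
  set F : Om n l → ℝ := fun w =>
    if 4 * (TT w).card ≤ 2 ^ n ∧ s0 ≤ (SS k R w).card then suc k ε R w else 0 with hF
  have h1 : ∀ w : Om n l, suc k ε R w ≤ F w +
      ((if ¬ 4 * (TT w).card ≤ 2 ^ n then (1 : ℝ) else 0) +
      (if ∑ x ∈ UU k R w, tau (w x) < pp l / 2 * (UU k R w).card then (1 : ℝ) else 0) +
      (if s0 < bad k w then (1 : ℝ) else 0)) := by
    intro w
    have hle := suc_le_one (k := k) ε R w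
    have e3 : (0 : ℝ) ≤ (if ¬ 4 * (TT w).card ≤ 2 ^ n then (1 : ℝ) else 0) := by
      split_ifs <;> norm_num
    have e4 : (0 : ℝ) ≤ (if ∑ x ∈ UU k R w, tau (w x) < pp l / 2 * (UU k R w).card
        then (1 : ℝ) else 0) := by
      split_ifs <;> norm_num
    have e5 : (0 : ℝ) ≤ (if s0 < bad k w then (1 : ℝ) else 0) := by
      split_ifs <;> norm_num
    by_cases hg : 4 * (TT w).card ≤ 2 ^ n ∧ s0 ≤ (SS k R w).card
    · have : F w = suc k ε R w := by simp only [hF]; rw [if_pos hg]
      rw [this]
      linarith
    · have : F w = 0 := by simp only [hF]; rw [if_neg hg]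
      rw [this]
      by_cases ha : 4 * (TT w).card ≤ 2 ^ n
      · have hb : ((SS k R w).card : ℝ) < s0 := by
          by_contra hcon
          exact hg ⟨ha, not_lt.mp hcon⟩
        by_cases hc : ∑ x ∈ UU k R w, tau (w x) < pp l / 2 * (UU k R w).card
        · rw [if_pos hc]
          linarith
        · have hd : s0 < bad k w := by
            have h2 := card_SS_ge (k := k) R w
            have h3 := not_lt.mp hc
            have h4 : pp l / 2 * m ≤ pp l / 2 * (UU k R w).card :=
              mul_le_mul_of_nonneg_left (hR w) (by positivity)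
            have h5 : pp l / 2 * m = 2 * s0 := by rw [hs0]; ring
            linarith
          rw [if_pos hd]
          linarith
      · rw [if_pos ha]
        linarith
  have h2 : ∑ w : Om n l, F w ≤ (2 * (ε * 2 ^ n) + 1) / √s0 * Fintype.card (Om n l) := by
    rw [← fiber_avg (fun w => SS k R w) (fun w e he => SS_sw R w e he) F]
    calc ∑ w, (∑ e ∈ (SS k R w).powerset, F (sw e w)) / 2 ^ (SS k R w).card
        ≤ ∑ _w : Om n l, (2 * (ε * 2 ^ n) + 1) / √s0 := by
          apply sum_le_sum
          intro w _
          by_cases hg : 4 * (TT w).card ≤ 2 ^ n ∧ s0 ≤ (SS k R w).card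
          · have e1 : ∑ e ∈ (SS k R w).powerset, F (sw e w) ≤
                ∑ e ∈ (SS k R w).powerset, suc k ε R (sw e w) := by
              apply sum_le_sum
              intro e _
              simp only [hF]
              split_ifs
              · exact le_refl _
              · exact suc_nonneg _ _ _
            have e2 := e1.trans (fiber_bound hk.le hε R w hg.1)
            rw [div_le_iff₀ (by positivity)]
            refine e2.trans ?_
            have e3 : √s0 ≤ √(((SS k R w).card : ℝ) + 1) := Real.sqrt_le_sqrt (by linarith [hg.2])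
            have e4 : 0 < √s0 := Real.sqrt_pos.mpr hs0p
            have e5 : (0 : ℝ) ≤ 2 * (ε * 2 ^ n) + 1 := by positivity
            calc (2 * (ε * 2 ^ n) + 1) * (2 ^ (SS k R w).card / √(((SS k R w).card : ℝ) + 1))
                ≤ (2 * (ε * 2 ^ n) + 1) * (2 ^ (SS k R w).card / √s0) := by
                  apply mul_le_mul_of_nonneg_left _ e5
                  apply div_le_div_of_nonneg_left (by positivity) e4 e3
              _ = _ := by ring
          · have e1 : ∑ e ∈ (SS k R w).powerset, F (sw e w) = 0 := by
              apply sum_eq_zero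
              intro e he
              rw [mem_powerset] at he
              simp only [hF]
              rw [if_neg]
              rw [TT_sw, SS_sw R w e he]
              exact hg
            rw [e1, zero_div]
            positivity
      _ = _ := by rw [sum_const, card_univ, nsmul_eq_mul]; ring
  have h3 := card_many (n := n) (l := l)
  have h4 := card_few (n := n) (l := l) (U := UU k R) (fun w x a hx => UU_update R w x a hx) hm hR
  have h5 := card_bad (n := n) (l := l) hk hs0p
  have h6 := sum_le_sum (fun w (_ : w ∈ (univ : Finset (Om n l))) => h1 w)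
  rw [sum_add_distrib, sum_add_distrib, sum_add_distrib] at h6
  have c3 : ∑ w : Om n l, (if ¬ 4 * (TT w).card ≤ 2 ^ n then (1 : ℝ) else 0) =
      ((univ.filter fun w : Om n l => ¬ 4 * (TT w).card ≤ 2 ^ n).card : ℝ) := by
    rw [← sum_filter, sum_const, nsmul_eq_mul, mul_one]
  have c4 : ∑ w : Om n l, (if ∑ x ∈ UU k R w, tau (w x) < pp l / 2 * (UU k R w).card
      then (1 : ℝ) else 0) = ((univ.filter fun w : Om n l =>
      ∑ x ∈ UU k R w, tau (w x) < pp l / 2 * (UU k R w).card).card : ℝ) := by
    rw [← sum_filter, sum_const, nsmul_eq_mul, mul_one]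
  have c5 : ∑ w : Om n l, (if s0 < bad k w then (1 : ℝ) else 0) =
      ((univ.filter fun w : Om n l => s0 < bad k w).card : ℝ) := by
    rw [← sum_filter, sum_const, nsmul_eq_mul, mul_one]
  rw [c3, c4, c5] at h6
  have h7 : 4 * pp l ^ 2 * 2 ^ n / s0 = 16 * pp l * 2 ^ n / m := by
    rw [hs0]; field_simp; ring
  rw [h7] at h5
  calc ∑ w : Om n l, suc k ε R w ≤ _ := h6
    _ ≤ (2 * (ε * 2 ^ n) + 1) / √s0 * Fintype.card (Om n l) +
        (4 * pp l * Fintype.card (Om n l) + 4 / (pp l * m) * Fintype.card (Om n l) +
        16 * pp l * 2 ^ n / m * Fintype.card (Om n l)) := by linarith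
    _ = _ := by ring

end Pool.Agent.Work.MP_8f25a0_lc.Full
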