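import Pool.Agent.Work.MP_8f25a0_lc.Full.CellJ

/-!
# Full reading: leaving a random set unread, large `k`
-/

namespace Pool.Agent.Work.MP_8f25a0_lc.Full

open Finset

variable {n k l m : ℕ} {J : Finset (Fin n)}

/-- expectation of a product over different inputs -/
theorem sum_prod_om (φ : Fin (l + 2) → ℝ) (A : Finset (Cube n)) :
    ∑ w : Om n l, ∏ y ∈ A, φ (w y) =
      ((∑ a, φ a) / (l + 2)) ^ A.card * Fintype.card (Om n l) := by
  classical
  induction A using Finset.induction_on with
  | empty => simp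
  | insert y A hy ih =>
    have h := resample_mul (l := l) y (fun w => ∏ z ∈ A, φ (w z)) φ (by
      intro w a
      apply prod_congr rfl
      intro z hz
      rw [Function.update_of_ne]
      rintro rfl
      exact hy hz)
    rw [ih] at h
    have h2 := l2_pos (l := l)
    have h4 : ∀ w : Om n l, ∏ z ∈ insert y A, φ (w z) = (∏ z ∈ A, φ (w z)) * φ (w y) := by
      intro w
      rw [prod_insert hy, mul_comm]
    simp_rw [h4]
    have h3 : ((l : ℝ) + 2) * ∑ w : Om n l, (∏ z ∈ A, φ (w z)) * φ (w y) =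
        ((l : ℝ) + 2) * (((∑ a, φ a) / (l + 2)) ^ (insert y A).card *
          Fintype.card (Om n l)) := by
      rw [h, card_insert_of_notMem hy, pow_succ]
      field_simp
    exact mul_left_cancel₀ h2.ne' h3

/-- functions of disjoint sets of letters are independent -/
theorem avg_indep (A : Finset (Cube n)) {G H : Om n l → ℝ}
    (hG : ∀ w w' : Om n l, (∀ y ∈ A, w y = w' y) → G w = G w')
    (hH : ∀ w w' : Om n l, (∀ y, y ∉ A → w y = w' y) → H w = H w') :
    avg (fun w => G w * H w) = avg G * avg H := by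
  classical
  set mix : Om n l → Om n l → Om n l := fun u v y => if y ∈ A then u y else v y with hmix
  set σ : Om n l × Om n l → Om n l × Om n l := fun q => (mix q.1 q.2, mix q.2 q.1) with hσ
  have hinv : Function.Involutive σ := by
    intro q
    simp only [hσ, hmix]
    ext1
    · funext y
      by_cases h : y ∈ A <;> simp [h]
    · funext y
      by_cases h : y ∈ A <;> simp [h]
  have h1 : (∑ w, G w) * ∑ w, H w = ∑ q : Om n l × Om n l, G q.1 * H q.2 := by
    rw [sum_mul_sum, Fintype.sum_prod_type (fun q : Om n l × Om n l => G q.1 * H q.2)]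
  have h2 : ∑ q : Om n l × Om n l, G q.1 * H q.2 = ∑ q : Om n l × Om n l, G q.1 * H q.1 := by
    rw [← hinv.bijective.sum_comp (fun q : Om n l × Om n l => G q.1 * H q.2)]
    apply sum_congr rfl
    intro q _
    simp only [hσ]
    rw [hG (mix q.1 q.2) q.1 (fun y hy => by simp [hmix, hy]),
      hH (mix q.2 q.1) q.1 (fun y hy => by simp [hmix, hy])]
  have h3 : ∑ q : Om n l × Om n l, G q.1 * H q.1 =
      Fintype.card (Om n l) * ∑ w, G w * H w := by
    rw [Fintype.sum_prod_type (fun q : Om n l × Om n l => G q.1 * H q.1), mul_sum]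
    apply sum_congr rfl
    intro w _
    have h4 : ∑ y : Om n l, G (w, y).1 * H (w, y).1 = ∑ _y : Om n l, G w * H w := rfl
    rw [h4, sum_const, card_univ, nsmul_eq_mul]
  have hc : (0 : ℝ) < Fintype.card (Om n l) := by exact_mod_cast Fintype.card_pos
  unfold avg
  rw [div_mul_div_comm, h1, h2, h3]
  field_simp

/-- representatives of the cells -/
def RJ (J : Finset (Fin n)) : Finset (Cube n) := univ.filter fun x => ∀ i, i ∉ J → x i = false

theorem RJ_disj {x y : Cube n} (hx : x ∈ RJ J) (hy : y ∈ RJ J) (h : y ∈ cellJ J x) : y = x := by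
  simp only [RJ, mem_filter, mem_univ, true_and] at hx hy
  rw [mem_cellJ] at h
  funext i
  by_cases hi : i ∈ J
  · exact h i hi
  · rw [hx i hi, hy i hi]

theorem sum_RJ (ψ : Cube n → ℝ) (hψ : ∀ x y, y ∈ cellJ J x → ψ y = ψ x) :
    ∑ x, ψ x / (cellJ J x).card = ∑ z ∈ RJ J, ψ z := by
  classical
  set rep : Cube n → Cube n := fun x i => if i ∈ J then x i else false with hrep
  have hmap : ∀ x ∈ (univ : Finset (Cube n)), rep x ∈ RJ J := by
    intro x _
    simp only [RJ, mem_filter, mem_univ, true_and, hrep]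
    intro i hi
    rw [if_neg hi]
  rw [← sum_fiberwise_of_maps_to hmap]
  apply sum_congr rfl
  intro z hz
  have h1 : (univ.filter fun x => rep x = z) = cellJ J z := by
    ext x
    simp only [mem_filter, mem_univ, true_and, mem_cellJ]
    simp only [RJ, mem_filter, mem_univ, true_and] at hz
    constructor
    · intro h i hi
      rw [← h]
      simp only [hrep]
      rw [if_pos hi]
    · intro h
      funext i
      simp only [hrep]
      by_cases hi : i ∈ J
      · rw [if_pos hi]; exact h i hi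
      · rw [if_neg hi, hz i hi]
  rw [h1]
  have h2 : ∀ x ∈ cellJ J z, ψ x / ((cellJ J x).card : ℝ) = ψ z / (cellJ J z).card := by
    intro x hx; rw [cellJ_eq hx, hψ z x hx]
  rw [sum_congr rfl h2, sum_const, nsmul_eq_mul]
  have : (0 : ℝ) < (cellJ J z).card := by exact_mod_cast cellJ_pos z
  field_simp

theorem card_RJ (J : Finset (Fin n)) : ((RJ J).card : ℝ) * 2 ^ (n - J.card) = 2 ^ n := by
  have h := sum_RJ (J := J) (fun _ => (2 : ℝ) ^ (n - J.card)) (fun _ _ _ => rfl)
  rw [sum_const, nsmul_eq_mul] at h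
  rw [← h]
  have h1 : ∀ x : Cube n, (2 : ℝ) ^ (n - J.card) / (cellJ J x).card = 1 := by
    intro x
    rw [card_cellJ]
    push_cast
    field_simp
  simp_rw [h1]
  simp

/-- the cell of `x` is read completely -/
noncomputable def xi (J : Finset (Fin n)) (w : Om n l) (x : Cube n) : ℝ :=
  ∏ y ∈ cellJ J x, (1 - tau (w y))

theorem xi_eq (w : Om n l) (x : Cube n) :
    (xi J w x = 1 ∧ ∀ y ∈ cellJ J x, y ∉ TT w) ∨ xi J w x = 0 := by
  by_cases h : ∀ y ∈ cellJ J x, y ∉ TT w
  · left
    refine ⟨?_, h⟩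
    unfold xi
    apply prod_eq_one
    intro y hy
    have h1 := h y hy
    unfold TT at h1
    simp only [mem_filter, mem_univ, true_and] at h1
    unfold tau
    rw [if_neg h1]; ring
  · right
    push Not at h
    obtain ⟨y, hy, hyT⟩ := h
    unfold xi
    apply prod_eq_zero hy
    unfold TT at hyT
    simp only [mem_filter, mem_univ, true_and] at hyT
    unfold tau
    rw [if_pos hyT]; ring

theorem xi_congr_cell (w : Om n l) {x y : Cube n} (h : y ∈ cellJ J x) : xi J w y = xi J w x := by
  unfold xi; rw [cellJ_eq h]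

/-- the probability that a cell is read completely -/
noncomputable def gam (n : ℕ) (l : ℕ) (J : Finset (Fin n)) : ℝ :=
  (1 - pp l) ^ (2 ^ (n - J.card))

theorem avg_xi (x : Cube n) : avg (fun w : Om n l => xi J w x) = gam n l J := by
  have h := sum_prod_om (n := n) (l := l) (fun a => 1 - tau a) (cellJ J x)
  have h1 : (∑ a : Fin (l + 2), (1 - tau a)) / ((l : ℝ) + 2) = 1 - pp l := by
    rw [sum_sub_distrib, sum_tau, sum_const, card_univ, Fintype.card_fin, nsmul_eq_mul]
    unfold pp
    have := l2_pos (l := l)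
    push_cast
    field_simp
  rw [h1, card_cellJ] at h
  unfold avg xi gam
  rw [h]
  have hc : (0 : ℝ) < Fintype.card (Om n l) := by exact_mod_cast Fintype.card_pos
  field_simp

theorem real_ineq {a g : ℝ} (ha : |a| ≤ 1 / 2) (hg : 1 / 2 ≤ g) (hg1 : g ≤ 1) :
    (1 - g) * Real.exp (-a) + g * Real.exp (a * (1 / g - 1)) ≤ Real.exp (2 * a ^ 2 * (1 - g)) := by
  have hg0 : 0 < g := by linarith
  set h := 1 - g with hh
  have hh0 : 0 ≤ h := by rw [hh]; linarith
  set u := a * (1 / g - 1) with hu
  have hug : g * u = a * h := by rw [hu, hh]; field_simp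
  have hratio : 0 ≤ 1 / g - 1 ∧ 1 / g - 1 ≤ 1 := by
    constructor
    · have : 1 ≤ 1 / g := by rw [le_div_iff₀ hg0]; linarith
      linarith
    · have : 1 / g ≤ 2 := by rw [div_le_iff₀ hg0]; linarith
      linarith
  have hu1 : |u| ≤ 1 := by
    rw [hu, abs_mul, abs_of_nonneg hratio.1]
    have := abs_nonneg a
    nlinarith [hratio.2]
  have e1 := Real.abs_exp_sub_one_sub_id_le (x := -a) (by rw [abs_neg]; linarith)
  have e2 := Real.abs_exp_sub_one_sub_id_le (x := u) hu1
  have e1' := (abs_le.mp e1).2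
  have e2' := (abs_le.mp e2).2
  have e3 := Real.add_one_le_exp (2 * a ^ 2 * h)
  have e4 : g * u ^ 2 ≤ h * a ^ 2 := by
    have : g * u ^ 2 = (a * h) * u := by rw [← hug]; ring
    rw [this, hu]
    have h5 : a * h * (a * (1 / g - 1)) = h * a ^ 2 * (1 / g - 1) := by ring
    rw [h5]
    have h6 : 0 ≤ h * a ^ 2 := by positivity
    nlinarith [hratio.2]
  have e5 : h * Real.exp (-a) ≤ h * (1 - a + a ^ 2) :=
    mul_le_mul_of_nonneg_left (by nlinarith) hh0
  have e6 : g * Real.exp u ≤ g * (1 + u + u ^ 2) :=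
    mul_le_mul_of_nonneg_left (by linarith) hg0.le
  have e7 : h * (1 - a + a ^ 2) + g * (1 + u + u ^ 2) = 1 + (h * a ^ 2 + g * u ^ 2) := by
    have : g * (1 + u + u ^ 2) = g + a * h + g * u ^ 2 := by rw [← hug]; ring
    rw [this, hh]; ring
  linarith

/-- the contribution of one cell to the exponential moment -/
noncomputable def Fz (J : Finset (Fin n)) (f : Cube n → Bool) (t : ℝ) (z : Cube n)
    (w : Om n l) : ℝ := Real.exp (t * (mn J f z * (xi J w z / gam n l J - 1)))

theorem avg_Fz (f : Cube n → Bool) {t : ℝ} (z : Cube n) (ht : |t * mn J f z| ≤ 1 / 2)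
    (hg : 1 / 2 ≤ gam n l J) (hg1 : gam n l J ≤ 1) :
    avg (Fz (l := l) J f t z) ≤ Real.exp (2 * (t * mn J f z) ^ 2 * (1 - gam n l J)) := by
  set a := t * mn J f z with ha
  set g := gam n l J with hgd
  have h1 : ∀ w : Om n l, Fz J f t z w =
      Real.exp (-a) + xi J w z * (Real.exp (a * (1 / g - 1)) - Real.exp (-a)) := by
    intro w
    unfold Fz
    rw [← mul_assoc, ← ha, ← hgd]
    rcases xi_eq (J := J) w z with ⟨h2, -⟩ | h2
    · rw [h2]; ring_nf
    · rw [h2]; ring_nf
  have h2 : avg (Fz (l := l) J f t z) = (1 - g) * Real.exp (-a) + g *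
      Real.exp (a * (1 / g - 1)) := by
    have h3 : Fz (l := l) J f t z = fun w =>
        Real.exp (-a) + xi J w z * (Real.exp (a * (1 / g - 1)) - Real.exp (-a)) := by
      funext w; exact h1 w
    rw [h3, avg_add, avg_const, avg_mul_right, avg_xi, ← hgd]
    ring
  rw [h2]
  exact real_ineq ht hg hg1

theorem Fz_nonneg (f : Cube n → Bool) (t : ℝ) (z : Cube n) (w : Om n l) : 0 ≤ Fz J f t z w :=
  (Real.exp_pos _).le

theorem Fz_congr (f : Cube n → Bool) (t : ℝ) (z : Cube n) {w w' : Om n l}
    (h : ∀ y ∈ cellJ J z, w y = w' y) : Fz J f t z w = Fz J f t z w' := by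
  unfold Fz xi
  rw [prod_congr rfl (fun y hy => by rw [h y hy])]

theorem avg_prod_Fz (f : Cube n → Bool) (t : ℝ) (R : Finset (Cube n)) (hR : R ⊆ RJ J) :
    avg (fun w : Om n l => ∏ z ∈ R, Fz J f t z w) = ∏ z ∈ R, avg (Fz (l := l) J f t z) := by
  classical
  induction R using Finset.induction_on with
  | empty => simp only [prod_empty]; exact avg_const 1
  | insert z R hz ih =>
    have hz1 : z ∈ RJ J := hR (mem_insert_self _ _)
    have hR1 : R ⊆ RJ J := fun y hy => hR (mem_insert_of_mem hy)
    rw [prod_insert hz, ← ih hR1]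
    have h1 : (fun w : Om n l => ∏ y ∈ insert z R, Fz J f t y w) =
        fun w => Fz J f t z w * ∏ y ∈ R, Fz J f t y w := by
      funext w; rw [prod_insert hz]
    rw [h1]
    apply avg_indep (cellJ J z)
    · intro w w' h
      exact Fz_congr f t z h
    · intro w w' h
      apply prod_congr rfl
      intro y hy
      apply Fz_congr
      intro x hx
      apply h
      intro hxz
      have h2 : y ∈ cellJ J z := by
        have h3 := cellJ_eq hxz
        rw [← h3]
        exact mem_cellJ_comm.mp hx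
      have h4 := RJ_disj hz1 (hR1 hy) h2
      exact hz (h4 ▸ hy)

/-- the error of the estimate for `J` -/
noncomputable def EJ (J : Finset (Fin n)) (f : Cube n → Bool) (w : Om n l) : ℝ :=
  ∑ z ∈ RJ J, mn J f z * (xi J w z / gam n l J - 1)

theorem exp_EJ (f : Cube n → Bool) {t : ℝ} (ht : |t| * 2 ^ (n - J.card) ≤ 1)
    (hg : 1 / 2 ≤ gam n l J) (hp1 : pp l ≤ 1) :
    avg (fun w : Om n l => Real.exp (t * EJ J f w)) ≤
      Real.exp (t ^ 2 * (2 ^ (n - J.card)) ^ 2 * 2 ^ n * pp l / 2) := by
  set M : ℝ := 2 ^ (n - J.card) with hM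
  have hM0 : 0 < M := by positivity
  have hg1 : gam n l J ≤ 1 := by
    unfold gam
    apply pow_le_one₀ (by linarith)
    have := pp_pos (l := l)
    linarith
  have hmn : ∀ z, mn J f z ≤ M / 2 := by
    intro z
    have := mn_le (J := J) f z
    rw [card_cellJ] at this
    push_cast at this
    exact this
  have h1 : ∀ w : Om n l, Real.exp (t * EJ J f w) = ∏ z ∈ RJ J, Fz J f t z w := by
    intro w
    unfold EJ Fz
    rw [mul_sum, Real.exp_sum]
  simp_rw [h1]
  rw [avg_prod_Fz f t (RJ J) (subset_refl _)]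
  have h2 : ∀ z ∈ RJ J, avg (Fz (l := l) J f t z) ≤
      Real.exp (2 * (t * (M / 2)) ^ 2 * (1 - gam n l J)) := by
    intro z _
    have h3 : |t * mn J f z| ≤ 1 / 2 := by
      rw [abs_mul, abs_of_nonneg (mn_nonneg f z)]
      have := mul_le_mul_of_nonneg_left (hmn z) (abs_nonneg t)
      linarith
    refine (avg_Fz f z h3 hg hg1).trans ?_
    apply Real.exp_le_exp.mpr
    apply mul_le_mul_of_nonneg_right _ (by linarith)
    have h4 : (t * mn J f z) ^ 2 ≤ (t * (M / 2)) ^ 2 := by
      rw [mul_pow, mul_pow]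
      exact mul_le_mul_of_nonneg_left (pow_le_pow_left₀ (mn_nonneg f z) (hmn z) 2) (sq_nonneg t)
    linarith
  calc ∏ z ∈ RJ J, avg (Fz (l := l) J f t z)
      ≤ ∏ _z ∈ RJ J, Real.exp (2 * (t * (M / 2)) ^ 2 * (1 - gam n l J)) := by
        apply prod_le_prod _ h2
        intro z _
        exact avg_nonneg fun w => Fz_nonneg f t z w
    _ = Real.exp ((RJ J).card * (2 * (t * (M / 2)) ^ 2 * (1 - gam n l J))) := by
        rw [prod_const, ← Real.exp_nat_mul]
    _ ≤ _ := by
        apply Real.exp_le_exp.mpr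
        have h5 : 1 - gam n l J ≤ M * pp l := by
          unfold gam
          have h6 := one_add_mul_le_pow (a := -pp l) (by linarith) (2 ^ (n - J.card))
          push_cast at h6
          rw [← hM] at h6
          have h7 : (1 : ℝ) + -pp l = 1 - pp l := by ring
          rw [h7] at h6
          linarith
        have h8 := card_RJ J
        rw [← hM] at h8
        calc ((RJ J).card : ℝ) * (2 * (t * (M / 2)) ^ 2 * (1 - gam n l J))
            ≤ (RJ J).card * (2 * (t * (M / 2)) ^ 2 * (M * pp l)) := by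
              apply mul_le_mul_of_nonneg_left _ (Nat.cast_nonneg _)
              apply mul_le_mul_of_nonneg_left h5 (by positivity)
          _ = t ^ 2 * M ^ 2 * ((RJ J).card * M) * pp l / 2 := by ring
          _ = t ^ 2 * M ^ 2 * 2 ^ n * pp l / 2 := by rw [h8]

/-- the tail of the error -/
theorem tail_EJ (f : Cube n → Bool) {t δ : ℝ} (ht0 : 0 ≤ t) (ht : t * 2 ^ (n - J.card) ≤ 1)
    (hg : 1 / 2 ≤ gam n l J) (hp1 : pp l ≤ 1) :
    avg (fun w : Om n l => if δ < |EJ J f w| then (1 : ℝ) else 0) ≤
      2 * Real.exp (-(t * δ) + t ^ 2 * (2 ^ (n - J.card)) ^ 2 * 2 ^ n * pp l / 2) := by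
  have h1 := exp_EJ (l := l) f (t := t) (by rw [abs_of_nonneg ht0]; exact ht) hg hp1
  have h2 := exp_EJ (l := l) f (t := -t) (by rw [abs_neg, abs_of_nonneg ht0]; exact ht) hg hp1
  rw [neg_sq] at h2
  calc avg (fun w : Om n l => if δ < |EJ J f w| then (1 : ℝ) else 0)
      ≤ avg (fun w : Om n l => Real.exp (-(t * δ)) * Real.exp (t * EJ J f w) +
          Real.exp (-(t * δ)) * Real.exp (-t * EJ J f w)) := by
        apply avg_mono
        intro w
        have p1 := Real.exp_pos (-(t * δ))
        have p2 := Real.exp_pos (t * EJ J f w)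
        have p3 := Real.exp_pos (-t * EJ J f w)
        split_ifs with h
        · rw [← Real.exp_add, ← Real.exp_add]
          rcases lt_abs.mp h with h3 | h3
          · have h4 : 1 ≤ Real.exp (-(t * δ) + t * EJ J f w) := by
              apply Real.one_le_exp
              nlinarith
            have := Real.exp_pos (-(t * δ) + -t * EJ J f w)
            linarith
          · have h4 : 1 ≤ Real.exp (-(t * δ) + -t * EJ J f w) := by
              apply Real.one_le_exp
              nlinarith
            have := Real.exp_pos (-(t * δ) + t * EJ J f w)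
            linarith
        · positivity
    _ ≤ Real.exp (-(t * δ)) * Real.exp (t ^ 2 * (2 ^ (n - J.card)) ^ 2 * 2 ^ n * pp l / 2) +
        Real.exp (-(t * δ)) * Real.exp (t ^ 2 * (2 ^ (n - J.card)) ^ 2 * 2 ^ n * pp l / 2) := by
        rw [avg_add, avg_mul_left, avg_mul_left]
        have := (Real.exp_pos (-(t * δ))).le
        exact add_le_add (mul_le_mul_of_nonneg_left h1 this) (mul_le_mul_of_nonneg_left h2 this)
    _ = _ := by rw [← Real.exp_add]; ring

/-- the estimate for `J` -/
noncomputable def hatJ (J : Finset (Fin n)) (w : Om n l) (v : Cube n → Bool) : ℝ :=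
  ∑ x, xi J w x / gam n l J * mn J v x / (cellJ J x).card

theorem hatJ_congr (w : Om n l) {v v' : Cube n → Bool} (h : ∀ x, x ∉ TT w → v x = v' x) :
    hatJ J w v = hatJ J w v' := by
  unfold hatJ
  apply sum_congr rfl
  intro x _
  rcases xi_eq (J := J) w x with ⟨h1, h2⟩ | h1
  · have h3 : mn J v x = mn J v' x := by
      unfold mn
      have e1 : ∀ b : Bool, ((cellJ J x).filter fun y => v y = b) =
          ((cellJ J x).filter fun y => v' y = b) := by
        intro b
        apply filter_congr
        intro y hy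
        rw [h y (h2 y hy)]
      rw [e1, e1]
    rw [h3]
  · rw [h1]; simp

theorem hatJ_sub (f : Cube n → Bool) (w : Om n l) : hatJ J w f - DJ J f = EJ J f w := by
  unfold hatJ DJ EJ
  rw [← sum_RJ (J := J) (fun z => mn J f z * (xi J w z / gam n l J - 1)) (by
    intro x y h
    rw [mn_congr f h, xi_congr_cell w h]), ← sum_sub_distrib]
  apply sum_congr rfl
  intro x _
  ring

/-- the estimate -/
noncomputable def estC (n k : ℕ) (w : Om n l) (v : Cube n → Bool) : ℝ :=
  ⨅ J : {J : Finset (Fin n) // J ∈ powersetCard k univ}, hatJ J.1 w v / 2 ^ n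

theorem estC_close (hk : k ≤ n) (w : Om n l) (f : Cube n → Bool) {ε : ℝ}
    (h : ∀ J ∈ powersetCard k (univ : Finset (Fin n)), |EJ J f w| ≤ ε * 2 ^ n) :
    |estC n k w f - distK k f| ≤ ε := by
  have hN : (0 : ℝ) < 2 ^ n := by positivity
  obtain ⟨J0, hJ0, hJ0'⟩ := exists_DJ_eq hk f
  have : Nonempty {J : Finset (Fin n) // J ∈ powersetCard k univ} := ⟨⟨J0, hJ0⟩⟩
  have hb : BddBelow (Set.range fun J : {J : Finset (Fin n) // J ∈ powersetCard k univ} =>
      hatJ J.1 w f / 2 ^ n) := (Set.finite_range _).bddBelow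
  rw [abs_le]
  constructor
  · have : distK k f - ε ≤ estC n k w f := by
      apply le_ciInf
      rintro ⟨J, hJ⟩
      have h1 := (abs_le.mp (h J hJ)).1
      have h2 := distK_le_DJ (k := k) (mem_powersetCard.mp hJ).2.le f
      have h3 := hatJ_sub (J := J) f w
      simp only
      rw [le_div_iff₀ hN]
      linarith
    linarith
  · have h1 := (abs_le.mp (h J0 hJ0)).2
    have h2 : estC n k w f ≤ hatJ J0 w f / 2 ^ n := ciInf_le hb ⟨J0, hJ0⟩
    have h3 := hatJ_sub (J := J0) f w
    have h4 : hatJ J0 w f / 2 ^ n ≤ distK k f + ε := by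
      rw [div_le_iff₀ hN]
      linarith
    linarith

end Pool.Agent.Work.MP_8f25a0_lc.Full
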